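import Pool.Agent.H476R2.Sail

namespace Pool.Agent.H476R2

open Set

namespace SailData

variable {I V : Type} (D : SailData I V)

theorem w_inj (i : I) : Function.Injective (D.w i) := (D.basis i).injective

theorem affInd (i : I) : AffineIndependent ℝ (D.w i) :=
  LinearIndependent.affineIndependent (k := ℝ) (D.basis i)

/-- the simplex spanned by a set of vertices of a triangle -/
def simp (i : I) (J : Finset (Fin 3)) : Set V3 := convexHull ℝ (D.w i '' (J : Set (Fin 3)))

theorem simp_univ (i : I) : D.simp i Finset.univ = D.tri i := by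
  simp [simp, tri]

theorem mem_simp {i : I} {J : Finset (Fin 3)} {p : V3} :
    p ∈ D.simp i J ↔ p ∈ D.tri i ∧ ∀ j ∉ J, (D.bas i).repr p j = 0 := by
  constructor
  · intro hp
    refine ⟨convexHull_mono (Set.image_subset_range _ _) hp, ?_⟩
    have hconv : Convex ℝ {p : V3 | ∀ j ∉ J, (D.bas i).repr p j = 0} := by
      intro x hx y hy a b ha hb hab j hj
      rw [map_add, map_smul, map_smul]
      simp only [Finsupp.coe_add, Finsupp.coe_smul, Pi.add_apply, Pi.smul_apply, smul_eq_mul]
      rw [hx j hj, hy j hj]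
      simp
    refine convexHull_min ?_ hconv hp
    rintro _ ⟨k, hk, rfl⟩ j hj
    rw [repr_w, if_neg]
    rintro rfl
    exact hj hk
  · rintro ⟨h1, h2⟩
    rw [mem_tri] at h1
    have e : p = ∑ j ∈ J, (D.bas i).repr p j • D.w i j := by
      conv_lhs => rw [D.sum_repr i p]
      symm
      apply Finset.sum_subset (Finset.subset_univ _)
      intro j _ hj
      rw [h2 j hj, zero_smul]
    have hs : ∑ j ∈ J, (D.bas i).repr p j = 1 := by
      rw [← h1.2, D.f_self]
      apply Finset.sum_subset (Finset.subset_univ _)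
      intro j _ hj
      rw [h2 j hj]
    rw [e]
    apply (convex_convexHull ℝ _).sum_mem (fun j _ => h1.1 j) hs
    intro j hj
    exact subset_convexHull ℝ _ ⟨j, hj, rfl⟩

theorem finrank_simp (i : I) (J : Finset (Fin 3)) (k : ℕ) (hJ : J.card = k + 1) :
    Module.finrank ℝ (vectorSpan ℝ (D.simp i J)) = k := by
  have h := (D.affInd i).finrank_vectorSpan_image_finset hJ
  rw [simp, ← direction_affineSpan, affineSpan_convexHull, direction_affineSpan]
  have e : D.w i '' (J : Set (Fin 3)) = ((J.image (D.w i) : Finset V3) : Set V3) := by simp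
  rw [e]
  exact h

theorem cell_sub {k : ℕ} {G : Set V3} (h : IsCell D.K k G) :
    ∃ i, ∀ x ∈ G, D.f i x = 1 := by
  obtain ⟨f, c, hf, hK, rfl, hne, hrank⟩ := h
  set G : Set V3 := {x | x ∈ D.K ∧ f x = c} with hG
  have hGconv : Convex ℝ G := by
    intro x hx y hy a b ha hb hab
    refine ⟨D.K_convex hx.1 hy.1 ha hb hab, ?_⟩
    rw [map_add, map_smul, map_smul, hx.2, hy.2, ← add_smul, hab, one_smul]
  obtain ⟨t, htG, hspan, hind⟩ := exists_affineIndependent ℝ V3 G
  have htf : t.Finite := finite_set_of_fin_dim_affineIndependent ℝ hind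
  obtain ⟨T, rfl⟩ := htf.exists_finset_coe
  have hTne : T.Nonempty := by
    rw [Finset.nonempty_iff_ne_empty]
    rintro rfl
    simp only [Finset.coe_empty, AffineSubspace.span_empty] at hspan
    have := hspan ▸ (subset_affineSpan ℝ G hne.some_mem)
    exact this
  have hcard : (0 : ℝ) < T.card := by
    exact_mod_cast hTne.card_pos
  -- the centroid
  set p : V3 := ∑ x ∈ T, (1 / (T.card : ℝ)) • x with hp
  have hpG : p ∈ G := by
    apply hGconv.sum_mem
    · intro x _
      positivity
    · rw [Finset.sum_const, nsmul_eq_mul]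
      field_simp
    · intro x hx
      exact htG hx
  have hpfr : p ∈ frontier D.K := by
    rw [D.K_closed.frontier_eq]
    exact ⟨hpG.1, not_mem_interior hf hK hpG.2⟩
  rw [D.frontier_eq, mem_iUnion] at hpfr
  obtain ⟨i, hi⟩ := hpfr
  have hfi : D.f i p = 1 := (D.mem_tri.mp hi).2
  have hone : ∀ x ∈ T, D.f i x = 1 := by
    have h1 : ∑ x ∈ T, (D.f i x - 1) = 0 := by
      rw [Finset.sum_sub_distrib, Finset.sum_const, nsmul_eq_mul, mul_one]
      rw [hp, map_sum] at hfi
      simp only [map_smul, smul_eq_mul] at hfi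
      rw [← Finset.mul_sum] at hfi
      field_simp at hfi
      linarith
    have h2 := (Finset.sum_eq_zero_iff_of_nonneg (fun x hx => by
      have := (htG hx).1.2 i
      linarith)).mp h1
    intro x hx
    have := h2 x hx
    linarith
  refine ⟨i, fun x hx => ?_⟩
  have hx' : x ∈ affineSpan ℝ (T : Set V3) := by
    rw [hspan]
    exact subset_affineSpan ℝ G hx
  refine affineSpan_induction (p := fun x => D.f i x = 1) hx' (fun y hy => hone y hy) ?_
  intro a u v z hu hv hz
  simp only [vsub_eq_sub, vadd_eq_add, map_add, map_smul, map_sub, hu, hv, hz]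
  simp

theorem cell_eq_simp {k : ℕ} {G : Set V3} (h : IsCell D.K k G) :
    ∃ i, ∃ J : Finset (Fin 3), J.card = k + 1 ∧ G = D.simp i J := by
  obtain ⟨i, hi⟩ := D.cell_sub h
  obtain ⟨f, c, hf, hK, hGeq, hne, hrank⟩ := h
  classical
  set J : Finset (Fin 3) := Finset.univ.filter (fun j => f (D.w i j) = c) with hJ
  have hwK : ∀ j, D.w i j ∈ D.K := fun j => D.P_sub_K (D.posP _)
  have hG : G = D.simp i J := by
    apply Subset.antisymm
    · intro x hx
      have hx1 : x ∈ D.K ∧ f x = c := by rw [hGeq] at hx; exact hx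
      have hxt : x ∈ D.tri i := D.mem_tri_of hx1.1 (hi x hx)
      rw [mem_simp]
      refine ⟨hxt, fun j hj => ?_⟩
      rw [mem_tri] at hxt
      have h1 : ∑ j, (D.bas i).repr x j * (f (D.w i j) - c) = 0 := by
        have e1 : f x = ∑ j, (D.bas i).repr x j * f (D.w i j) := by
          conv_lhs => rw [D.sum_repr i x]
          rw [map_sum]
          simp
        have e2 : ∑ j, (D.bas i).repr x j = 1 := by rw [← D.f_self]; exact hxt.2
        simp only [mul_sub]
        rw [Finset.sum_sub_distrib, ← e1, ← Finset.sum_mul, e2, hx1.2]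
        ring
      have h2 := (Finset.sum_eq_zero_iff_of_nonneg (fun j _ =>
        mul_nonneg (hxt.1 j) (sub_nonneg.mpr (hK _ (hwK j))))).mp h1 j (Finset.mem_univ _)
      have h3 : f (D.w i j) - c ≠ 0 := by
        intro h0
        apply hj
        rw [hJ, Finset.mem_filter]
        exact ⟨Finset.mem_univ _, by linarith⟩
      exact (mul_eq_zero.mp h2).resolve_right h3
    · have hGconv : Convex ℝ G := by
        rw [hGeq]
        intro x hx y hy a b ha hb hab
        refine ⟨D.K_convex hx.1 hy.1 ha hb hab, ?_⟩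
        rw [map_add, map_smul, map_smul, hx.2, hy.2, ← add_smul, hab, one_smul]
      apply convexHull_min _ hGconv
      rintro _ ⟨j, hj, rfl⟩
      rw [hGeq]
      have hj' : j ∈ J := hj
      rw [hJ, Finset.mem_filter] at hj'
      exact ⟨hwK j, hj'.2⟩
  refine ⟨i, J, ?_, hG⟩
  have hJne : J.Nonempty := by
    rw [Finset.nonempty_iff_ne_empty]
    intro h0
    rw [hG, h0, simp] at hne
    simp at hne
  obtain ⟨m, hm⟩ : ∃ m, J.card = m + 1 := ⟨J.card - 1, by have := hJne.card_pos; omega⟩
  have := D.finrank_simp i J m hm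
  rw [← hG, hrank] at this
  omega

/-- for every nonempty set of vertices of a triangle there is a functional whose minimum on `K` is
attained exactly on the simplex spanned by these vertices -/
theorem simp_isCell (i : I) (J : Finset (Fin 3)) (k : ℕ) (hk : J.card = k + 1) :
    IsCell D.K k (D.simp i J) := by
  classical
  choose nb hnb1 hnb2 using D.nbr i
  set T : Finset (Fin 3) := Finset.univ \ J with hT
  refine ⟨D.f i + ∑ j ∈ T, D.f (nb j), 1 + (T.card : ℝ), ?_, ?_, ?_, ?_, D.finrank_simp i J k hk⟩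
  · intro h0
    have h1 : (D.f i + ∑ j ∈ T, D.f (nb j)) (D.w i 0) = 0 := by rw [h0]; rfl
    rw [LinearMap.add_apply, LinearMap.sum_apply] at h1
    have h2 : 0 < D.f i (D.w i 0) := D.fpos i _ (D.PC (D.posP _))
    have h3 : 0 ≤ ∑ j ∈ T, D.f (nb j) (D.w i 0) :=
      Finset.sum_nonneg fun j _ => (D.fpos _ _ (D.PC (D.posP _))).le
    linarith
  · intro x hx
    rw [LinearMap.add_apply, LinearMap.sum_apply]
    have h1 := hx.2 i
    have h2 : (T.card : ℝ) ≤ ∑ j ∈ T, D.f (nb j) x := by
      have := Finset.card_nsmul_le_sum T (fun j => D.f (nb j) x) 1 (fun j _ => hx.2 _)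
      simpa using this
    linarith
  · ext x
    simp only [mem_ofPred_eq]
    rw [LinearMap.add_apply, LinearMap.sum_apply]
    constructor
    · intro hx
      rw [mem_simp] at hx
      refine ⟨D.tri_sub_K i hx.1, ?_⟩
      have h1 : D.f i x = 1 := (D.mem_tri.mp hx.1).2
      have h2 : ∀ j ∈ T, D.f (nb j) x = 1 := by
        intro j hj
        rw [hT, Finset.mem_sdiff] at hj
        rw [D.f_eq i (nb j) x, ← h1, D.f_self]
        refine Finset.sum_congr rfl fun m _ => ?_
        by_cases hmj : m = j
        · subst hmj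
          rw [hx.2 m hj.2, zero_mul]
        · obtain ⟨l, hl⟩ := hnb1 j m hmj
          have : D.w i m = D.w (nb j) l := by rw [w, w, hl]
          rw [this, show D.f (nb j) (D.w (nb j) l) = 1 from D.fvert _ _, mul_one]
      rw [h1, Finset.sum_congr rfl h2]
      simp
    · rintro ⟨hx, hsum⟩
      have h0 := hx.2 i
      have h1 : ∀ j ∈ T, 0 ≤ D.f (nb j) x - 1 := fun j _ => by
        have := hx.2 (nb j)
        linarith
      have h2 : ∑ j ∈ T, (D.f (nb j) x - 1) = ∑ j ∈ T, D.f (nb j) x - T.card := by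
        rw [Finset.sum_sub_distrib]
        simp
      have h3 : 0 ≤ ∑ j ∈ T, (D.f (nb j) x - 1) := Finset.sum_nonneg h1
      have h4 : D.f i x = 1 := by linarith
      have h5 : ∑ j ∈ T, (D.f (nb j) x - 1) = 0 := by linarith
      have h6 := (Finset.sum_eq_zero_iff_of_nonneg h1).mp h5
      have hxt : x ∈ D.tri i := D.mem_tri_of hx h4
      rw [mem_simp]
      refine ⟨hxt, fun j hj => ?_⟩
      have hjT : j ∈ T := by rw [hT, Finset.mem_sdiff]; exact ⟨Finset.mem_univ _, hj⟩
      have h7 := h6 j hjT
      rw [mem_tri] at hxt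
      have h8 : D.f (nb j) x - 1 = ∑ m, (D.bas i).repr x m * (D.f (nb j) (D.w i m) - 1) := by
        rw [D.f_eq i (nb j) x]
        simp only [mul_sub, mul_one]
        rw [Finset.sum_sub_distrib, ← D.f_self, h4]
      rw [h7] at h8
      have h9 := (Finset.sum_eq_zero_iff_of_nonneg (fun m _ => mul_nonneg (hxt.1 m) (by
        have := D.fP (nb j) (D.w i m) (D.posP _)
        linarith))).mp h8.symm j (Finset.mem_univ _)
      have h10 := D.one_lt_of_nbr (hnb2 j)
      rcases mul_eq_zero.mp h9 with h | h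
      · exact h
      · linarith
  · have hJ : J.Nonempty := by
      rw [← Finset.card_pos]
      omega
    obtain ⟨j, hj⟩ := hJ
    exact ⟨D.w i j, subset_convexHull ℝ _ ⟨j, hj, rfl⟩⟩

theorem isCell_iff {k : ℕ} {G : Set V3} :
    IsCell D.K k G ↔ ∃ i, ∃ J : Finset (Fin 3), J.card = k + 1 ∧ G = D.simp i J := by
  constructor
  · exact D.cell_eq_simp
  · rintro ⟨i, J, hk, rfl⟩
    exact D.simp_isCell i J k hk

end SailData

end Pool.Agent.H476R2
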