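import Pool.Agent.H476R2.NonEq

/-!
Two explicit systems, attached to the cubic orders of discriminants 7537 and 25961.
-/

namespace Pool.Agent.H476R2

open Set Matrix

namespace ExOne

/-- the cubic norm form of the lattice `ℤ[β]` -/
def nf (z : Fin 3 → ℤ) : ℤ :=
  z 0 ^ 3 + 12 * (z 0 ^ 2 * z 1) + (12 ^ 2 - 2 * 11) * (z 0 ^ 2 * z 2) + 11 * (z 0 * z 1 ^ 2) +
    (12 * 11 - 3) * (z 0 * z 1 * z 2) + (11 ^ 2 - 2 * 12) * (z 0 * z 2 ^ 2) + z 1 ^ 3 +
    12 * (z 1 ^ 2 * z 2) + 11 * (z 1 * z 2 ^ 2) + z 2 ^ 3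

theorem nf_aniso : ∀ a b c : ZMod 3,
    a ^ 3 + 12 * (a ^ 2 * b) + (12 ^ 2 - 2 * 11) * (a ^ 2 * c) + 11 * (a * b ^ 2) +
    (12 * 11 - 3) * (a * b * c) + (11 ^ 2 - 2 * 12) * (a * c ^ 2) + b ^ 3 +
    12 * (b ^ 2 * c) + 11 * (b * c ^ 2) + c ^ 3 = 0 → a = 0 ∧ b = 0 ∧ c = 0 := by
  decide

theorem nf_dvd {z : Fin 3 → ℤ} (h : (3 : ℤ) ∣ nf z) : ∀ i, (3 : ℤ) ∣ z i := by
  have h1 : ((nf z : ℤ) : ZMod 3) = 0 := (ZMod.intCast_zmod_eq_zero_iff_dvd _ _).mpr h
  unfold nf at h1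
  push_cast at h1
  obtain ⟨ha, hb, hc⟩ := nf_aniso _ _ _ h1
  intro i
  fin_cases i
  · exact (ZMod.intCast_zmod_eq_zero_iff_dvd _ _).mp ha
  · exact (ZMod.intCast_zmod_eq_zero_iff_dvd _ _).mp hb
  · exact (ZMod.intCast_zmod_eq_zero_iff_dvd _ _).mp hc

theorem nf_ne_zero {z : Fin 3 → ℤ} (hz : z ≠ 0) : nf z ≠ 0 := by
  have key : ∀ n : ℕ, ∀ z : Fin 3 → ℤ, (z 0).natAbs + (z 1).natAbs + (z 2).natAbs = n → nf z = 0 →
      z = 0 := by
    intro n
    induction n using Nat.strong_induction_on with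
    | _ n ih =>
      intro z hn hz0
      have hd : ∀ i, (3 : ℤ) ∣ z i := nf_dvd (by rw [hz0]; exact dvd_zero _)
      choose y hy using hd
      have h1 : nf y = 0 := by
        have h2 : nf z = 3 ^ 3 * nf y := by
          unfold nf
          rw [hy 0, hy 1, hy 2]
          ring
        rw [hz0] at h2
        omega
      by_cases hy0 : y = 0
      · funext i
        rw [hy i, hy0]
        simp
      · have h3 : (y 0).natAbs + (y 1).natAbs + (y 2).natAbs < n := by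
          have h4 : y 0 ≠ 0 ∨ y 1 ≠ 0 ∨ y 2 ≠ 0 := by
            by_contra hcon
            push Not at hcon
            apply hy0
            funext i
            fin_cases i
            · exact hcon.1
            · exact hcon.2.1
            · exact hcon.2.2
          have e0 := hy 0
          have e1 := hy 1
          have e2 := hy 2
          omega
        exact absurd (ih _ h3 y rfl h1) hy0
  exact fun h => hz (key _ z rfl h)

/-- the three roots of `x³ - 12x² + 11x - 1` -/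
structure Roots where
  a : ℝ
  b : ℝ
  c : ℝ
  ha : a ^ 3 - 12 * a ^ 2 + 11 * a - 1 = 0
  hb : b ^ 3 - 12 * b ^ 2 + 11 * b - 1 = 0
  hc : c ^ 3 - 12 * c ^ 2 + 11 * c - 1 = 0
  a1 : 102 / 1000 < a
  a2 : a < 103 / 1000
  b1 : 8887 / 10000 < b
  b2 : b < 8888 / 10000
  c1 : 11 < c
  c2 : c < 1101 / 100

theorem exists_roots : Nonempty Roots := by
  have hcont : Continuous fun x : ℝ => x ^ 3 - 12 * x ^ 2 + 11 * x - 1 := by fun_prop
  obtain ⟨a, ha, ea⟩ : (0 : ℝ) ∈ (fun x : ℝ => x ^ 3 - 12 * x ^ 2 + 11 * x - 1) '' Set.Ioo (102 / 1000) (103 / 1000) :=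
    intermediate_value_Ioo (by norm_num) hcont.continuousOn (by constructor <;> norm_num)
  obtain ⟨b, hb, eb⟩ : (0 : ℝ) ∈ (fun x : ℝ => x ^ 3 - 12 * x ^ 2 + 11 * x - 1) '' Set.Ioo (8887 / 10000) (8888 / 10000) :=
    intermediate_value_Ioo' (by norm_num) hcont.continuousOn (by constructor <;> norm_num)
  obtain ⟨c, hc, ec⟩ : (0 : ℝ) ∈ (fun x : ℝ => x ^ 3 - 12 * x ^ 2 + 11 * x - 1) '' Set.Ioo (11) (1101 / 100) :=
    intermediate_value_Ioo (by norm_num) hcont.continuousOn (by constructor <;> norm_num)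
  exact ⟨⟨a, b, c, ea, eb, ec, ha.1, ha.2, hb.1, hb.2, hc.1, hc.2⟩⟩

namespace Roots

variable (R : Roots)

theorem lt_ab : R.a < R.b := by
  have h1 := R.a2
  have h2 := R.b1
  norm_num at h1 h2
  linarith

theorem lt_bc : R.b < R.c := by
  have h1 := R.b2
  have h2 := R.c1
  norm_num at h1 h2
  linarith

theorem e1 : R.a + R.b + R.c = 12 := by
  have hab := R.lt_ab
  have hbc := R.lt_bc
  have h1 : R.a ^ 2 + R.a * R.b + R.b ^ 2 - 12 * (R.a + R.b) + 11 = 0 := by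
    have : (R.a - R.b) * (R.a ^ 2 + R.a * R.b + R.b ^ 2 - 12 * (R.a + R.b) + 11) = 0 := by
      linear_combination R.ha - R.hb
    rcases mul_eq_zero.mp this with h | h
    · linarith
    · exact h
  have h2 : R.b ^ 2 + R.b * R.c + R.c ^ 2 - 12 * (R.b + R.c) + 11 = 0 := by
    have : (R.b - R.c) * (R.b ^ 2 + R.b * R.c + R.c ^ 2 - 12 * (R.b + R.c) + 11) = 0 := by
      linear_combination R.hb - R.hc
    rcases mul_eq_zero.mp this with h | h
    · linarith
    · exact h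
  have h3 : (R.a - R.c) * (R.a + R.b + R.c - 12) = 0 := by
    linear_combination h1 - h2
  rcases mul_eq_zero.mp h3 with h | h
  · linarith
  · linarith

theorem e2 : R.a * R.b + R.a * R.c + R.b * R.c = 11 := by
  have hab := R.lt_ab
  have h1 : R.a ^ 2 + R.a * R.b + R.b ^ 2 - 12 * (R.a + R.b) + 11 = 0 := by
    have : (R.a - R.b) * (R.a ^ 2 + R.a * R.b + R.b ^ 2 - 12 * (R.a + R.b) + 11) = 0 := by
      linear_combination R.ha - R.hb
    rcases mul_eq_zero.mp this with h | h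
    · linarith
    · exact h
  have h2 := R.e1
  have h3 : R.c = 12 - R.a - R.b := by linarith
  rw [h3]
  linear_combination (-1 : ℝ) * h1

theorem e3 : R.a * R.b * R.c = 1 := by
  have h1 := R.e1
  have h2 := R.e2
  have h3 : R.b + R.c = 12 - R.a := by linarith
  have h4 : R.b * R.c = 11 - R.a * (12 - R.a) := by
    rw [← h3]
    linarith
  have h5 : R.a * R.b * R.c = R.a * (R.b * R.c) := by ring
  rw [h5, h4]
  linear_combination R.ha

/-- the linear forms -/
noncomputable def L (i : Fin 3) : V3 →ₗ[ℝ] ℝ :=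
  cov ![1, ![R.a, R.b, R.c] i, ![R.a, R.b, R.c] i ^ 2]

noncomputable def be (i : Fin 3) : ℝ := ![R.a, R.b, R.c] i

theorem L_apply (i : Fin 3) (x : V3) : R.L i x = x 0 + R.be i * x 1 + R.be i ^ 2 * x 2 := by
  simp [L, be, cov_apply, Fin.sum_univ_three]

noncomputable def al (i : Fin 3) : ℝ := R.be i ^ 2 - (12 - 1) * R.be i + 9

theorem root (i : Fin 3) : R.be i ^ 3 - 12 * R.be i ^ 2 + 11 * R.be i - 1 = 0 := by
  fin_cases i
  · exact R.ha
  · exact R.hb
  · exact R.hc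

theorem bepos (i : Fin 3) : 0 < R.be i := by
  have h1 := R.a1
  have h2 := R.b1
  have h3 := R.c1
  norm_num at h1 h2 h3
  fin_cases i
  · show 0 < R.a
    linarith
  · show 0 < R.b
    linarith
  · show 0 < R.c
    linarith

theorem al0 : 1 < R.al 0 := by
  have h1 := R.a1
  have h2 := R.a2
  norm_num at h1 h2
  show 1 < R.a ^ 2 - (12 - 1) * R.a + 9
  nlinarith

theorem al1 : 0 < R.al 1 := by
  have h1 := R.b1
  have h2 := R.b2
  norm_num at h1 h2
  show 0 < R.b ^ 2 - (12 - 1) * R.b + 9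
  nlinarith

theorem al1' : R.al 1 < 1 / 10 := by
  have h1 := R.b1
  have h2 := R.b2
  norm_num at h1 h2
  show R.b ^ 2 - (12 - 1) * R.b + 9 < 1 / 10
  nlinarith

theorem al2 : 1 < R.al 2 := by
  have h1 := R.c1
  have h2 := R.c2
  norm_num at h1 h2
  show 1 < R.c ^ 2 - (12 - 1) * R.c + 9
  nlinarith

theorem al2' : R.al 2 < R.be 2 := by
  have h1 := R.c1
  have h2 := R.c2
  norm_num at h1 h2
  show R.c ^ 2 - (12 - 1) * R.c + 9 < R.c
  nlinarith

theorem alpos (i : Fin 3) : 0 < R.al i := by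
  have h0 := R.al0
  have h1 := R.al1
  have h2 := R.al2
  fin_cases i
  · show 0 < R.al 0
    linarith
  · exact h1
  · show 0 < R.al 2
    linarith

theorem be_lt : R.be 0 < 1 / 5 ∧ R.be 1 < 1 ∧ 1 < R.be 2 ∧ 1 / 5 < R.be 1 := by
  have h1 := R.a2
  have h2 := R.b2
  have h3 := R.c1
  have h4 := R.b1
  norm_num at h1 h2 h3 h4
  refine ⟨?_, ?_, ?_, ?_⟩
  · show R.a < 1 / 5
    linarith
  · show R.b < 1
    linarith
  · show 1 < R.c
    linarith
  · show 1 / 5 < R.b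
    linarith

/-- the matrix of multiplication by `β` -/
def B : SpecialLinearGroup (Fin 3) ℤ :=
  ⟨!![0, 0, 1; 1, 0, -11; 0, 1, 12], by simp [Matrix.det_fin_three]⟩

/-- the matrix of multiplication by `α = β² - (12 - 1)β + 9` -/
def A : SpecialLinearGroup (Fin 3) ℤ :=
  ⟨!![9, 1, 1; -11, -2, -10; 1, 1, 10], by simp [Matrix.det_fin_three]⟩

theorem comm : A * B = B * A := by
  apply Subtype.ext
  show A.1 * B.1 = B.1 * A.1
  decide

theorem B_mulVec (x : V3) : actL B x = ![x 2, x 0 - 11 * x 2, x 1 + 12 * x 2] := by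
  funext i
  fin_cases i <;>
    simp [actL, actM, B, Matrix.mulVec, dotProduct, Fin.sum_univ_three] <;> ring

theorem A_mulVec (x : V3) : actL A x = ![(9) * x 0 + x 1 + x 2, (-11) * x 0 + (-2) * x 1 + (-10) * x 2, x 0 + x 1 + (10) * x 2] := by
  funext i
  fin_cases i <;>
    simp [actL, actM, A, Matrix.mulVec, dotProduct, Fin.sum_univ_three] <;> ring

theorem LB (i : Fin 3) (x : V3) : R.L i (actL B x) = R.be i * R.L i x := by
  rw [B_mulVec, L_apply, L_apply]
  simp only [Matrix.cons_val]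
  linear_combination (-x 2) * R.root i

theorem LA (i : Fin 3) (x : V3) : R.L i (actL A x) = R.al i * R.L i x := by
  rw [A_mulVec, L_apply, L_apply, al]
  simp only [Matrix.cons_val]
  linear_combination (-x 1 - x 2 - R.be i * x 2) * R.root i

theorem ind : LinearIndependent ℝ R.L := by
  rw [Fintype.linearIndependent_iff]
  intro g hg
  have hab := R.lt_ab
  have hbc := R.lt_bc
  have h : ∀ x, g 0 * R.L 0 x + g 1 * R.L 1 x + g 2 * R.L 2 x = 0 := by
    intro x
    have := LinearMap.congr_fun hg x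
    simpa [Fin.sum_univ_three] using this
  have h0 := h ![1, 0, 0]
  have h1 := h ![0, 1, 0]
  have h2 := h ![0, 0, 1]
  simp only [L_apply, Matrix.cons_val] at h0 h1 h2
  have e0 : R.be 0 = R.a := rfl
  have e1 : R.be 1 = R.b := rfl
  have e2 : R.be 2 = R.c := rfl
  rw [e0, e1, e2] at h0 h1 h2
  have g0 : g 0 * ((R.a - R.b) * (R.a - R.c)) = 0 := by
    linear_combination h2 - (R.b + R.c) * h1 + R.b * R.c * h0
  have g1 : g 1 * ((R.b - R.a) * (R.b - R.c)) = 0 := by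
    linear_combination h2 - (R.a + R.c) * h1 + R.a * R.c * h0
  have g2 : g 2 * ((R.c - R.a) * (R.c - R.b)) = 0 := by
    linear_combination h2 - (R.a + R.b) * h1 + R.a * R.b * h0
  have d1 : R.a - R.b ≠ 0 := (sub_neg.mpr hab).ne
  have d2 : R.b - R.c ≠ 0 := (sub_neg.mpr hbc).ne
  have d3 : R.a - R.c ≠ 0 := (sub_neg.mpr (hab.trans hbc)).ne
  have d1' : R.b - R.a ≠ 0 := (sub_pos.mpr hab).ne'
  have d2' : R.c - R.b ≠ 0 := (sub_pos.mpr hbc).ne'
  have d3' : R.c - R.a ≠ 0 := (sub_pos.mpr (hab.trans hbc)).ne'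
  intro i
  fin_cases i
  · exact (mul_eq_zero.mp g0).resolve_right (mul_ne_zero d1 d3)
  · exact (mul_eq_zero.mp g1).resolve_right (mul_ne_zero d1' d2)
  · exact (mul_eq_zero.mp g2).resolve_right (mul_ne_zero d3' d2')

/-- the product of the three forms is the norm form -/
theorem prod_L (z : Fin 3 → ℤ) : ∏ i, R.L i (ic z) = (nf z : ℝ) := by
  rw [Fin.prod_univ_three, L_apply, L_apply, L_apply]
  have e0 : R.be 0 = R.a := rfl
  have e1 : R.be 1 = R.b := rfl
  have e2 : R.be 2 = R.c := rfl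
  rw [e0, e1, e2]
  have s1 := R.e1
  have s2 := R.e2
  have s3 := R.e3
  simp only [ic, nf]
  push_cast
  set x : ℝ := (z 0 : ℝ)
  set y : ℝ := (z 1 : ℝ)
  set w : ℝ := (z 2 : ℝ)
  have p2 : R.a ^ 2 + R.b ^ 2 + R.c ^ 2 = 12 ^ 2 - 2 * 11 := by
    linear_combination (R.a + R.b + R.c + 12) * s1 - 2 * s2
  have p12 : R.a * R.b ^ 2 + R.a ^ 2 * R.b + R.a * R.c ^ 2 + R.a ^ 2 * R.c + R.b * R.c ^ 2 +
      R.b ^ 2 * R.c = 12 * 11 - 3 := by
    linear_combination (R.a * R.b + R.a * R.c + R.b * R.c) * s1 + 12 * s2 - 3 * s3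
  have p22 : R.a ^ 2 * R.b ^ 2 + R.a ^ 2 * R.c ^ 2 + R.b ^ 2 * R.c ^ 2 = 11 ^ 2 - 2 * 12 := by
    linear_combination (R.a * R.b + R.a * R.c + R.b * R.c + 11) * s2 -
      2 * (R.a + R.b + R.c) * s3 - 2 * s1
  have p112 : R.a ^ 2 * R.b * R.c + R.a * R.b ^ 2 * R.c + R.a * R.b * R.c ^ 2 = 12 := by
    linear_combination (R.a + R.b + R.c) * s3 + s1
  have p122 : R.a ^ 2 * R.b ^ 2 * R.c + R.a ^ 2 * R.b * R.c ^ 2 + R.a * R.b ^ 2 * R.c ^ 2 = 11 := by
    linear_combination (R.a * R.b + R.a * R.c + R.b * R.c) * s3 + s2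
  have p222 : R.a ^ 2 * R.b ^ 2 * R.c ^ 2 = 1 := by
    linear_combination (R.a * R.b * R.c + 1) * s3
  linear_combination x ^ 2 * y * s1 + x ^ 2 * w * p2 + x * y ^ 2 * s2 + x * y * w * p12 +
    x * w ^ 2 * p22 + y ^ 3 * s3 + y ^ 2 * w * p112 + y * w ^ 2 * p122 + w ^ 3 * p222

theorem norm_ge (z : Fin 3 → ℤ) (hz : z ≠ 0) : 1 ≤ |∏ i, R.L i (ic z)| := by
  rw [R.prod_L z]
  have h1 := nf_ne_zero hz
  have h2 : 1 ≤ |nf z| := Int.one_le_abs h1
  exact_mod_cast h2

theorem irr (z : Fin 3 → ℤ) (hz : z ≠ 0) (i : Fin 3) : R.L i (ic z) ≠ 0 := by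
  intro h
  have h1 := R.norm_ge z hz
  rw [Finset.prod_eq_zero (Finset.mem_univ i) h, abs_zero] at h1
  linarith

/-- dual coordinates of a covector -/
noncomputable def dual (f0 f1 f2 : ℝ) : Fin 3 → ℝ :=
  ![(f2 - (R.b + R.c) * f1 + R.b * R.c * f0) / ((R.a - R.b) * (R.a - R.c)),
    (f2 - (R.a + R.c) * f1 + R.a * R.c * f0) / ((R.b - R.a) * (R.b - R.c)),
    (f2 - (R.a + R.b) * f1 + R.a * R.b * f0) / ((R.c - R.a) * (R.c - R.b))]

theorem dual_eq (f0 f1 f2 : ℝ) (x : V3) :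
    f0 * x 0 + f1 * x 1 + f2 * x 2 = ∑ i, R.dual f0 f1 f2 i * R.L i x := by
  have hab := R.lt_ab
  have hbc := R.lt_bc
  have d1 : R.a - R.b ≠ 0 := (sub_neg.mpr hab).ne
  have d2 : R.b - R.c ≠ 0 := (sub_neg.mpr hbc).ne
  have d3 : R.a - R.c ≠ 0 := (sub_neg.mpr (hab.trans hbc)).ne
  have d1' : R.b - R.a ≠ 0 := (sub_pos.mpr hab).ne'
  have d2' : R.c - R.b ≠ 0 := (sub_pos.mpr hbc).ne'
  have d3' : R.c - R.a ≠ 0 := (sub_pos.mpr (hab.trans hbc)).ne'
  rw [Fin.sum_univ_three, L_apply, L_apply, L_apply]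
  have e0 : R.be 0 = R.a := rfl
  have e1 : R.be 1 = R.b := rfl
  have e2 : R.be 2 = R.c := rfl
  rw [e0, e1, e2]
  simp only [dual, Matrix.cons_val]
  have r1 : R.b - R.a = -(R.a - R.b) := by ring
  have r2 : R.c - R.b = -(R.b - R.c) := by ring
  have r3 : R.c - R.a = -(R.a - R.c) := by ring
  rw [r1, r2, r3]
  field_simp
  ring

theorem dual_pos {f0 f1 f2 : ℝ} (h0 : 0 < f2 - (R.b + R.c) * f1 + R.b * R.c * f0)
    (h1 : f2 - (R.a + R.c) * f1 + R.a * R.c * f0 < 0)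
    (h2 : 0 < f2 - (R.a + R.b) * f1 + R.a * R.b * f0) (i : Fin 3) : 0 < R.dual f0 f1 f2 i := by
  have hab := R.lt_ab
  have hbc := R.lt_bc
  have d1 : R.a - R.b < 0 := sub_neg.mpr hab
  have d2 : R.b - R.c < 0 := sub_neg.mpr hbc
  have d3 : R.a - R.c < 0 := sub_neg.mpr (hab.trans hbc)
  have d1' : 0 < R.b - R.a := sub_pos.mpr hab
  have d2' : 0 < R.c - R.b := sub_pos.mpr hbc
  have d3' : 0 < R.c - R.a := sub_pos.mpr (hab.trans hbc)
  fin_cases i
  · exact div_pos h0 (mul_pos_of_neg_of_neg d1 d3)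
  · exact div_pos_of_neg_of_neg h1 (mul_neg_of_pos_of_neg d1' d2)
  · exact div_pos h2 (mul_pos d3' d2')

theorem boundsU : 0 < 3 - (R.b + R.c) * 1 + R.b * R.c * 1 ∧
    3 - (R.a + R.c) * 1 + R.a * R.c * 1 < 0 ∧
    0 < (3 : ℝ) - (R.a + R.b) * 1 + R.a * R.b * 1 := by
  have a1 := R.a1
  have a2 := R.a2
  have b1 := R.b1
  have b2 := R.b2
  have c1 := R.c1
  have c2 := R.c2
  norm_num at a1 a2 b1 b2 c1 c2
  refine ⟨?_, ?_, ?_⟩
  · nlinarith [mul_pos (sub_pos.mpr b1) (sub_pos.mpr c1)]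
  · nlinarith [mul_pos (sub_pos.mpr a2) (sub_pos.mpr c1)]
  · nlinarith [mul_pos (sub_pos.mpr a1) (sub_pos.mpr b1)]

theorem boundsD : 0 < 15 - (R.b + R.c) * 8 + R.b * R.c * 9 ∧
    15 - (R.a + R.c) * 8 + R.a * R.c * 9 < 0 ∧
    0 < (15 : ℝ) - (R.a + R.b) * 8 + R.a * R.b * 9 := by
  have a1 := R.a1
  have a2 := R.a2
  have b1 := R.b1
  have b2 := R.b2
  have c1 := R.c1
  have c2 := R.c2
  norm_num at a1 a2 b1 b2 c1 c2
  refine ⟨?_, ?_, ?_⟩
  · nlinarith [mul_pos (sub_pos.mpr b1) (sub_pos.mpr c1)]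
  · nlinarith [mul_pos (sub_pos.mpr a2) (sub_pos.mpr c1)]
  · nlinarith [mul_pos (sub_pos.mpr a1) (sub_pos.mpr b1)]

theorem covU (x : V3) : cov (ic ![1, 1, 3]) x = ∑ i, R.dual 1 1 3 i * R.L i x := by
  rw [← R.dual_eq, cov_apply]
  simp [Fin.sum_univ_three, ic]

theorem covD (x : V3) : cov (ic ![9, 8, 15]) x = ∑ i, R.dual 9 8 15 i * R.L i x := by
  rw [← R.dual_eq, cov_apply]
  simp [Fin.sum_univ_three, ic]

theorem dualU_pos (i : Fin 3) : 0 < R.dual 1 1 3 i :=
  R.dual_pos R.boundsU.1 R.boundsU.2.1 R.boundsU.2.2 i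

theorem dualD_pos (i : Fin 3) : 0 < R.dual 9 8 15 i :=
  R.dual_pos R.boundsD.1 R.boundsD.2.1 R.boundsD.2.2 i

theorem posU {x : V3} (hx : ∀ i, 0 < R.L i x) : 0 < x 0 + x 1 + 3 * x 2 := by
  have h1 : 0 < ∑ i, R.dual 1 1 3 i * R.L i x :=
    Finset.sum_pos (fun i _ => mul_pos (R.dualU_pos i) (hx i)) Finset.univ_nonempty
  rw [← R.dual_eq] at h1
  linarith

theorem posD {x : V3} (hx : ∀ i, 0 < R.L i x) : 0 < 9 * x 0 + 8 * x 1 + 15 * x 2 := by
  have h1 : 0 < ∑ i, R.dual 9 8 15 i * R.L i x :=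
    Finset.sum_pos (fun i _ => mul_pos (R.dualD_pos i) (hx i)) Finset.univ_nonempty
  rw [← R.dual_eq] at h1
  linarith

theorem L_inv {g : SpecialLinearGroup (Fin 3) ℤ} {c : Fin 3 → ℝ} (hc : ∀ i, 0 < c i)
    (h : ∀ i x, R.L i (actL g x) = c i * R.L i x) {x : V3} (hx : ∀ i, 0 < R.L i x) (i : Fin 3) :
    0 < R.L i (actL g⁻¹ x) := by
  have h1 := h i (actL g⁻¹ x)
  rw [actL_self_inv] at h1
  have h2 := hx i
  rw [h1] at h2
  exact (mul_pos_iff_of_pos_left (hc i)).mp h2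

theorem Binv_mulVec (x : V3) : actL B⁻¹ x = ![11 * x 0 + x 1, -12 * x 0 + x 2, x 0] := by
  have h1 : actL B ![11 * x 0 + x 1, -12 * x 0 + x 2, x 0] = x := by
    rw [B_mulVec]
    funext i
    fin_cases i <;> simp
  conv_lhs => rw [← h1, actL_inv_self]

theorem Ainv_mulVec (x : V3) : actL A⁻¹ x = ![(-10) * x 0 + (-9) * x 1 + (-8) * x 2, (100) * x 0 + (89) * x 1 + (79) * x 2, (-9) * x 0 + (-8) * x 1 + (-7) * x 2] := by
  have h1 : actL A ![(-10) * x 0 + (-9) * x 1 + (-8) * x 2, (100) * x 0 + (89) * x 1 + (79) * x 2, (-9) * x 0 + (-8) * x 1 + (-7) * x 2] = x := by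
    rw [A_mulVec]
    funext i
    fin_cases i <;> simp <;> ring
  conv_lhs => rw [← h1, actL_inv_self]

theorem minD_aux (z : Fin 3 → ℤ) (hz : ∀ i, 0 < R.L i (ic z)) :
    8 ≤ 9 * z 0 + 8 * z 1 + 15 * z 2 ∧ (9 * z 0 + 8 * z 1 + 15 * z 2 = 8 →
      (z 0 = 9 ∧ z 1 = -(12 - 1) ∧ z 2 = 1) ∨ (z 0 = 0 ∧ z 1 = 1 ∧ z 2 = 0) ∨
      (z 0 = 1 ∧ z 1 = -2 ∧ z 2 = 1)) := by
  have h0 := R.posU hz
  have h1 := R.posU (R.L_inv R.alpos R.LA hz)
  have h2 := R.posU (R.L_inv R.bepos R.LB hz)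
  rw [Ainv_mulVec] at h1
  rw [Binv_mulVec] at h2
  simp only [ic, Matrix.cons_val] at h0 h1 h2
  have k0 : 0 < z 0 + z 1 + 3 * z 2 := by exact_mod_cast h0
  have k1 : 0 < ((-10) * z 0 + (-9) * z 1 + (-8) * z 2) + ((100) * z 0 + (89) * z 1 + (79) * z 2) + 3 * ((-9) * z 0 + (-8) * z 1 + (-7) * z 2) := by exact_mod_cast h1
  have k2 : 0 < (11 * z 0 + z 1) + (-12 * z 0 + z 2) + 3 * z 0 := by exact_mod_cast h2
  constructor
  · omega
  · intro h
    have hm : 0 ≤ 1 - z 2 := by linarith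
    have hn : 0 ≤ 1 * (z 0 - 9) + 1 * (z 1 + (12 - 1)) + 3 * (z 2 - 1) := by linarith
    have hmn : (1 - z 2) + (1 * (z 0 - 9) + 1 * (z 1 + (12 - 1)) + 3 * (z 2 - 1)) ≤ 1 := by
      linarith
    rcases (show 1 - z 2 = 0 ∨ 1 - z 2 = 1 by omega) with h3 | h3
    · rcases (show 1 * (z 0 - 9) + 1 * (z 1 + (12 - 1)) + 3 * (z 2 - 1) = 0 ∨
        1 * (z 0 - 9) + 1 * (z 1 + (12 - 1)) + 3 * (z 2 - 1) = 1 by omega) with h4 | h4
      · omega
      · omega
    · have h4 : 1 * (z 0 - 9) + 1 * (z 1 + (12 - 1)) + 3 * (z 2 - 1) = 0 := by omega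
      omega

theorem minU_aux (z : Fin 3 → ℤ) (hz : ∀ i, 0 < R.L i (ic z)) (h : z 0 + z 1 + 3 * z 2 = 1) :
    (z 0 = 1 ∧ z 1 = 0 ∧ z 2 = 0) ∨ (z 0 = 9 ∧ z 1 = -(12 - 1) ∧ z 2 = 1) ∨
      (z 0 = 0 ∧ z 1 = 1 ∧ z 2 = 0) := by
  have h0 := (R.minD_aux z hz).1
  have hA : ∀ i, 0 < R.L i (actL A (ic z)) := fun i => by
    rw [LA]
    exact mul_pos (R.alpos i) (hz i)
  have hB : ∀ i, 0 < R.L i (actL B (ic z)) := fun i => by
    rw [LB]
    exact mul_pos (R.bepos i) (hz i)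
  rw [actL_ic] at hA hB
  have h1 := (R.minD_aux _ hA).1
  have h2 := (R.minD_aux _ hB).1
  simp [A, B, Matrix.mulVec, dotProduct, Fin.sum_univ_three] at h1 h2
  omega

theorem Av : A.1.mulVec ![1, 0, 0] = ![9, -(12 - 1), 1] := by
  funext i
  fin_cases i <;> rfl

theorem Bv : B.1.mulVec ![1, 0, 0] = ![0, 1, 0] := by
  funext i
  fin_cases i <;> rfl

theorem ABv : (A * B).1.mulVec ![1, 0, 0] = ![1, -2, 1] := by
  have h1 : (A * B).1 = A.1 * B.1 := rfl
  rw [h1, ← Matrix.mulVec_mulVec, Bv]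
  funext i
  fin_cases i <;> rfl

theorem charpoly_B : B.1.charpoly = Polynomial.X ^ 3 + (Polynomial.C (-12) * Polynomial.X ^ 2 +
    Polynomial.C 11 * Polynomial.X + Polynomial.C (-1)) := by
  rw [B, Matrix.charpoly, Matrix.det_fin_three]
  simp
  ring

theorem irreducible_B : Irreducible (B.1.charpoly.map (Int.castRingHom ℚ)) := by
  rw [charpoly_B]
  have hmon : (Polynomial.X ^ 3 + (Polynomial.C (-12) * Polynomial.X ^ 2 +
      Polynomial.C 11 * Polynomial.X + Polynomial.C (-1)) : Polynomial ℤ).Monic := by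
    apply Polynomial.monic_X_pow_add
    exact lt_of_le_of_lt (by compute_degree) (by norm_num : (2 : WithBot ℕ) < 3)
  have hdeg : (Polynomial.X ^ 3 + (Polynomial.C (-12) * Polynomial.X ^ 2 +
      Polynomial.C 11 * Polynomial.X + Polynomial.C (-1)) : Polynomial ℤ).natDegree = 3 := by
    compute_degree!
  apply Polynomial.irreducible_of_degree_le_three_of_not_isRoot
  · rw [hmon.natDegree_map, hdeg]
    simp
  · intro r hr
    have hr' : Polynomial.aeval r (Polynomial.X ^ 3 + (Polynomial.C (-12) * Polynomial.X ^ 2 +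
        Polynomial.C 11 * Polynomial.X + Polynomial.C (-1)) : Polynomial ℤ) = 0 := by
      rw [Polynomial.IsRoot.def, Polynomial.eval_map] at hr
      rw [Polynomial.aeval_def]
      exact hr
    obtain ⟨n, hn⟩ := isInteger_of_is_root_of_monic hmon hr'
    rw [← hn] at hr'
    simp only [map_add, map_mul, map_pow, Polynomial.aeval_X, Polynomial.aeval_C] at hr'
    simp only [algebraMap_int_eq, eq_intCast] at hr'
    have h3 : n ^ 3 - 12 * n ^ 2 + 11 * n - 1 = 0 := by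
      have h2 : ((n ^ 3 - 12 * n ^ 2 + 11 * n - 1 : ℤ) : ℚ) = 0 := by
        rw [← hr']
        push_cast
        ring
      exact_mod_cast h2
    have h4 : n * (n ^ 2 - 12 * n + 11) = 1 := by linarith
    rcases Int.eq_one_or_neg_one_of_mul_eq_one h4 with h | h
    · rw [h] at h3
      norm_num at h3
    · rw [h] at h3
      norm_num at h3

/-- the system -/
noncomputable def sys : Sys where
  A := A
  B := B
  comm := comm
  L := R.L
  ind := R.ind
  al := R.al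
  be := R.be
  alpos := R.alpos
  bepos := R.bepos
  LA := R.LA
  LB := R.LB
  v := ![1, 0, 0]
  Lv i := by simp [L_apply, ic]
  irr z hz i := R.irr z hz i
  fU := ![1, 1, 3]
  fD := ![9, 8, 15]
  d := 8
  dpos := by norm_num
  cU := R.dual 1 1 3
  cD := R.dual 9 8 15
  cUpos := R.dualU_pos
  cDpos := R.dualD_pos
  fUc := R.covU
  fDc := R.covD
  fU0 := by simp [Fin.sum_univ_three]
  fU1 := by rw [Av]; simp [Fin.sum_univ_three]
  fU2 := by rw [Bv]; simp [Fin.sum_univ_three]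
  fD0 := by rw [Av]; simp [Fin.sum_univ_three]
  fD1 := by rw [Bv]; simp [Fin.sum_univ_three]
  fD2 := by rw [ABv]; simp [Fin.sum_univ_three]
  minU z hz h := by
    rw [Av, Bv]
    have h1 : z 0 + z 1 + 3 * z 2 = 1 := by
      simpa [Fin.sum_univ_three] using h
    rcases R.minU_aux z hz h1 with h | h | h
    · left
      funext i
      fin_cases i
      · exact h.1
      · exact h.2.1
      · exact h.2.2
    · right; left
      funext i
      fin_cases i
      · exact h.1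
      · exact h.2.1
      · exact h.2.2
    · right; right
      funext i
      fin_cases i
      · exact h.1
      · exact h.2.1
      · exact h.2.2
  minD z hz := by
    rw [Av, Bv, ABv]
    have e : ∑ k, (![9, 8, 15] : Fin 3 → ℤ) k * z k = 9 * z 0 + 8 * z 1 + 15 * z 2 := by
      simp [Fin.sum_univ_three]
    rw [e]
    obtain ⟨h1, h2⟩ := R.minD_aux z hz
    refine ⟨h1, fun h => ?_⟩
    rcases h2 h with h | h | h
    · left
      funext i
      fin_cases i
      · exact h.1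
      · exact h.2.1
      · exact h.2.2
    · right; left
      funext i
      fin_cases i
      · exact h.1
      · exact h.2.1
      · exact h.2.2
    · right; right
      funext i
      fin_cases i
      · exact h.1
      · exact h.2.1
      · exact h.2.2
  contr i := by
    obtain ⟨b0, b1, b2, b1'⟩ := R.be_lt
    have a0 := R.al0
    have a1 := R.al1
    have a1' := R.al1'
    have a2 := R.al2
    have a2' := R.al2'
    fin_cases i
    · refine ⟨1, -1, fun j hj => ?_⟩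
      fin_cases j
      · exact absurd rfl hj
      · show R.al 1 ^ (1 : ℤ) * R.be 1 ^ (-1 : ℤ) < 1
        rw [zpow_one, _root_.zpow_neg_one, ← div_eq_mul_inv, div_lt_one (R.bepos 1)]
        linarith
      · show R.al 2 ^ (1 : ℤ) * R.be 2 ^ (-1 : ℤ) < 1
        rw [zpow_one, _root_.zpow_neg_one, ← div_eq_mul_inv, div_lt_one (R.bepos 2)]
        exact a2'
    · refine ⟨-1, 0, fun j hj => ?_⟩
      fin_cases j
      · show R.al 0 ^ (-1 : ℤ) * R.be 0 ^ (0 : ℤ) < 1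
        rw [zpow_zero, mul_one, _root_.zpow_neg_one]
        exact inv_lt_one_of_one_lt₀ a0
      · exact absurd rfl hj
      · show R.al 2 ^ (-1 : ℤ) * R.be 2 ^ (0 : ℤ) < 1
        rw [zpow_zero, mul_one, _root_.zpow_neg_one]
        exact inv_lt_one_of_one_lt₀ a2
    · refine ⟨0, 1, fun j hj => ?_⟩
      fin_cases j
      · show R.al 0 ^ (0 : ℤ) * R.be 0 ^ (1 : ℤ) < 1
        rw [zpow_zero, one_mul, zpow_one]
        linarith
      · show R.al 1 ^ (0 : ℤ) * R.be 1 ^ (1 : ℤ) < 1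
        rw [zpow_zero, one_mul, zpow_one]
        linarith
      · exact absurd rfl hj
  mind m n h := by
    obtain ⟨b0, b1, b2, b1'⟩ := R.be_lt
    have a0 := R.al0
    have a2 := R.al2
    have h0 := h 0
    have h2 := h 2
    have hb0 : R.be 0 < 1 := by linarith
    have hb0' := R.bepos 0
    rcases lt_trichotomy m 0 with hm | hm | hm
    · exfalso
      have e2 : R.al 2 ^ m < 1 := zpow_lt_one_of_neg₀ a2 hm
      have e0 : R.al 0 ^ m < 1 := zpow_lt_one_of_neg₀ a0 hm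
      have p2 : 0 < R.al 2 ^ m := zpow_pos (R.alpos 2) m
      have p0 : 0 < R.al 0 ^ m := zpow_pos (R.alpos 0) m
      have hn : 0 < n := by
        by_contra hn
        push Not at hn
        have e3 : R.be 2 ^ n ≤ 1 := zpow_le_one_of_nonpos₀ b2.le hn
        have p3 : 0 < R.be 2 ^ n := zpow_pos (R.bepos 2) n
        nlinarith
      have e4 : R.be 0 ^ n < 1 := zpow_lt_one₀ hb0' hb0 hn
      have p4 : 0 < R.be 0 ^ n := zpow_pos (R.bepos 0) n
      nlinarith
    · subst hm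
      refine ⟨rfl, ?_⟩
      rw [zpow_zero, one_mul] at h2
      rcases lt_trichotomy n 0 with hn | hn | hn
      · have := zpow_lt_one_of_neg₀ b2 hn
        linarith
      · exact hn
      · have := one_lt_zpow₀ b2 hn
        linarith
    · exfalso
      have e2 : 1 < R.al 2 ^ m := one_lt_zpow₀ a2 hm
      have e0 : 1 < R.al 0 ^ m := one_lt_zpow₀ a0 hm
      have hn : n < 0 := by
        by_contra hn
        push Not at hn
        have e3 : 1 ≤ R.be 2 ^ n := one_le_zpow₀ b2.le hn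
        nlinarith
      have e4 : 1 < R.be 0 ^ n := one_lt_zpow_of_neg₀ hb0' hb0 hn
      nlinarith
  basU := by
    rw [Av, Bv, Fintype.linearIndependent_iff]
    intro g hg
    have h0 := congrFun hg 0
    have h1 := congrFun hg 1
    have h2 := congrFun hg 2
    simp [Fin.sum_univ_three, ic] at h0 h1 h2
    have g1 : g 1 = 0 := by linarith
    have g0 : g 0 = 0 := by rw [g1] at h0; linarith
    have g2 : g 2 = 0 := by rw [g1] at h1; linarith
    intro i
    fin_cases i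
    · exact g0
    · exact g1
    · exact g2
  basD := by
    rw [Av, Bv, ABv, Fintype.linearIndependent_iff]
    intro g hg
    have h0 := congrFun hg 0
    have h1 := congrFun hg 1
    have h2 := congrFun hg 2
    simp [Fin.sum_univ_three, ic] at h0 h1 h2
    have g0 : g 0 = 0 := by linarith
    have g2 : g 2 = 0 := by linarith
    have g1 : g 1 = 0 := by rw [g0, g2] at h1; linarith
    intro i
    fin_cases i
    · exact g0
    · exact g1
    · exact g2
  uniU z h := by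
    rw [Av, Bv]
    have h1 : z 0 + z 1 + 3 * z 2 = 0 := by
      simpa [Fin.sum_univ_three] using h
    refine ⟨z 2, z 1 + (12 - 1) * z 2, ?_⟩
    funext i
    fin_cases i <;> simp <;> linarith
  uniD z h := by
    rw [Av, Bv, ABv]
    have h1 : 9 * z 0 + 8 * z 1 + 15 * z 2 = 0 := by
      simpa [Fin.sum_univ_three] using h
    refine ⟨- z 2, 1 * z 0 + 1 * z 1 + 3 * z 2, ?_⟩
    funext i
    fin_cases i <;> simp <;> linarith
  primU d hd := by
    have := hd 0
    simpa using isUnit_of_dvd_one this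
  primD d hd := by
    have h0 : d ∣ 9 := hd 0
    have h1 : d ∣ 8 := hd 1
    have h2 : d ∣ 1 := by
      have := dvd_add (Dvd.dvd.mul_left h0 (1)) (Dvd.dvd.mul_left h1 (-1))
      simpa using this
    exact isUnit_of_dvd_one h2

end Roots

end ExOne

namespace ExTwo

/-- the cubic norm form of the lattice `ℤ[β]` -/
def nf (z : Fin 3 → ℤ) : ℤ :=
  z 0 ^ 3 + 25 * (z 0 ^ 2 * z 1) + (25 ^ 2 - 2 * 12) * (z 0 ^ 2 * z 2) + 12 * (z 0 * z 1 ^ 2) +
    (25 * 12 - 3) * (z 0 * z 1 * z 2) + (12 ^ 2 - 2 * 25) * (z 0 * z 2 ^ 2) + z 1 ^ 3 +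
    25 * (z 1 ^ 2 * z 2) + 12 * (z 1 * z 2 ^ 2) + z 2 ^ 3

theorem nf_aniso : ∀ a b c : ZMod 2,
    a ^ 3 + 25 * (a ^ 2 * b) + (25 ^ 2 - 2 * 12) * (a ^ 2 * c) + 12 * (a * b ^ 2) +
    (25 * 12 - 3) * (a * b * c) + (12 ^ 2 - 2 * 25) * (a * c ^ 2) + b ^ 3 +
    25 * (b ^ 2 * c) + 12 * (b * c ^ 2) + c ^ 3 = 0 → a = 0 ∧ b = 0 ∧ c = 0 := by
  decide

theorem nf_dvd {z : Fin 3 → ℤ} (h : (2 : ℤ) ∣ nf z) : ∀ i, (2 : ℤ) ∣ z i := by
  have h1 : ((nf z : ℤ) : ZMod 2) = 0 := (ZMod.intCast_zmod_eq_zero_iff_dvd _ _).mpr h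
  unfold nf at h1
  push_cast at h1
  obtain ⟨ha, hb, hc⟩ := nf_aniso _ _ _ h1
  intro i
  fin_cases i
  · exact (ZMod.intCast_zmod_eq_zero_iff_dvd _ _).mp ha
  · exact (ZMod.intCast_zmod_eq_zero_iff_dvd _ _).mp hb
  · exact (ZMod.intCast_zmod_eq_zero_iff_dvd _ _).mp hc

theorem nf_ne_zero {z : Fin 3 → ℤ} (hz : z ≠ 0) : nf z ≠ 0 := by
  have key : ∀ n : ℕ, ∀ z : Fin 3 → ℤ, (z 0).natAbs + (z 1).natAbs + (z 2).natAbs = n → nf z = 0 →
      z = 0 := by
    intro n
    induction n using Nat.strong_induction_on with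
    | _ n ih =>
      intro z hn hz0
      have hd : ∀ i, (2 : ℤ) ∣ z i := nf_dvd (by rw [hz0]; exact dvd_zero _)
      choose y hy using hd
      have h1 : nf y = 0 := by
        have h2 : nf z = 2 ^ 3 * nf y := by
          unfold nf
          rw [hy 0, hy 1, hy 2]
          ring
        rw [hz0] at h2
        omega
      by_cases hy0 : y = 0
      · funext i
        rw [hy i, hy0]
        simp
      · have h3 : (y 0).natAbs + (y 1).natAbs + (y 2).natAbs < n := by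
          have h4 : y 0 ≠ 0 ∨ y 1 ≠ 0 ∨ y 2 ≠ 0 := by
            by_contra hcon
            push Not at hcon
            apply hy0
            funext i
            fin_cases i
            · exact hcon.1
            · exact hcon.2.1
            · exact hcon.2.2
          have e0 := hy 0
          have e1 := hy 1
          have e2 := hy 2
          omega
        exact absurd (ih _ h3 y rfl h1) hy0
  exact fun h => hz (key _ z rfl h)

/-- the three roots of `x³ - 25x² + 12x - 1` -/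
structure Roots where
  a : ℝ
  b : ℝ
  c : ℝ
  ha : a ^ 3 - 25 * a ^ 2 + 12 * a - 1 = 0
  hb : b ^ 3 - 25 * b ^ 2 + 12 * b - 1 = 0
  hc : c ^ 3 - 25 * c ^ 2 + 12 * c - 1 = 0
  a1 : 107 / 1000 < a
  a2 : a < 1072 / 10000
  b1 : 3807 / 10000 < b
  b2 : b < 3808 / 10000
  c1 : 2451 / 100 < c
  c2 : c < 2452 / 100

theorem exists_roots : Nonempty Roots := by
  have hcont : Continuous fun x : ℝ => x ^ 3 - 25 * x ^ 2 + 12 * x - 1 := by fun_prop
  obtain ⟨a, ha, ea⟩ : (0 : ℝ) ∈ (fun x : ℝ => x ^ 3 - 25 * x ^ 2 + 12 * x - 1) '' Set.Ioo (107 / 1000) (1072 / 10000) :=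
    intermediate_value_Ioo (by norm_num) hcont.continuousOn (by constructor <;> norm_num)
  obtain ⟨b, hb, eb⟩ : (0 : ℝ) ∈ (fun x : ℝ => x ^ 3 - 25 * x ^ 2 + 12 * x - 1) '' Set.Ioo (3807 / 10000) (3808 / 10000) :=
    intermediate_value_Ioo' (by norm_num) hcont.continuousOn (by constructor <;> norm_num)
  obtain ⟨c, hc, ec⟩ : (0 : ℝ) ∈ (fun x : ℝ => x ^ 3 - 25 * x ^ 2 + 12 * x - 1) '' Set.Ioo (2451 / 100) (2452 / 100) :=
    intermediate_value_Ioo (by norm_num) hcont.continuousOn (by constructor <;> norm_num)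
  exact ⟨⟨a, b, c, ea, eb, ec, ha.1, ha.2, hb.1, hb.2, hc.1, hc.2⟩⟩

namespace Roots

variable (R : Roots)

theorem lt_ab : R.a < R.b := by
  have h1 := R.a2
  have h2 := R.b1
  norm_num at h1 h2
  linarith

theorem lt_bc : R.b < R.c := by
  have h1 := R.b2
  have h2 := R.c1
  norm_num at h1 h2
  linarith

theorem e1 : R.a + R.b + R.c = 25 := by
  have hab := R.lt_ab
  have hbc := R.lt_bc
  have h1 : R.a ^ 2 + R.a * R.b + R.b ^ 2 - 25 * (R.a + R.b) + 12 = 0 := by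
    have : (R.a - R.b) * (R.a ^ 2 + R.a * R.b + R.b ^ 2 - 25 * (R.a + R.b) + 12) = 0 := by
      linear_combination R.ha - R.hb
    rcases mul_eq_zero.mp this with h | h
    · linarith
    · exact h
  have h2 : R.b ^ 2 + R.b * R.c + R.c ^ 2 - 25 * (R.b + R.c) + 12 = 0 := by
    have : (R.b - R.c) * (R.b ^ 2 + R.b * R.c + R.c ^ 2 - 25 * (R.b + R.c) + 12) = 0 := by
      linear_combination R.hb - R.hc
    rcases mul_eq_zero.mp this with h | h
    · linarith
    · exact h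
  have h3 : (R.a - R.c) * (R.a + R.b + R.c - 25) = 0 := by
    linear_combination h1 - h2
  rcases mul_eq_zero.mp h3 with h | h
  · linarith
  · linarith

theorem e2 : R.a * R.b + R.a * R.c + R.b * R.c = 12 := by
  have hab := R.lt_ab
  have h1 : R.a ^ 2 + R.a * R.b + R.b ^ 2 - 25 * (R.a + R.b) + 12 = 0 := by
    have : (R.a - R.b) * (R.a ^ 2 + R.a * R.b + R.b ^ 2 - 25 * (R.a + R.b) + 12) = 0 := by
      linear_combination R.ha - R.hb
    rcases mul_eq_zero.mp this with h | h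
    · linarith
    · exact h
  have h2 := R.e1
  have h3 : R.c = 25 - R.a - R.b := by linarith
  rw [h3]
  linear_combination (-1 : ℝ) * h1

theorem e3 : R.a * R.b * R.c = 1 := by
  have h1 := R.e1
  have h2 := R.e2
  have h3 : R.b + R.c = 25 - R.a := by linarith
  have h4 : R.b * R.c = 12 - R.a * (25 - R.a) := by
    rw [← h3]
    linarith
  have h5 : R.a * R.b * R.c = R.a * (R.b * R.c) := by ring
  rw [h5, h4]
  linear_combination R.ha

/-- the linear forms -/
noncomputable def L (i : Fin 3) : V3 →ₗ[ℝ] ℝ :=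
  cov ![1, ![R.a, R.b, R.c] i, ![R.a, R.b, R.c] i ^ 2]

noncomputable def be (i : Fin 3) : ℝ := ![R.a, R.b, R.c] i

theorem L_apply (i : Fin 3) (x : V3) : R.L i x = x 0 + R.be i * x 1 + R.be i ^ 2 * x 2 := by
  simp [L, be, cov_apply, Fin.sum_univ_three]

noncomputable def al (i : Fin 3) : ℝ := R.be i ^ 2 - (25 - 1) * R.be i + 9

theorem root (i : Fin 3) : R.be i ^ 3 - 25 * R.be i ^ 2 + 12 * R.be i - 1 = 0 := by
  fin_cases i
  · exact R.ha
  · exact R.hb
  · exact R.hc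

theorem bepos (i : Fin 3) : 0 < R.be i := by
  have h1 := R.a1
  have h2 := R.b1
  have h3 := R.c1
  norm_num at h1 h2 h3
  fin_cases i
  · show 0 < R.a
    linarith
  · show 0 < R.b
    linarith
  · show 0 < R.c
    linarith

theorem al0 : 1 < R.al 0 := by
  have h1 := R.a1
  have h2 := R.a2
  norm_num at h1 h2
  show 1 < R.a ^ 2 - (25 - 1) * R.a + 9
  nlinarith

theorem al1 : 0 < R.al 1 := by
  have h1 := R.b1
  have h2 := R.b2
  norm_num at h1 h2
  show 0 < R.b ^ 2 - (25 - 1) * R.b + 9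
  nlinarith

theorem al1' : R.al 1 < 1 / 10 := by
  have h1 := R.b1
  have h2 := R.b2
  norm_num at h1 h2
  show R.b ^ 2 - (25 - 1) * R.b + 9 < 1 / 10
  nlinarith

theorem al2 : 1 < R.al 2 := by
  have h1 := R.c1
  have h2 := R.c2
  norm_num at h1 h2
  show 1 < R.c ^ 2 - (25 - 1) * R.c + 9
  nlinarith

theorem al2' : R.al 2 < R.be 2 := by
  have h1 := R.c1
  have h2 := R.c2
  norm_num at h1 h2
  show R.c ^ 2 - (25 - 1) * R.c + 9 < R.c
  nlinarith

theorem alpos (i : Fin 3) : 0 < R.al i := by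
  have h0 := R.al0
  have h1 := R.al1
  have h2 := R.al2
  fin_cases i
  · show 0 < R.al 0
    linarith
  · exact h1
  · show 0 < R.al 2
    linarith

theorem be_lt : R.be 0 < 1 / 5 ∧ R.be 1 < 1 ∧ 1 < R.be 2 ∧ 1 / 5 < R.be 1 := by
  have h1 := R.a2
  have h2 := R.b2
  have h3 := R.c1
  have h4 := R.b1
  norm_num at h1 h2 h3 h4
  refine ⟨?_, ?_, ?_, ?_⟩
  · show R.a < 1 / 5
    linarith
  · show R.b < 1
    linarith
  · show 1 < R.c
    linarith
  · show 1 / 5 < R.b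
    linarith

/-- the matrix of multiplication by `β` -/
def B : SpecialLinearGroup (Fin 3) ℤ :=
  ⟨!![0, 0, 1; 1, 0, -12; 0, 1, 25], by simp [Matrix.det_fin_three]⟩

/-- the matrix of multiplication by `α = β² - (25 - 1)β + 9` -/
def A : SpecialLinearGroup (Fin 3) ℤ :=
  ⟨!![9, 1, 1; -24, -3, -11; 1, 1, 22], by simp [Matrix.det_fin_three]⟩

theorem comm : A * B = B * A := by
  apply Subtype.ext
  show A.1 * B.1 = B.1 * A.1
  decide

theorem B_mulVec (x : V3) : actL B x = ![x 2, x 0 - 12 * x 2, x 1 + 25 * x 2] := by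
  funext i
  fin_cases i <;>
    simp [actL, actM, B, Matrix.mulVec, dotProduct, Fin.sum_univ_three] <;> ring

theorem A_mulVec (x : V3) : actL A x = ![(9) * x 0 + x 1 + x 2, (-24) * x 0 + (-3) * x 1 + (-11) * x 2, x 0 + x 1 + (22) * x 2] := by
  funext i
  fin_cases i <;>
    simp [actL, actM, A, Matrix.mulVec, dotProduct, Fin.sum_univ_three] <;> ring

theorem LB (i : Fin 3) (x : V3) : R.L i (actL B x) = R.be i * R.L i x := by
  rw [B_mulVec, L_apply, L_apply]
  simp only [Matrix.cons_val]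
  linear_combination (-x 2) * R.root i

theorem LA (i : Fin 3) (x : V3) : R.L i (actL A x) = R.al i * R.L i x := by
  rw [A_mulVec, L_apply, L_apply, al]
  simp only [Matrix.cons_val]
  linear_combination (-x 1 - x 2 - R.be i * x 2) * R.root i

theorem ind : LinearIndependent ℝ R.L := by
  rw [Fintype.linearIndependent_iff]
  intro g hg
  have hab := R.lt_ab
  have hbc := R.lt_bc
  have h : ∀ x, g 0 * R.L 0 x + g 1 * R.L 1 x + g 2 * R.L 2 x = 0 := by
    intro x
    have := LinearMap.congr_fun hg x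
    simpa [Fin.sum_univ_three] using this
  have h0 := h ![1, 0, 0]
  have h1 := h ![0, 1, 0]
  have h2 := h ![0, 0, 1]
  simp only [L_apply, Matrix.cons_val] at h0 h1 h2
  have e0 : R.be 0 = R.a := rfl
  have e1 : R.be 1 = R.b := rfl
  have e2 : R.be 2 = R.c := rfl
  rw [e0, e1, e2] at h0 h1 h2
  have g0 : g 0 * ((R.a - R.b) * (R.a - R.c)) = 0 := by
    linear_combination h2 - (R.b + R.c) * h1 + R.b * R.c * h0
  have g1 : g 1 * ((R.b - R.a) * (R.b - R.c)) = 0 := by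
    linear_combination h2 - (R.a + R.c) * h1 + R.a * R.c * h0
  have g2 : g 2 * ((R.c - R.a) * (R.c - R.b)) = 0 := by
    linear_combination h2 - (R.a + R.b) * h1 + R.a * R.b * h0
  have d1 : R.a - R.b ≠ 0 := (sub_neg.mpr hab).ne
  have d2 : R.b - R.c ≠ 0 := (sub_neg.mpr hbc).ne
  have d3 : R.a - R.c ≠ 0 := (sub_neg.mpr (hab.trans hbc)).ne
  have d1' : R.b - R.a ≠ 0 := (sub_pos.mpr hab).ne'
  have d2' : R.c - R.b ≠ 0 := (sub_pos.mpr hbc).ne'
  have d3' : R.c - R.a ≠ 0 := (sub_pos.mpr (hab.trans hbc)).ne'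
  intro i
  fin_cases i
  · exact (mul_eq_zero.mp g0).resolve_right (mul_ne_zero d1 d3)
  · exact (mul_eq_zero.mp g1).resolve_right (mul_ne_zero d1' d2)
  · exact (mul_eq_zero.mp g2).resolve_right (mul_ne_zero d3' d2')

/-- the product of the three forms is the norm form -/
theorem prod_L (z : Fin 3 → ℤ) : ∏ i, R.L i (ic z) = (nf z : ℝ) := by
  rw [Fin.prod_univ_three, L_apply, L_apply, L_apply]
  have e0 : R.be 0 = R.a := rfl
  have e1 : R.be 1 = R.b := rfl
  have e2 : R.be 2 = R.c := rfl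
  rw [e0, e1, e2]
  have s1 := R.e1
  have s2 := R.e2
  have s3 := R.e3
  simp only [ic, nf]
  push_cast
  set x : ℝ := (z 0 : ℝ)
  set y : ℝ := (z 1 : ℝ)
  set w : ℝ := (z 2 : ℝ)
  have p2 : R.a ^ 2 + R.b ^ 2 + R.c ^ 2 = 25 ^ 2 - 2 * 12 := by
    linear_combination (R.a + R.b + R.c + 25) * s1 - 2 * s2
  have p12 : R.a * R.b ^ 2 + R.a ^ 2 * R.b + R.a * R.c ^ 2 + R.a ^ 2 * R.c + R.b * R.c ^ 2 +
      R.b ^ 2 * R.c = 25 * 12 - 3 := by
    linear_combination (R.a * R.b + R.a * R.c + R.b * R.c) * s1 + 25 * s2 - 3 * s3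
  have p22 : R.a ^ 2 * R.b ^ 2 + R.a ^ 2 * R.c ^ 2 + R.b ^ 2 * R.c ^ 2 = 12 ^ 2 - 2 * 25 := by
    linear_combination (R.a * R.b + R.a * R.c + R.b * R.c + 12) * s2 -
      2 * (R.a + R.b + R.c) * s3 - 2 * s1
  have p112 : R.a ^ 2 * R.b * R.c + R.a * R.b ^ 2 * R.c + R.a * R.b * R.c ^ 2 = 25 := by
    linear_combination (R.a + R.b + R.c) * s3 + s1
  have p122 : R.a ^ 2 * R.b ^ 2 * R.c + R.a ^ 2 * R.b * R.c ^ 2 + R.a * R.b ^ 2 * R.c ^ 2 = 12 := by
    linear_combination (R.a * R.b + R.a * R.c + R.b * R.c) * s3 + s2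
  have p222 : R.a ^ 2 * R.b ^ 2 * R.c ^ 2 = 1 := by
    linear_combination (R.a * R.b * R.c + 1) * s3
  linear_combination x ^ 2 * y * s1 + x ^ 2 * w * p2 + x * y ^ 2 * s2 + x * y * w * p12 +
    x * w ^ 2 * p22 + y ^ 3 * s3 + y ^ 2 * w * p112 + y * w ^ 2 * p122 + w ^ 3 * p222

theorem norm_ge (z : Fin 3 → ℤ) (hz : z ≠ 0) : 1 ≤ |∏ i, R.L i (ic z)| := by
  rw [R.prod_L z]
  have h1 := nf_ne_zero hz
  have h2 : 1 ≤ |nf z| := Int.one_le_abs h1
  exact_mod_cast h2

theorem irr (z : Fin 3 → ℤ) (hz : z ≠ 0) (i : Fin 3) : R.L i (ic z) ≠ 0 := by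
  intro h
  have h1 := R.norm_ge z hz
  rw [Finset.prod_eq_zero (Finset.mem_univ i) h, abs_zero] at h1
  linarith

/-- dual coordinates of a covector -/
noncomputable def dual (f0 f1 f2 : ℝ) : Fin 3 → ℝ :=
  ![(f2 - (R.b + R.c) * f1 + R.b * R.c * f0) / ((R.a - R.b) * (R.a - R.c)),
    (f2 - (R.a + R.c) * f1 + R.a * R.c * f0) / ((R.b - R.a) * (R.b - R.c)),
    (f2 - (R.a + R.b) * f1 + R.a * R.b * f0) / ((R.c - R.a) * (R.c - R.b))]

theorem dual_eq (f0 f1 f2 : ℝ) (x : V3) :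
    f0 * x 0 + f1 * x 1 + f2 * x 2 = ∑ i, R.dual f0 f1 f2 i * R.L i x := by
  have hab := R.lt_ab
  have hbc := R.lt_bc
  have d1 : R.a - R.b ≠ 0 := (sub_neg.mpr hab).ne
  have d2 : R.b - R.c ≠ 0 := (sub_neg.mpr hbc).ne
  have d3 : R.a - R.c ≠ 0 := (sub_neg.mpr (hab.trans hbc)).ne
  have d1' : R.b - R.a ≠ 0 := (sub_pos.mpr hab).ne'
  have d2' : R.c - R.b ≠ 0 := (sub_pos.mpr hbc).ne'
  have d3' : R.c - R.a ≠ 0 := (sub_pos.mpr (hab.trans hbc)).ne'
  rw [Fin.sum_univ_three, L_apply, L_apply, L_apply]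
  have e0 : R.be 0 = R.a := rfl
  have e1 : R.be 1 = R.b := rfl
  have e2 : R.be 2 = R.c := rfl
  rw [e0, e1, e2]
  simp only [dual, Matrix.cons_val]
  have r1 : R.b - R.a = -(R.a - R.b) := by ring
  have r2 : R.c - R.b = -(R.b - R.c) := by ring
  have r3 : R.c - R.a = -(R.a - R.c) := by ring
  rw [r1, r2, r3]
  field_simp
  ring

theorem dual_pos {f0 f1 f2 : ℝ} (h0 : 0 < f2 - (R.b + R.c) * f1 + R.b * R.c * f0)
    (h1 : f2 - (R.a + R.c) * f1 + R.a * R.c * f0 < 0)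
    (h2 : 0 < f2 - (R.a + R.b) * f1 + R.a * R.b * f0) (i : Fin 3) : 0 < R.dual f0 f1 f2 i := by
  have hab := R.lt_ab
  have hbc := R.lt_bc
  have d1 : R.a - R.b < 0 := sub_neg.mpr hab
  have d2 : R.b - R.c < 0 := sub_neg.mpr hbc
  have d3 : R.a - R.c < 0 := sub_neg.mpr (hab.trans hbc)
  have d1' : 0 < R.b - R.a := sub_pos.mpr hab
  have d2' : 0 < R.c - R.b := sub_pos.mpr hbc
  have d3' : 0 < R.c - R.a := sub_pos.mpr (hab.trans hbc)
  fin_cases i
  · exact div_pos h0 (mul_pos_of_neg_of_neg d1 d3)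
  · exact div_pos_of_neg_of_neg h1 (mul_neg_of_pos_of_neg d1' d2)
  · exact div_pos h2 (mul_pos d3' d2')

theorem boundsU : 0 < 16 - (R.b + R.c) * 1 + R.b * R.c * 1 ∧
    16 - (R.a + R.c) * 1 + R.a * R.c * 1 < 0 ∧
    0 < (16 : ℝ) - (R.a + R.b) * 1 + R.a * R.b * 1 := by
  have a1 := R.a1
  have a2 := R.a2
  have b1 := R.b1
  have b2 := R.b2
  have c1 := R.c1
  have c2 := R.c2
  norm_num at a1 a2 b1 b2 c1 c2
  refine ⟨?_, ?_, ?_⟩
  · nlinarith [mul_pos (sub_pos.mpr b1) (sub_pos.mpr c1)]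
  · nlinarith [mul_pos (sub_pos.mpr a2) (sub_pos.mpr c1)]
  · nlinarith [mul_pos (sub_pos.mpr a1) (sub_pos.mpr b1)]

theorem boundsD : 0 < 11 - (R.b + R.c) * 8 + R.b * R.c * 21 ∧
    11 - (R.a + R.c) * 8 + R.a * R.c * 21 < 0 ∧
    0 < (11 : ℝ) - (R.a + R.b) * 8 + R.a * R.b * 21 := by
  have a1 := R.a1
  have a2 := R.a2
  have b1 := R.b1
  have b2 := R.b2
  have c1 := R.c1
  have c2 := R.c2
  norm_num at a1 a2 b1 b2 c1 c2
  refine ⟨?_, ?_, ?_⟩
  · nlinarith [mul_pos (sub_pos.mpr b1) (sub_pos.mpr c1)]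
  · nlinarith [mul_pos (sub_pos.mpr a2) (sub_pos.mpr c1)]
  · nlinarith [mul_pos (sub_pos.mpr a1) (sub_pos.mpr b1)]

theorem covU (x : V3) : cov (ic ![1, 1, 16]) x = ∑ i, R.dual 1 1 16 i * R.L i x := by
  rw [← R.dual_eq, cov_apply]
  simp [Fin.sum_univ_three, ic]

theorem covD (x : V3) : cov (ic ![21, 8, 11]) x = ∑ i, R.dual 21 8 11 i * R.L i x := by
  rw [← R.dual_eq, cov_apply]
  simp [Fin.sum_univ_three, ic]

theorem dualU_pos (i : Fin 3) : 0 < R.dual 1 1 16 i :=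
  R.dual_pos R.boundsU.1 R.boundsU.2.1 R.boundsU.2.2 i

theorem dualD_pos (i : Fin 3) : 0 < R.dual 21 8 11 i :=
  R.dual_pos R.boundsD.1 R.boundsD.2.1 R.boundsD.2.2 i

theorem posU {x : V3} (hx : ∀ i, 0 < R.L i x) : 0 < x 0 + x 1 + 16 * x 2 := by
  have h1 : 0 < ∑ i, R.dual 1 1 16 i * R.L i x :=
    Finset.sum_pos (fun i _ => mul_pos (R.dualU_pos i) (hx i)) Finset.univ_nonempty
  rw [← R.dual_eq] at h1
  linarith

theorem posD {x : V3} (hx : ∀ i, 0 < R.L i x) : 0 < 21 * x 0 + 8 * x 1 + 11 * x 2 := by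
  have h1 : 0 < ∑ i, R.dual 21 8 11 i * R.L i x :=
    Finset.sum_pos (fun i _ => mul_pos (R.dualD_pos i) (hx i)) Finset.univ_nonempty
  rw [← R.dual_eq] at h1
  linarith

theorem L_inv {g : SpecialLinearGroup (Fin 3) ℤ} {c : Fin 3 → ℝ} (hc : ∀ i, 0 < c i)
    (h : ∀ i x, R.L i (actL g x) = c i * R.L i x) {x : V3} (hx : ∀ i, 0 < R.L i x) (i : Fin 3) :
    0 < R.L i (actL g⁻¹ x) := by
  have h1 := h i (actL g⁻¹ x)
  rw [actL_self_inv] at h1
  have h2 := hx i
  rw [h1] at h2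
  exact (mul_pos_iff_of_pos_left (hc i)).mp h2

theorem Binv_mulVec (x : V3) : actL B⁻¹ x = ![12 * x 0 + x 1, -25 * x 0 + x 2, x 0] := by
  have h1 : actL B ![12 * x 0 + x 1, -25 * x 0 + x 2, x 0] = x := by
    rw [B_mulVec]
    funext i
    fin_cases i <;> simp
  conv_lhs => rw [← h1, actL_inv_self]

theorem Ainv_mulVec (x : V3) : actL A⁻¹ x = ![(-55) * x 0 + (-21) * x 1 + (-8) * x 2, (517) * x 0 + (197) * x 1 + (75) * x 2, (-21) * x 0 + (-8) * x 1 + (-3) * x 2] := by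
  have h1 : actL A ![(-55) * x 0 + (-21) * x 1 + (-8) * x 2, (517) * x 0 + (197) * x 1 + (75) * x 2, (-21) * x 0 + (-8) * x 1 + (-3) * x 2] = x := by
    rw [A_mulVec]
    funext i
    fin_cases i <;> simp <;> ring
  conv_lhs => rw [← h1, actL_inv_self]

theorem minD_aux (z : Fin 3 → ℤ) (hz : ∀ i, 0 < R.L i (ic z)) :
    8 ≤ 21 * z 0 + 8 * z 1 + 11 * z 2 ∧ (21 * z 0 + 8 * z 1 + 11 * z 2 = 8 →
      (z 0 = 9 ∧ z 1 = -(25 - 1) ∧ z 2 = 1) ∨ (z 0 = 0 ∧ z 1 = 1 ∧ z 2 = 0) ∨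
      (z 0 = 1 ∧ z 1 = -3 ∧ z 2 = 1)) := by
  have h0 := R.posU hz
  have h1 := R.posU (R.L_inv R.alpos R.LA hz)
  have h2 := R.posU (R.L_inv R.bepos R.LB hz)
  rw [Ainv_mulVec] at h1
  rw [Binv_mulVec] at h2
  simp only [ic, Matrix.cons_val] at h0 h1 h2
  have k0 : 0 < z 0 + z 1 + 16 * z 2 := by exact_mod_cast h0
  have k1 : 0 < ((-55) * z 0 + (-21) * z 1 + (-8) * z 2) + ((517) * z 0 + (197) * z 1 + (75) * z 2) + 16 * ((-21) * z 0 + (-8) * z 1 + (-3) * z 2) := by exact_mod_cast h1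
  have k2 : 0 < (12 * z 0 + z 1) + (-25 * z 0 + z 2) + 16 * z 0 := by exact_mod_cast h2
  constructor
  · omega
  · intro h
    have hm : 0 ≤ 1 - z 2 := by linarith
    have hn : 0 ≤ 13 * (z 0 - 9) + 5 * (z 1 + (25 - 1)) + 8 * (z 2 - 1) := by linarith
    have hmn : (1 - z 2) + (13 * (z 0 - 9) + 5 * (z 1 + (25 - 1)) + 8 * (z 2 - 1)) ≤ 1 := by
      linarith
    rcases (show 1 - z 2 = 0 ∨ 1 - z 2 = 1 by omega) with h3 | h3
    · rcases (show 13 * (z 0 - 9) + 5 * (z 1 + (25 - 1)) + 8 * (z 2 - 1) = 0 ∨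
        13 * (z 0 - 9) + 5 * (z 1 + (25 - 1)) + 8 * (z 2 - 1) = 1 by omega) with h4 | h4
      · omega
      · omega
    · have h4 : 13 * (z 0 - 9) + 5 * (z 1 + (25 - 1)) + 8 * (z 2 - 1) = 0 := by omega
      omega

theorem minU_aux (z : Fin 3 → ℤ) (hz : ∀ i, 0 < R.L i (ic z)) (h : z 0 + z 1 + 16 * z 2 = 1) :
    (z 0 = 1 ∧ z 1 = 0 ∧ z 2 = 0) ∨ (z 0 = 9 ∧ z 1 = -(25 - 1) ∧ z 2 = 1) ∨
      (z 0 = 0 ∧ z 1 = 1 ∧ z 2 = 0) := by
  have h0 := (R.minD_aux z hz).1
  have hA : ∀ i, 0 < R.L i (actL A (ic z)) := fun i => by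
    rw [LA]
    exact mul_pos (R.alpos i) (hz i)
  have hB : ∀ i, 0 < R.L i (actL B (ic z)) := fun i => by
    rw [LB]
    exact mul_pos (R.bepos i) (hz i)
  rw [actL_ic] at hA hB
  have h1 := (R.minD_aux _ hA).1
  have h2 := (R.minD_aux _ hB).1
  simp [A, B, Matrix.mulVec, dotProduct, Fin.sum_univ_three] at h1 h2
  omega

theorem Av : A.1.mulVec ![1, 0, 0] = ![9, -(25 - 1), 1] := by
  funext i
  fin_cases i <;> rfl

theorem Bv : B.1.mulVec ![1, 0, 0] = ![0, 1, 0] := by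
  funext i
  fin_cases i <;> rfl

theorem ABv : (A * B).1.mulVec ![1, 0, 0] = ![1, -3, 1] := by
  have h1 : (A * B).1 = A.1 * B.1 := rfl
  rw [h1, ← Matrix.mulVec_mulVec, Bv]
  funext i
  fin_cases i <;> rfl

theorem charpoly_B : B.1.charpoly = Polynomial.X ^ 3 + (Polynomial.C (-25) * Polynomial.X ^ 2 +
    Polynomial.C 12 * Polynomial.X + Polynomial.C (-1)) := by
  rw [B, Matrix.charpoly, Matrix.det_fin_three]
  simp
  ring

theorem irreducible_B : Irreducible (B.1.charpoly.map (Int.castRingHom ℚ)) := by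
  rw [charpoly_B]
  have hmon : (Polynomial.X ^ 3 + (Polynomial.C (-25) * Polynomial.X ^ 2 +
      Polynomial.C 12 * Polynomial.X + Polynomial.C (-1)) : Polynomial ℤ).Monic := by
    apply Polynomial.monic_X_pow_add
    exact lt_of_le_of_lt (by compute_degree) (by norm_num : (2 : WithBot ℕ) < 3)
  have hdeg : (Polynomial.X ^ 3 + (Polynomial.C (-25) * Polynomial.X ^ 2 +
      Polynomial.C 12 * Polynomial.X + Polynomial.C (-1)) : Polynomial ℤ).natDegree = 3 := by
    compute_degree!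
  apply Polynomial.irreducible_of_degree_le_three_of_not_isRoot
  · rw [hmon.natDegree_map, hdeg]
    simp
  · intro r hr
    have hr' : Polynomial.aeval r (Polynomial.X ^ 3 + (Polynomial.C (-25) * Polynomial.X ^ 2 +
        Polynomial.C 12 * Polynomial.X + Polynomial.C (-1)) : Polynomial ℤ) = 0 := by
      rw [Polynomial.IsRoot.def, Polynomial.eval_map] at hr
      rw [Polynomial.aeval_def]
      exact hr
    obtain ⟨n, hn⟩ := isInteger_of_is_root_of_monic hmon hr'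
    rw [← hn] at hr'
    simp only [map_add, map_mul, map_pow, Polynomial.aeval_X, Polynomial.aeval_C] at hr'
    simp only [algebraMap_int_eq, eq_intCast] at hr'
    have h3 : n ^ 3 - 25 * n ^ 2 + 12 * n - 1 = 0 := by
      have h2 : ((n ^ 3 - 25 * n ^ 2 + 12 * n - 1 : ℤ) : ℚ) = 0 := by
        rw [← hr']
        push_cast
        ring
      exact_mod_cast h2
    have h4 : n * (n ^ 2 - 25 * n + 12) = 1 := by linarith
    rcases Int.eq_one_or_neg_one_of_mul_eq_one h4 with h | h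
    · rw [h] at h3
      norm_num at h3
    · rw [h] at h3
      norm_num at h3

/-- the system -/
noncomputable def sys : Sys where
  A := A
  B := B
  comm := comm
  L := R.L
  ind := R.ind
  al := R.al
  be := R.be
  alpos := R.alpos
  bepos := R.bepos
  LA := R.LA
  LB := R.LB
  v := ![1, 0, 0]
  Lv i := by simp [L_apply, ic]
  irr z hz i := R.irr z hz i
  fU := ![1, 1, 16]
  fD := ![21, 8, 11]
  d := 8
  dpos := by norm_num
  cU := R.dual 1 1 16
  cD := R.dual 21 8 11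
  cUpos := R.dualU_pos
  cDpos := R.dualD_pos
  fUc := R.covU
  fDc := R.covD
  fU0 := by simp [Fin.sum_univ_three]
  fU1 := by rw [Av]; simp [Fin.sum_univ_three]
  fU2 := by rw [Bv]; simp [Fin.sum_univ_three]
  fD0 := by rw [Av]; simp [Fin.sum_univ_three]
  fD1 := by rw [Bv]; simp [Fin.sum_univ_three]
  fD2 := by rw [ABv]; simp [Fin.sum_univ_three]
  minU z hz h := by
    rw [Av, Bv]
    have h1 : z 0 + z 1 + 16 * z 2 = 1 := by
      simpa [Fin.sum_univ_three] using h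
    rcases R.minU_aux z hz h1 with h | h | h
    · left
      funext i
      fin_cases i
      · exact h.1
      · exact h.2.1
      · exact h.2.2
    · right; left
      funext i
      fin_cases i
      · exact h.1
      · exact h.2.1
      · exact h.2.2
    · right; right
      funext i
      fin_cases i
      · exact h.1
      · exact h.2.1
      · exact h.2.2
  minD z hz := by
    rw [Av, Bv, ABv]
    have e : ∑ k, (![21, 8, 11] : Fin 3 → ℤ) k * z k = 21 * z 0 + 8 * z 1 + 11 * z 2 := by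
      simp [Fin.sum_univ_three]
    rw [e]
    obtain ⟨h1, h2⟩ := R.minD_aux z hz
    refine ⟨h1, fun h => ?_⟩
    rcases h2 h with h | h | h
    · left
      funext i
      fin_cases i
      · exact h.1
      · exact h.2.1
      · exact h.2.2
    · right; left
      funext i
      fin_cases i
      · exact h.1
      · exact h.2.1
      · exact h.2.2
    · right; right
      funext i
      fin_cases i
      · exact h.1
      · exact h.2.1
      · exact h.2.2
  contr i := by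
    obtain ⟨b0, b1, b2, b1'⟩ := R.be_lt
    have a0 := R.al0
    have a1 := R.al1
    have a1' := R.al1'
    have a2 := R.al2
    have a2' := R.al2'
    fin_cases i
    · refine ⟨1, -1, fun j hj => ?_⟩
      fin_cases j
      · exact absurd rfl hj
      · show R.al 1 ^ (1 : ℤ) * R.be 1 ^ (-1 : ℤ) < 1
        rw [zpow_one, _root_.zpow_neg_one, ← div_eq_mul_inv, div_lt_one (R.bepos 1)]
        linarith
      · show R.al 2 ^ (1 : ℤ) * R.be 2 ^ (-1 : ℤ) < 1
        rw [zpow_one, _root_.zpow_neg_one, ← div_eq_mul_inv, div_lt_one (R.bepos 2)]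
        exact a2'
    · refine ⟨-1, 0, fun j hj => ?_⟩
      fin_cases j
      · show R.al 0 ^ (-1 : ℤ) * R.be 0 ^ (0 : ℤ) < 1
        rw [zpow_zero, mul_one, _root_.zpow_neg_one]
        exact inv_lt_one_of_one_lt₀ a0
      · exact absurd rfl hj
      · show R.al 2 ^ (-1 : ℤ) * R.be 2 ^ (0 : ℤ) < 1
        rw [zpow_zero, mul_one, _root_.zpow_neg_one]
        exact inv_lt_one_of_one_lt₀ a2
    · refine ⟨0, 1, fun j hj => ?_⟩
      fin_cases j
      · show R.al 0 ^ (0 : ℤ) * R.be 0 ^ (1 : ℤ) < 1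
        rw [zpow_zero, one_mul, zpow_one]
        linarith
      · show R.al 1 ^ (0 : ℤ) * R.be 1 ^ (1 : ℤ) < 1
        rw [zpow_zero, one_mul, zpow_one]
        linarith
      · exact absurd rfl hj
  mind m n h := by
    obtain ⟨b0, b1, b2, b1'⟩ := R.be_lt
    have a0 := R.al0
    have a2 := R.al2
    have h0 := h 0
    have h2 := h 2
    have hb0 : R.be 0 < 1 := by linarith
    have hb0' := R.bepos 0
    rcases lt_trichotomy m 0 with hm | hm | hm
    · exfalso
      have e2 : R.al 2 ^ m < 1 := zpow_lt_one_of_neg₀ a2 hm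
      have e0 : R.al 0 ^ m < 1 := zpow_lt_one_of_neg₀ a0 hm
      have p2 : 0 < R.al 2 ^ m := zpow_pos (R.alpos 2) m
      have p0 : 0 < R.al 0 ^ m := zpow_pos (R.alpos 0) m
      have hn : 0 < n := by
        by_contra hn
        push Not at hn
        have e3 : R.be 2 ^ n ≤ 1 := zpow_le_one_of_nonpos₀ b2.le hn
        have p3 : 0 < R.be 2 ^ n := zpow_pos (R.bepos 2) n
        nlinarith
      have e4 : R.be 0 ^ n < 1 := zpow_lt_one₀ hb0' hb0 hn
      have p4 : 0 < R.be 0 ^ n := zpow_pos (R.bepos 0) n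
      nlinarith
    · subst hm
      refine ⟨rfl, ?_⟩
      rw [zpow_zero, one_mul] at h2
      rcases lt_trichotomy n 0 with hn | hn | hn
      · have := zpow_lt_one_of_neg₀ b2 hn
        linarith
      · exact hn
      · have := one_lt_zpow₀ b2 hn
        linarith
    · exfalso
      have e2 : 1 < R.al 2 ^ m := one_lt_zpow₀ a2 hm
      have e0 : 1 < R.al 0 ^ m := one_lt_zpow₀ a0 hm
      have hn : n < 0 := by
        by_contra hn
        push Not at hn
        have e3 : 1 ≤ R.be 2 ^ n := one_le_zpow₀ b2.le hn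
        nlinarith
      have e4 : 1 < R.be 0 ^ n := one_lt_zpow_of_neg₀ hb0' hb0 hn
      nlinarith
  basU := by
    rw [Av, Bv, Fintype.linearIndependent_iff]
    intro g hg
    have h0 := congrFun hg 0
    have h1 := congrFun hg 1
    have h2 := congrFun hg 2
    simp [Fin.sum_univ_three, ic] at h0 h1 h2
    have g1 : g 1 = 0 := by linarith
    have g0 : g 0 = 0 := by rw [g1] at h0; linarith
    have g2 : g 2 = 0 := by rw [g1] at h1; linarith
    intro i
    fin_cases i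
    · exact g0
    · exact g1
    · exact g2
  basD := by
    rw [Av, Bv, ABv, Fintype.linearIndependent_iff]
    intro g hg
    have h0 := congrFun hg 0
    have h1 := congrFun hg 1
    have h2 := congrFun hg 2
    simp [Fin.sum_univ_three, ic] at h0 h1 h2
    have g0 : g 0 = 0 := by linarith
    have g2 : g 2 = 0 := by linarith
    have g1 : g 1 = 0 := by rw [g0, g2] at h1; linarith
    intro i
    fin_cases i
    · exact g0
    · exact g1
    · exact g2
  uniU z h := by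
    rw [Av, Bv]
    have h1 : z 0 + z 1 + 16 * z 2 = 0 := by
      simpa [Fin.sum_univ_three] using h
    refine ⟨z 2, z 1 + (25 - 1) * z 2, ?_⟩
    funext i
    fin_cases i <;> simp <;> linarith
  uniD z h := by
    rw [Av, Bv, ABv]
    have h1 : 21 * z 0 + 8 * z 1 + 11 * z 2 = 0 := by
      simpa [Fin.sum_univ_three] using h
    refine ⟨- z 2, 13 * z 0 + 5 * z 1 + 8 * z 2, ?_⟩
    funext i
    fin_cases i <;> simp <;> linarith
  primU d hd := by
    have := hd 0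
    simpa using isUnit_of_dvd_one this
  primD d hd := by
    have h0 : d ∣ 21 := hd 0
    have h1 : d ∣ 8 := hd 1
    have h2 : d ∣ 1 := by
      have := dvd_add (Dvd.dvd.mul_left h0 (-3)) (Dvd.dvd.mul_left h1 (8))
      simpa using this
    exact isUnit_of_dvd_one h2

end Roots

end ExTwo

end Pool.Agent.H476R2
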