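import Pool.Agent.H476R2.Cells

namespace Pool.Agent.H476R2

open Set

namespace SailData

variable {I V : Type} (D D' : SailData I V)

/-- the linear map matching the triangles with index `i` -/
noncomputable def tau (i : I) : V3 →ₗ[ℝ] V3 := (D.bas i).constr ℝ (D'.w i)

theorem tau_w (i : I) (j : Fin 3) : D.tau D' i (D.w i j) = D'.w i j := by
  rw [tau, ← bas_apply, Module.Basis.constr_basis]

theorem tau_eq (i : I) (x : V3) : D.tau D' i x = ∑ j, (D.bas i).repr x j • D'.w i j := by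
  conv_lhs => rw [D.sum_repr i x]
  rw [map_sum]
  simp only [map_smul, tau_w]

theorem repr_tau (i : I) (x : V3) (j : Fin 3) :
    (D'.bas i).repr (D.tau D' i x) j = (D.bas i).repr x j := by
  rw [tau_eq, map_sum]
  simp only [map_smul, ← bas_apply, Module.Basis.repr_self]
  rw [Finsupp.finsetSum_apply]
  simp [Finsupp.single_apply]

theorem tau_tri {i : I} {x : V3} (hx : x ∈ D.tri i) : D.tau D' i x ∈ D'.tri i := by
  rw [mem_tri] at hx ⊢
  refine ⟨fun j => ?_, ?_⟩
  · rw [repr_tau]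
    exact hx.1 j
  · rw [D'.f_self]
    simp only [repr_tau]
    rw [← D.f_self]
    exact hx.2

theorem tau_simp {i : I} {J : Finset (Fin 3)} {x : V3} (hx : x ∈ D.simp i J) :
    D.tau D' i x ∈ D'.simp i J := by
  rw [mem_simp] at hx ⊢
  refine ⟨D.tau_tri D' hx.1, fun j hj => ?_⟩
  rw [repr_tau]
  exact hx.2 j hj

theorem tau_tau (i : I) (x : V3) : D'.tau D i (D.tau D' i x) = x := by
  rw [tau_eq]
  simp only [repr_tau]
  exact (D.sum_repr i x).symm

theorem tau_compat (hv : D.vert = D'.vert) {i i' : I} {x : V3} (h : x ∈ D.tri i)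
    (h' : x ∈ D.tri i') : D.tau D' i x = D.tau D' i' x := by
  have hf : D.f i x = 1 := (D.mem_tri.mp h).2
  have hf' : D.f i' x = 1 := (D.mem_tri.mp h').2
  have hc := (D.mem_tri.mp h').1
  have h1 : ∑ l, (D.bas i').repr x l * (D.f i (D.w i' l) - 1) = 0 := by
    simp only [mul_sub, mul_one]
    rw [Finset.sum_sub_distrib, ← D.f_self i', ← D.f_eq i' i, hf, hf']
    ring
  have h2 := (Finset.sum_eq_zero_iff_of_nonneg (fun l _ => mul_nonneg (hc l) (by
    have := D.fP i (D.w i' l) (D.posP _)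
    linarith))).mp h1
  rw [tau_eq D D' i' x]
  conv_lhs => rw [D.sum_repr i' x, map_sum]
  refine Finset.sum_congr rfl fun l hl => ?_
  rw [map_smul]
  rcases mul_eq_zero.mp (h2 l hl) with h0 | h0
  · rw [h0, zero_smul, zero_smul]
  · have h3 : D.f i (D.w i' l) = 1 := by linarith
    obtain ⟨j, hj⟩ := D.f_w_eq_one h3
    have e1 : D.w i' l = D.w i j := by rw [w, w, hj]
    have e2 : D'.w i' l = D'.w i j := by rw [w, w, ← hv, hj]
    rw [e1, e2, tau_w]

/-- the piecewise linear map between the two sails -/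
noncomputable def pl (x : V3) : V3 := by
  classical
  exact if h : ∃ i, x ∈ D.tri i then D.tau D' h.choose x else 0

theorem pl_eq (hv : D.vert = D'.vert) {i : I} {x : V3} (hx : x ∈ D.tri i) :
    D.pl D' x = D.tau D' i x := by
  classical
  have h : ∃ i, x ∈ D.tri i := ⟨i, hx⟩
  rw [pl, dif_pos h]
  exact D.tau_compat D' hv h.choose_spec hx

theorem tri_closed (i : I) : IsClosed (D.tri i) :=
  ((Set.finite_range (D.w i)).isCompact_convexHull (𝕜 := ℝ)).isClosed

theorem locallyFinite (S : Set V3) (hS : S = ⋃ i, D.tri i) :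
    LocallyFinite (fun i => {x : S | (x : V3) ∈ D.tri i}) := by
  intro x
  have hxC : (x : V3) ∈ D.C := by
    have h1 : (x : V3) ∈ ⋃ i, D.tri i := hS ▸ x.2
    rw [mem_iUnion] at h1
    obtain ⟨i, hi⟩ := h1
    exact (D.tri_sub_K i hi).1
  refine ⟨{y : S | (y : V3) - (1 / 2 : ℝ) • (x : V3) ∈ D.C}, ?_, ?_⟩
  · apply IsOpen.mem_nhds
    · exact D.Copen.preimage (by fun_prop)
    · show (x : V3) - (1 / 2 : ℝ) • (x : V3) ∈ D.C
      have e : (x : V3) - (1 / 2 : ℝ) • (x : V3) = (1 / 2 : ℝ) • (x : V3) := by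
        rw [sub_eq_iff_eq_add, ← add_smul]
        norm_num
      rw [e]
      exact D.Csmul _ hxC _ (by norm_num)
  · apply (D.proper x hxC 2).subset
    rintro i ⟨y, hy1, hy2⟩
    have h1 : D.f i y = 1 := (D.mem_tri.mp hy1).2
    have h2 := D.fpos i _ hy2
    rw [map_sub, map_smul, h1, smul_eq_mul] at h2
    show D.f i x ≤ 2
    linarith

theorem pl_continuous (hv : D.vert = D'.vert) (S : Set V3) (hS : S = ⋃ i, D.tri i) :
    Continuous (fun x : S => D.pl D' x) := by
  apply (D.locallyFinite S hS).continuous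
  · ext x
    simp only [mem_iUnion, mem_univ, iff_true]
    have h1 : (x : V3) ∈ ⋃ i, D.tri i := hS ▸ x.2
    rw [mem_iUnion] at h1
    exact h1
  · intro i
    exact (D.tri_closed i).preimage continuous_subtype_val
  · intro i
    have h1 : ContinuousOn (fun x : S => D.tau D' i x) {x : S | (x : V3) ∈ D.tri i} :=
      ((LinearMap.continuous_of_finiteDimensional (D.tau D' i)).comp
        continuous_subtype_val).continuousOn
    exact h1.congr fun x hx => D.pl_eq D' hv hx

theorem pl_mem (hv : D.vert = D'.vert) (S S' : Set V3) (hS : S = ⋃ i, D.tri i)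
    (hS' : S' = ⋃ i, D'.tri i) {x : V3} (hx : x ∈ S) : D.pl D' x ∈ S' := by
  rw [hS, mem_iUnion] at hx
  obtain ⟨i, hi⟩ := hx
  rw [hS', D.pl_eq D' hv hi, mem_iUnion]
  exact ⟨i, D.tau_tri D' hi⟩

theorem pl_pl (hv : D.vert = D'.vert) (S : Set V3) (hS : S = ⋃ i, D.tri i)
    {x : V3} (hx : x ∈ S) : D'.pl D (D.pl D' x) = x := by
  rw [hS, mem_iUnion] at hx
  obtain ⟨i, hi⟩ := hx
  rw [D.pl_eq D' hv hi, D'.pl_eq D hv.symm (D.tau_tri D' hi), tau_tau]

/-- the piecewise linear homeomorphism -/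
noncomputable def homeo (hv : D.vert = D'.vert) (S S' : Set V3) (hS : S = ⋃ i, D.tri i)
    (hS' : S' = ⋃ i, D'.tri i) : S ≃ₜ S' where
  toFun x := ⟨D.pl D' x, D.pl_mem D' hv S S' hS hS' x.2⟩
  invFun x := ⟨D'.pl D x, D'.pl_mem D hv.symm S' S hS' hS x.2⟩
  left_inv x := Subtype.ext (D.pl_pl D' hv S hS x.2)
  right_inv x := Subtype.ext (D'.pl_pl D hv.symm S' hS' x.2)
  continuous_toFun := (D.pl_continuous D' hv S hS).subtype_mk _
  continuous_invFun := (D'.pl_continuous D hv.symm S' hS').subtype_mk _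

theorem homeo_coe (hv : D.vert = D'.vert) (S S' : Set V3) (hS : S = ⋃ i, D.tri i)
    (hS' : S' = ⋃ i, D'.tri i) (x : S) : ((D.homeo D' hv S S' hS hS' x : S') : V3) = D.pl D' x :=
  rfl

theorem simp_sub_tri (i : I) (J : Finset (Fin 3)) : D.simp i J ⊆ D.tri i :=
  convexHull_mono (Set.image_subset_range _ _)

theorem simp_sub (S : Set V3) (hS : S = ⋃ i, D.tri i) (i : I) (J : Finset (Fin 3)) :
    D.simp i J ⊆ S := by
  rw [hS]
  exact (D.simp_sub_tri i J).trans (subset_iUnion (fun i => D.tri i) i)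

theorem img_simp (hv : D.vert = D'.vert) (S S' : Set V3) (hS : S = ⋃ i, D.tri i)
    (hS' : S' = ⋃ i, D'.tri i) (i : I) (J : Finset (Fin 3)) :
    img (D.homeo D' hv S S' hS hS') (D.simp i J) = D'.simp i J := by
  ext y
  simp only [img, mem_ofPred_eq, homeo_coe]
  constructor
  · rintro ⟨x, hx, rfl⟩
    rw [D.pl_eq D' hv (D.simp_sub_tri i J hx)]
    exact D.tau_simp D' hx
  · intro hy
    have h1 : D'.tau D i y ∈ D.simp i J := D'.tau_simp D hy
    refine ⟨⟨D'.tau D i y, D.simp_sub S hS i J h1⟩, h1, ?_⟩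
    rw [D.pl_eq D' hv (D.simp_sub_tri i J h1), tau_tau]

theorem img_injective {S S' : Set V3} (φ : S → S') (hφ : Function.Injective φ) {G H : Set V3}
    (hG : G ⊆ S) (hH : H ⊆ S) (h : img φ G = img φ H) : G = H := by
  have key : ∀ {A B : Set V3}, A ⊆ S → img φ A = img φ B → A ⊆ B := by
    intro A B hA h x hx
    have h1 : ((φ ⟨x, hA hx⟩ : S') : V3) ∈ img φ A := ⟨⟨x, hA hx⟩, hx, rfl⟩
    rw [h] at h1
    obtain ⟨y, hy, hxy⟩ := h1
    have h2 := hφ (Subtype.ext hxy)
    rw [h2] at hy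
    exact hy
  exact Subset.antisymm (key hG h) (key hH h.symm)

theorem cell_iff (hv : D.vert = D'.vert) (S S' : Set V3) (hS : S = ⋃ i, D.tri i)
    (hS' : S' = ⋃ i, D'.tri i) (k : ℕ) (G : Set V3) (hG : G ⊆ S) :
    IsCell D.K k G ↔ IsCell D'.K k (img (D.homeo D' hv S S' hS hS') G) := by
  rw [D.isCell_iff, D'.isCell_iff]
  constructor
  · rintro ⟨i, J, hJ, rfl⟩
    exact ⟨i, J, hJ, D.img_simp D' hv S S' hS hS' i J⟩
  · rintro ⟨i, J, hJ, h⟩
    refine ⟨i, J, hJ, ?_⟩
    rw [← D.img_simp D' hv S S' hS hS'] at h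
    exact img_injective _ (D.homeo D' hv S S' hS hS').injective hG (D.simp_sub S hS i J) h

end SailData

end Pool.Agent.H476R2
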