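import Pool.Agent.H476R2.Homeo

namespace Pool.Agent.H476R2

open Set

/-- primitive integer linear forms -/
def Prim (l : Fin 3 → ℤ) : Prop := ∀ d : ℤ, (∀ i, d ∣ l i) → IsUnit d

/-- lattice data of a simplicial sail all of whose triangles are unimodular -/
structure LatData {I V : Type} (D : SailData I V) (dist : I → ℕ) : Prop where
  P_eq : D.P = D.C ∩ (intLattice : Set V3)
  unimod : ∀ i, ∀ v ∈ intLattice, D.f i v = 0 →
    ∃ m n : ℤ, v = m • (D.w i 1 - D.w i 0) + n • (D.w i 2 - D.w i 0)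
  distance : ∀ i, 0 < dist i ∧ ∃ l : Fin 3 → ℤ, Prim l ∧
    ∀ j, ∑ k, (l k : ℝ) * D.w i j k = dist i

theorem prim_dvd {l : Fin 3 → ℤ} (hl : Prim l) {c d : ℤ} (h : ∀ i, c ∣ d * l i) : c ∣ d := by
  have h1 : c ∣ Finset.univ.gcd (fun i => d * l i) := Finset.dvd_gcd fun i _ => h i
  rw [Finset.gcd_mul_left] at h1
  have h2 : IsUnit (Finset.univ.gcd l) := hl _ fun i => Finset.gcd_dvd (Finset.mem_univ i)
  have h3 : c ∣ normalize d := (IsUnit.dvd_mul_right h2).mp h1
  exact (dvd_normalize_iff).mp h3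

namespace LatData

open SailData

variable {I V : Type} {D : SailData I V} {dist : I → ℕ} (h : LatData D dist)

include h

theorem w_lat (i : I) (j : Fin 3) : D.w i j ∈ intLattice := by
  have h1 : D.w i j ∈ D.P := D.posP _
  rw [h.P_eq] at h1
  exact h1.2

/-- the lattice points of a triangle are its vertices -/
theorem lat_tri {i : I} {x : V3} (hx : x ∈ D.tri i) (hl : x ∈ intLattice) : ∃ j, x = D.w i j := by
  have h1 : x ∈ D.P := by
    rw [h.P_eq]
    exact ⟨(D.tri_sub_K i hx).1, hl⟩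
  exact D.fP_eq i x h1 (D.mem_tri.mp hx).2

omit h in
theorem vectorSpan_le (i : I) {v : V3} (hv : v ∈ vectorSpan ℝ (D.tri i)) : D.f i v = 0 := by
  have h1 : vectorSpan ℝ (D.tri i) ≤ LinearMap.ker (D.f i) := by
    rw [vectorSpan_def, Submodule.span_le]
    rintro _ ⟨x, hx, y, hy, rfl⟩
    show D.f i (x - y) = 0
    rw [map_sub, (D.mem_tri.mp hx).2, (D.mem_tri.mp hy).2, sub_self]
  exact h1 hv

/-- a subgroup containing all differences of vertices contains the lattice of the plane -/
theorem cellLattice_le (i : I) (H : AddSubgroup V3) (h1 : D.w i 1 - D.w i 0 ∈ H)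
    (h2 : D.w i 2 - D.w i 0 ∈ H) : cellLattice (D.tri i) ≤ H := by
  rintro v ⟨hv1, hv2⟩
  obtain ⟨m, n, rfl⟩ := h.unimod i v hv1 (vectorSpan_le i hv2)
  exact H.add_mem (H.zsmul_mem h1 m) (H.zsmul_mem h2 n)

theorem cellLattice_le' (i : I) (H : AddSubgroup V3) (σ : Fin 3 → Fin 3)
    (hσ : Function.Injective σ)
    (h1 : D.w i (σ 1) - D.w i (σ 0) ∈ H)
    (h2 : D.w i (σ 2) - D.w i (σ 0) ∈ H) : cellLattice (D.tri i) ≤ H := by
  have key : ∀ a b, D.w i (σ a) - D.w i (σ b) ∈ H := by
    have h3 : ∀ a, D.w i (σ a) - D.w i (σ 0) ∈ H := by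
      intro a
      fin_cases a
      · simp [H.zero_mem]
      · exact h1
      · exact h2
    intro a b
    have := H.sub_mem (h3 a) (h3 b)
    simpa using this
  have hsurj : Function.Surjective σ := Finite.surjective_of_injective hσ
  obtain ⟨a0, ha0⟩ := hsurj 0
  obtain ⟨a1, ha1⟩ := hsurj 1
  obtain ⟨a2, ha2⟩ := hsurj 2
  apply h.cellLattice_le i H
  · have := key a1 a0
    rwa [ha0, ha1] at this
  · have := key a2 a0
    rwa [ha0, ha2] at this

theorem area_aux (i : I) (σ : Fin 3 → Fin 3) (hσ : Function.Injective σ) :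
    triangleArea (D.tri i) (fun j => D.w i (σ j)) = 1 := by
  rw [triangleArea, AddSubgroup.relIndex_eq_one]
  apply h.cellLattice_le' i _ σ hσ
  · exact AddSubgroup.subset_closure (by simp)
  · exact AddSubgroup.subset_closure (by simp)

theorem area_iff (i : I) (n : ℕ) : HasIntegerArea (D.tri i) n ↔ n = 1 := by
  classical
  constructor
  · rintro ⟨T, hT, rfl⟩
    -- every triangle of the triangulation is the whole triangle
    have hall : ∀ t ∈ T, ∃ σ : Fin 3 → Fin 3, Function.Injective σ ∧ t = fun j => D.w i (σ j) := by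
      intro t ht
      have hsub : convexHull ℝ (Set.range t) ⊆ D.tri i := by
        rw [← hT.cover]
        exact Set.subset_biUnion_of_mem (u := fun t => convexHull ℝ (Set.range t)) ht
      have h1 : ∀ j, ∃ k, t j = D.w i k := fun j =>
        h.lat_tri (hsub (subset_convexHull ℝ _ ⟨j, rfl⟩)) (hT.lattice t ht j)
      choose σ hσ using h1
      refine ⟨σ, fun a b hab => ?_, funext hσ⟩
      apply (hT.nondegenerate t ht).injective
      rw [hσ a, hσ b, hab]
    have hhull : ∀ t ∈ T, convexHull ℝ (Set.range t) = D.tri i := by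
      intro t ht
      obtain ⟨σ, hσ, rfl⟩ := hall t ht
      have hsurj : Function.Surjective σ := Finite.surjective_of_injective hσ
      have : (fun j => D.w i (σ j)) = D.w i ∘ σ := rfl
      rw [tri, this, hsurj.range_comp]
    have hne : (D.tri i).Nonempty := ⟨_, D.w_mem_tri i 0⟩
    obtain ⟨t, ht⟩ : T.Nonempty := by
      rw [Finset.nonempty_iff_ne_empty]
      rintro rfl
      rw [← hT.cover] at hne
      simp at hne
    have huniq : ∀ s ∈ T, s = t := by
      intro s hs
      by_contra hst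
      have hd := hT.disjoint s hs t ht hst
      rw [hhull s hs, hhull t ht, disjoint_self] at hd
      have h2 : (intrinsicInterior ℝ (D.tri i)).Nonempty :=
        hne.intrinsicInterior (convex_convexHull ℝ _)
      rw [hd] at h2
      exact Set.not_nonempty_empty h2
    have hTt : T = {t} := by
      ext s
      rw [Finset.mem_singleton]
      exact ⟨huniq s, fun h => h ▸ ht⟩
    obtain ⟨σ, hσ, rfl⟩ := hall t ht
    rw [hTt, Finset.sum_singleton]
    exact h.area_aux i σ hσ
  · rintro rfl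
    refine ⟨{D.w i}, ⟨?_, ?_, ?_, ?_⟩, ?_⟩
    · intro t ht j
      rw [Finset.mem_singleton] at ht
      rw [ht]
      exact h.w_lat i j
    · intro t ht
      rw [Finset.mem_singleton] at ht
      rw [ht]
      exact D.affInd i
    · simp [tri]
    · intro s hs t ht hst
      rw [Finset.mem_singleton] at hs ht
      exact absurd (hs.trans ht.symm) hst
    · rw [Finset.sum_singleton]
      exact (h.area_aux i id Function.injective_id).symm

theorem distance_iff (i : I) (n : ℕ) : HasIntegerDistance (D.tri i) n ↔ n = dist i := by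
  obtain ⟨hpos, l, hl, hlw⟩ := h.distance i
  constructor
  · rintro ⟨l', c', hl', hc', rfl⟩
    have h1 : ∀ j, ∑ k, (l' k : ℝ) * D.w i j k = c' := fun j => hc' _ (D.w_mem_tri i j)
    -- the forms `dist • l'` and `c' • l` agree on a basis
    have h2 : ∀ k, (dist i : ℤ) * l' k = c' * l k := by
      let A : V3 →ₗ[ℝ] ℝ := ∑ k, ((dist i : ℝ) * l' k) • LinearMap.proj k
      let B : V3 →ₗ[ℝ] ℝ := ∑ k, ((c' : ℝ) * l k) • LinearMap.proj k
      have hA : ∀ x, A x = (dist i : ℝ) * ∑ k, (l' k : ℝ) * x k := by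
        intro x
        simp only [A, LinearMap.sum_apply, LinearMap.smul_apply, LinearMap.proj_apply, smul_eq_mul,
          Finset.mul_sum, mul_assoc]
      have hB : ∀ x, B x = (c' : ℝ) * ∑ k, (l k : ℝ) * x k := by
        intro x
        simp only [B, LinearMap.sum_apply, LinearMap.smul_apply, LinearMap.proj_apply, smul_eq_mul,
          Finset.mul_sum, mul_assoc]
      have hAB : A = B := by
        apply (D.bas i).ext
        intro j
        rw [bas_apply, hA, hB, h1, hlw]
        ring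
      intro k
      have h3 : A (Pi.single k 1) = B (Pi.single k 1) := by rw [hAB]
      rw [hA, hB] at h3
      simp [Pi.single_apply] at h3
      exact_mod_cast h3
    have h4 : (dist i : ℤ) ∣ c' := prim_dvd hl fun k => ⟨l' k, (h2 k).symm⟩
    have h5 : c' ∣ (dist i : ℤ) := prim_dvd hl' fun k => ⟨l k, h2 k⟩
    have := Int.natAbs_eq_of_dvd_dvd h5 h4
    simpa using this
  · rintro rfl
    refine ⟨l, dist i, hl, fun x hx => ?_, by simp⟩
    have h1 := D.sum_repr i x
    have h2 : D.f i x = 1 := (D.mem_tri.mp hx).2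
    have h3 : ∑ k, (l k : ℝ) * x k = ∑ j, (D.bas i).repr x j * ∑ k, (l k : ℝ) * D.w i j k := by
      conv_lhs => rw [h1]
      simp only [Finset.sum_apply, Pi.smul_apply, smul_eq_mul, Finset.mul_sum]
      rw [Finset.sum_comm]
      refine Finset.sum_congr rfl fun j _ => Finset.sum_congr rfl fun k _ => ?_
      ring
    rw [h3]
    simp only [hlw]
    rw [← Finset.sum_mul, ← D.f_self, h2]
    simp

/-- the lattice points of an edge or vertex are its vertices -/
theorem lat_simp (i : I) (J : Finset (Fin 3)) :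
    D.simp i J ∩ (intLattice : Set V3) = D.w i '' (J : Set (Fin 3)) := by
  ext x
  constructor
  · rintro ⟨hx, hl⟩
    rw [mem_simp] at hx
    obtain ⟨j, rfl⟩ := h.lat_tri hx.1 hl
    refine ⟨j, ?_, rfl⟩
    by_contra hj
    have := hx.2 j hj
    rw [repr_w, if_pos rfl] at this
    norm_num at this
  · rintro ⟨j, hj, rfl⟩
    exact ⟨subset_convexHull ℝ _ ⟨j, hj, rfl⟩, h.w_lat i j⟩

theorem length_simp (i : I) (J : Finset (Fin 3)) :
    integerLength (D.simp i J) = (J.card : ℕ∞) - 1 := by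
  rw [integerLength, h.lat_simp, (D.w_inj i).encard_image, Set.encard_coe_eq_coe_finsetCard]

theorem vertex_of {x : V3} (hx : IsCell D.K 0 {x}) : x ∈ intLattice := by
  obtain ⟨i, J, hJ, hxe⟩ := D.isCell_iff.mp hx
  obtain ⟨j, hj⟩ : J.Nonempty := by
    rw [← Finset.card_pos]
    omega
  have h1 : D.w i j ∈ D.simp i J := subset_convexHull ℝ _ ⟨j, hj, rfl⟩
  rw [← hxe] at h1
  rw [← (Set.mem_singleton_iff.mp h1)]
  exact h.w_lat i j

/-- every angle of the sail is one -/
theorem angle_eq_one {G E E' : Set V3} {p : V3} (hG : IsCell D.K 2 G) (hE : IsCell D.K 1 E)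
    (hE' : IsCell D.K 1 E') (hp : IsCell D.K 0 {p}) (hEG : E ⊆ G) (hEG' : E' ⊆ G) (hne : E ≠ E')
    (hpE : p ∈ E) (hpE' : p ∈ E') : integerAngle G p E E' = 1 := by
  obtain ⟨i, J, hJ, rfl⟩ := D.isCell_iff.mp hG
  have hJu : J = Finset.univ := by
    apply Finset.eq_univ_of_card
    rw [hJ]
    simp
  subst hJu
  rw [D.simp_univ] at *
  have hpl := h.vertex_of hp
  -- an edge is the convex hull of two vertices of the triangle
  have edge : ∀ E : Set V3, IsCell D.K 1 E → E ⊆ D.tri i → p ∈ E →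
      ∃ a b, a ≠ b ∧ p = D.w i a ∧ D.w i b ∈ E ∧ E = convexHull ℝ {D.w i a, D.w i b} := by
    intro E hE hEG hpE
    obtain ⟨i', J', hJ', rfl⟩ := D.isCell_iff.mp hE
    obtain ⟨x, hx⟩ : ∃ x, p = D.w i' x ∧ x ∈ J' := by
      have h1 : p ∈ D.simp i' J' ∩ (intLattice : Set V3) := ⟨hpE, hpl⟩
      rw [h.lat_simp] at h1
      obtain ⟨x, hx, rfl⟩ := h1
      exact ⟨x, rfl, hx⟩
    obtain ⟨y, hy, hyx⟩ : ∃ y ∈ J', y ≠ x := by
      apply Finset.exists_mem_ne
      omega
    have hJxy : J' = {x, y} := by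
      symm
      apply Finset.eq_of_subset_of_card_le
      · intro z hz
        simp only [Finset.mem_insert, Finset.mem_singleton] at hz
        rcases hz with rfl | rfl
        · exact hx.2
        · exact hy
      · rw [Finset.card_pair hyx.symm, hJ']
    have hwx : D.w i' x ∈ D.simp i' J' := subset_convexHull ℝ _ ⟨x, hx.2, rfl⟩
    have hwy : D.w i' y ∈ D.simp i' J' := subset_convexHull ℝ _ ⟨y, hy, rfl⟩
    obtain ⟨a, ha⟩ := h.lat_tri (hEG hwx) (h.w_lat _ _)
    obtain ⟨b, hb⟩ := h.lat_tri (hEG hwy) (h.w_lat _ _)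
    refine ⟨a, b, ?_, by rw [hx.1, ha], by rw [← hb]; exact hwy, ?_⟩
    · rintro rfl
      exact hyx (D.w_inj i' (hb.trans ha.symm))
    · rw [simp, hJxy, ← ha, ← hb]
      simp [Set.image_pair]
  obtain ⟨a, b, hab, hpa, hbE, hEe⟩ := edge E hE hEG hpE
  obtain ⟨a', b', hab', hpa', hbE', hEe'⟩ := edge E' hE' hEG' hpE'
  have haa : a = a' := D.w_inj i (hpa.symm.trans hpa')
  subst haa
  have hbb : b ≠ b' := by
    rintro rfl
    exact hne (hEe.trans hEe'.symm)
  rw [integerAngle, AddSubgroup.relIndex_eq_one]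
  set H := AddSubgroup.closure {v : V3 | v ∈ intLattice ∧ (p + v ∈ ray p E ∨ p + v ∈ ray p E')}
    with hH
  have h1 : D.w i b - D.w i a ∈ H := by
    apply AddSubgroup.subset_closure
    refine ⟨sub_mem (h.w_lat _ _) (h.w_lat _ _), Or.inl ⟨D.w i b, hbE, 1, zero_le_one, ?_⟩⟩
    rw [hpa]
    simp
  have h2 : D.w i b' - D.w i a ∈ H := by
    apply AddSubgroup.subset_closure
    refine ⟨sub_mem (h.w_lat _ _) (h.w_lat _ _), Or.inr ⟨D.w i b', hbE', 1, zero_le_one, ?_⟩⟩
    rw [hpa]
    simp
  refine h.cellLattice_le' i H ![a, b, b'] ?_ ?_ ?_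
  · intro x y hxy
    fin_cases x <;> fin_cases y <;> simp_all
  · simpa using h1
  · simpa using h2

end LatData

/-- two unimodular simplicial sails with the same combinatorial structure and the same integer
distances are related by an invariant preserving homeomorphism -/
theorem invariantPreserving {I V : Type} (D D' : SailData I V) (dist : I → ℕ) (h : LatData D dist)
    (h' : LatData D' dist) (hv : D.vert = D'.vert) (F F' : Planes) (s s' : Fin 3 → ℤˣ)
    (hK : hull F s = D.K) (hK' : hull F' s' = D'.K) (hS : sail F s = ⋃ i, D.tri i)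
    (hS' : sail F' s' = ⋃ i, D'.tri i) :
    InvariantPreserving F s F' s' (D.homeo D' hv _ _ hS hS') := by
  have face : ∀ G, IsCell (hull F s) 2 G → ∃ i, G = D.tri i ∧
      img (D.homeo D' hv _ _ hS hS') G = D'.tri i := by
    intro G hG
    rw [hK] at hG
    obtain ⟨i, J, hJ, rfl⟩ := D.isCell_iff.mp hG
    have hJu : J = Finset.univ := by
      apply Finset.eq_univ_of_card
      rw [hJ]
      simp
    subst hJu
    refine ⟨i, D.simp_univ i, ?_⟩
    rw [D.img_simp D' hv _ _ hS hS', D'.simp_univ]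
  have cellsub : ∀ k G, IsCell (hull F s) k G → G ⊆ sail F s := by
    intro k G hG
    rw [hK] at hG
    obtain ⟨i, J, hJ, rfl⟩ := D.isCell_iff.mp hG
    exact D.simp_sub _ hS i J
  have hcell : ∀ k : ℕ, ∀ G ⊆ sail F s, IsCell (hull F s) k G ↔
      IsCell (hull F' s') k (img (D.homeo D' hv _ _ hS hS') G) := by
    intro k G hG
    rw [hK, hK']
    exact D.cell_iff D' hv _ _ hS hS' k G hG
  refine ⟨hcell, ?_, ?_, ?_, ?_⟩
  · intro G hG n
    obtain ⟨i, h1, h2⟩ := face G hG
    rw [h2, h1, h.area_iff, h'.area_iff]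
  · intro G hG n
    obtain ⟨i, h1, h2⟩ := face G hG
    rw [h2, h1, h.distance_iff, h'.distance_iff]
  · intro E hE
    rw [hK] at hE
    obtain ⟨i, J, hJ, rfl⟩ := D.isCell_iff.mp hE
    rw [D.img_simp D' hv _ _ hS hS', h.length_simp, h'.length_simp]
  · intro G E E' p hG hE hE' hp hEG hEG' hne hpE hpE'
    have hsub : ∀ {A B : Set V3}, A ⊆ B → img (D.homeo D' hv _ _ hS hS') A ⊆
        img (D.homeo D' hv _ _ hS hS') B := by
      rintro A B hAB _ ⟨x, hx, rfl⟩
      exact ⟨x, hAB hx, rfl⟩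
    have e1 : integerAngle G p E E' = 1 := by
      rw [hK] at hG hE hE' hp
      exact h.angle_eq_one hG hE hE' hp hEG hEG' hne hpE hpE'
    rw [e1]
    symm
    have hp' : img (D.homeo D' hv _ _ hS hS') {(p : V3)} =
        {((D.homeo D' hv _ _ hS hS' p : sail F' s') : V3)} := by
      ext y
      constructor
      · rintro ⟨x, hx, rfl⟩
        have : x = p := Subtype.ext hx
        rw [this]
        rfl
      · rintro rfl
        exact ⟨p, rfl, rfl⟩
    have g1 := (hcell 2 G (cellsub _ _ hG)).mp hG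
    have g2 := (hcell 1 E (cellsub _ _ hE)).mp hE
    have g3 := (hcell 1 E' (cellsub _ _ hE')).mp hE'
    have g4 := (hcell 0 _ (cellsub _ _ hp)).mp hp
    rw [hp'] at g4
    have hne' : img (D.homeo D' hv _ _ hS hS') E ≠ img (D.homeo D' hv _ _ hS hS') E' := by
      intro h0
      exact hne (SailData.img_injective _ (D.homeo D' hv _ _ hS hS').injective
        (cellsub _ _ hE) (cellsub _ _ hE') h0)
    rw [hK'] at g1 g2 g3 g4
    exact h'.angle_eq_one g1 g2 g3 g4 (hsub hEG) (hsub hEG') hne' ⟨p, hpE, rfl⟩ ⟨p, hpE', rfl⟩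

end Pool.Agent.H476R2
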