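import Pool.Agent.H476R2.SysData

namespace Pool.Agent.H476R2

open Set Matrix Filter Topology

namespace Sys

variable (Y : Sys)

/-- the sum of the absolute values of the coordinates on a cone -/
noncomputable def ht (s : Fin 3 → ℤˣ) : V3 →ₗ[ℝ] ℝ := ∑ i, (((s i : ℤ) : ℝ)) • Y.L i

theorem ht_apply (s : Fin 3 → ℤˣ) (x : V3) : Y.ht s x = ∑ i, ((s i : ℤ) : ℝ) * Y.L i x := by
  simp [ht]

theorem closure_cone {s : Fin 3 → ℤˣ} {x : V3} (hx : x ∈ closure (cone Y.planes s)) (i : Fin 3) :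
    0 ≤ ((s i : ℤ) : ℝ) * Y.L i x := by
  have hcl : IsClosed {x : V3 | 0 ≤ ((s i : ℤ) : ℝ) * Y.L i x} :=
    isClosed_le continuous_const
      (continuous_const.mul (LinearMap.continuous_of_finiteDimensional _))
  exact closure_minimal (fun x hx => (hx i).le) hcl hx

theorem abs_unit_mul (u : ℤˣ) (x : ℝ) : |((u : ℤ) : ℝ) * x| = |x| := by
  rcases Int.units_eq_one_or u with h | h <;> simp [h]

theorem convex_cone (s : Fin 3 → ℤˣ) : Convex ℝ (cone Y.planes s) := by
  intro x hx y hy a b ha hb hab i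
  have h1 := hx i
  have h2 := hy i
  rw [map_add, map_smul, map_smul, smul_eq_mul, smul_eq_mul]
  have e : ((s i : ℤ) : ℝ) * (a * Y.planes.form i x + b * Y.planes.form i y) =
    a * (((s i : ℤ) : ℝ) * Y.planes.form i x) + b * (((s i : ℤ) : ℝ) * Y.planes.form i y) := by ring
  rw [e]
  rcases eq_or_lt_of_le ha with h | h
  · have hb1 : b = 1 := by linarith
    rw [← h, hb1]
    simpa using h2
  · have := mul_pos h h1
    have := mul_nonneg hb h2.le
    linarith

/-- the height is at least one on the hull -/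
theorem one_le_ht (hN : ∀ z : Fin 3 → ℤ, z ≠ 0 → 1 ≤ |∏ i, Y.L i (ic z)|) (s : Fin 3 → ℤˣ)
    {x : V3} (hx : x ∈ closure (hull Y.planes s)) : 1 ≤ Y.ht s x := by
  have hcl : IsClosed {x : V3 | 1 ≤ Y.ht s x} :=
    isClosed_le continuous_const (LinearMap.continuous_of_finiteDimensional _)
  have hconv : Convex ℝ {x : V3 | 1 ≤ Y.ht s x} := by
    intro x hx y hy a b ha hb hab
    have h1 : 1 ≤ Y.ht s x := hx
    have h2 : 1 ≤ Y.ht s y := hy
    show 1 ≤ Y.ht s (a • x + b • y)
    rw [map_add, map_smul, map_smul, smul_eq_mul, smul_eq_mul]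
    nlinarith
  refine closure_minimal (convexHull_min ?_ hconv) hcl hx
  rintro y ⟨⟨hy1, hy2⟩, hy3⟩
  obtain ⟨z, rfl⟩ := exists_ic hy2
  have hz : z ≠ 0 := by
    rintro rfl
    apply hy3
    funext k
    simp [ic]
  have h1 := hN z hz
  have h2 := Y.closure_cone hy1
  show 1 ≤ Y.ht s (ic z)
  rw [ht_apply]
  by_contra hlt
  push Not at hlt
  have h3 : ∀ i, |Y.L i (ic z)| < 1 := by
    intro i
    rw [← abs_unit_mul (s i), abs_of_nonneg (h2 i)]
    refine lt_of_le_of_lt ?_ hlt
    exact Finset.single_le_sum (f := fun i => ((s i : ℤ) : ℝ) * Y.L i (ic z)) (fun j _ => h2 j)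
      (Finset.mem_univ i)
  rw [Finset.abs_prod, Fin.prod_univ_three] at h1
  have a0 := abs_nonneg (Y.L 0 (ic z))
  have a1 := abs_nonneg (Y.L 1 (ic z))
  have a2 := abs_nonneg (Y.L 2 (ic z))
  have b0 := h3 0
  have b1 := h3 1
  have b2 := h3 2
  have h4 : |Y.L 0 (ic z)| * |Y.L 1 (ic z)| < 1 := by nlinarith
  have h5 : |Y.L 0 (ic z)| * |Y.L 1 (ic z)| * |Y.L 2 (ic z)| < 1 := by
    have := mul_nonneg a0 a1
    nlinarith
  linarith

theorem hull_rho (s : Fin 3 → ℤˣ) (g : ℤ × ℤ) {x : V3} (hx : x ∈ closure (hull Y.planes s)) :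
    actL (Y.rho g) x ∈ closure (hull Y.planes s) := by
  have hcone : ∀ x ∈ cone Y.planes s, actL (Y.rho g) x ∈ cone Y.planes s := by
    intro x hx i
    have h1 : Y.planes.form i (actL (Y.rho g) x) = Y.chi i g * Y.planes.form i x := Y.L_rho i g x
    rw [h1]
    have h2 := mul_pos (Y.chi_pos i g) (hx i)
    linarith [h2, show Y.chi i g * (((s i : ℤ) : ℝ) * Y.planes.form i x) =
      ((s i : ℤ) : ℝ) * (Y.chi i g * Y.planes.form i x) by ring]
  have hcont : Continuous (actL (Y.rho g)) := LinearMap.continuous_of_finiteDimensional _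
  have hhull : ∀ x ∈ hull Y.planes s, actL (Y.rho g) x ∈ hull Y.planes s := by
    intro x hx
    have h1 : actL (Y.rho g) x ∈ actL (Y.rho g) '' (hull Y.planes s) := ⟨x, hx, rfl⟩
    rw [hull, LinearMap.image_convexHull] at h1
    refine convexHull_mono ?_ h1
    rintro _ ⟨y, ⟨⟨hy1, hy2⟩, hy3⟩, rfl⟩
    refine ⟨⟨map_mem_closure hcont hy1 hcone, actL_lat _ hy2⟩, ?_⟩
    intro h0
    apply hy3
    have h2 : actL (Y.rho g) y = 0 := h0
    have h3 := actL_inv_self (Y.rho g) y
    rw [h2, map_zero] at h3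
    exact h3.symm
  exact map_mem_closure hcont hx hhull

/-- the closed hull does not meet the planes -/
theorem hull_sub_cone (hN : ∀ z : Fin 3 → ℤ, z ≠ 0 → 1 ≤ |∏ i, Y.L i (ic z)|) (s : Fin 3 → ℤˣ)
    {x : V3} (hx : x ∈ closure (hull Y.planes s)) : x ∈ cone Y.planes s := by
  have h0 : ∀ i, 0 ≤ ((s i : ℤ) : ℝ) * Y.L i x := by
    have h1 : closure (hull Y.planes s) ⊆ closure (cone Y.planes s) := by
      apply closure_minimal _ isClosed_closure
      apply convexHull_min _ (Y.convex_cone s).closure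
      exact fun y hy => hy.1.1
    exact fun i => Y.closure_cone (h1 hx) i
  by_contra hcon
  obtain ⟨k, hk⟩ : ∃ k, Y.L k x = 0 := by
    by_contra h
    push Not at h
    apply hcon
    intro i
    refine lt_of_le_of_ne (h0 i) fun h1 => ?_
    rcases mul_eq_zero.mp h1.symm with h2 | h2
    · rcases Int.units_eq_one_or (s i) with h3 | h3 <;> simp [h3] at h2
    · exact h i h2
  obtain ⟨a, b, hab⟩ := Y.contr k
  have hchi : ∀ j (n : ℕ), Y.chi j (n * a, n * b) = (Y.al j ^ a * Y.be j ^ b) ^ n := by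
    intro j n
    rw [chi, mul_pow, ← zpow_natCast, ← zpow_natCast, ← _root_.zpow_mul, ← _root_.zpow_mul]
    simp only [mul_comm]
  have hlim : Tendsto (fun n : ℕ => ∑ j, ((s j : ℤ) : ℝ) * (Y.chi j (n * a, n * b) * Y.L j x)) atTop
      (𝓝 (∑ j : Fin 3, (0 : ℝ))) := by
    apply tendsto_finsetSum
    intro j _
    by_cases hj : j = k
    · subst hj
      simp only [hk, mul_zero]
      exact tendsto_const_nhds
    · have h1 : Tendsto (fun n : ℕ => (Y.al j ^ a * Y.be j ^ b) ^ n) atTop (𝓝 0) :=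
        tendsto_pow_atTop_nhds_zero_of_lt_one
          (mul_pos (zpow_pos (Y.alpos j) _) (zpow_pos (Y.bepos j) _)).le (hab j hj)
      have h2 : Tendsto (fun n : ℕ => ((s j : ℤ) : ℝ) * (Y.chi j (n * a, n * b) * Y.L j x)) atTop
          (𝓝 (((s j : ℤ) : ℝ) * (0 * Y.L j x))) := by
        simp only [hchi]
        exact (h1.mul_const _).const_mul _
      simpa using h2
  simp only [Finset.sum_const_zero] at hlim
  obtain ⟨n, hn⟩ := (hlim.eventually (gt_mem_nhds (zero_lt_one))).exists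
  have h3 := Y.one_le_ht hN s (Y.hull_rho s (n * a, n * b) hx)
  rw [ht_apply] at h3
  simp only [L_rho] at h3
  linarith

theorem smul_cone (s : Fin 3 → ℤˣ) {x : V3} (hx : x ∈ cone Y.planes s) {t : ℝ} (ht : 0 < t) :
    t • x ∈ cone Y.planes s := by
  intro i
  rw [map_smul, smul_eq_mul]
  have := mul_pos ht (hx i)
  linarith [show t * (((s i : ℤ) : ℝ) * Y.planes.form i x) =
    ((s i : ℤ) : ℝ) * (t * Y.planes.form i x) by ring]

theorem open_cone (s : Fin 3 → ℤˣ) : IsOpen (cone Y.planes s) := by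
  have h1 : cone Y.planes s = ⋂ i, {x | 0 < ((s i : ℤ) : ℝ) * Y.planes.form i x} := by
    ext x
    simp [cone]
  rw [h1]
  apply isOpen_iInter_of_finite
  intro i
  exact isOpen_lt continuous_const
    (continuous_const.mul (LinearMap.continuous_of_finiteDimensional _))

/-- far points of a ray in the open cone lie in the hull -/
theorem exists_mem_hull (s : Fin 3 → ℤˣ) {p : V3} (hp : p ∈ cone Y.planes s) :
    ∃ T : ℝ, 0 < T ∧ T • p ∈ hull Y.planes s := by
  obtain ⟨ε, hε, hball⟩ := Metric.isOpen_iff.mp (Y.open_cone s) p hp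
  obtain ⟨T, hT⟩ : ∃ T : ℝ, 1 / ε < T := exists_gt _
  have hT0 : 0 < T := lt_trans (by positivity) hT
  have hTε : 1 < T * ε := by
    rw [div_lt_iff₀ hε] at hT
    exact hT
  refine ⟨T, hT0, ?_⟩
  have h1 : T • p ∈ Set.pi Set.univ
      (fun i => convexHull ℝ {((⌊T * p i⌋ : ℤ) : ℝ), ((⌊T * p i⌋ : ℤ) : ℝ) + 1}) := by
    intro i _
    show T * p i ∈ convexHull ℝ {((⌊T * p i⌋ : ℤ) : ℝ), ((⌊T * p i⌋ : ℤ) : ℝ) + 1}
    rw [convexHull_pair, segment_eq_Icc (by linarith)]
    exact ⟨Int.floor_le _, (Int.lt_floor_add_one _).le⟩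
  rw [← convexHull_pi] at h1
  refine convexHull_mono ?_ h1
  intro z hz
  have hz1 : ∀ i, z i = ((⌊T * p i⌋ : ℤ) : ℝ) ∨ z i = ((⌊T * p i⌋ : ℤ) : ℝ) + 1 := by
    intro i
    simpa using hz i (mem_univ i)
  have hzl : z ∈ intLattice := by
    have : ∀ i, ∃ n : ℤ, z i = (n : ℝ) := by
      intro i
      rcases hz1 i with h | h
      · exact ⟨_, h⟩
      · exact ⟨⌊T * p i⌋ + 1, by rw [h]; push_cast; ring⟩
    choose n hn using this
    exact ⟨n, hn⟩
  have hzc : z ∈ cone Y.planes s := by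
    have h2 : (1 / T) • z ∈ cone Y.planes s := by
      apply hball
      rw [Metric.mem_ball, dist_pi_lt_iff hε]
      intro i
      rw [Real.dist_eq, Pi.smul_apply, smul_eq_mul]
      have h3 : 1 / T * z i - p i = (z i - T * p i) / T := by
        field_simp
      rw [h3, abs_div, abs_of_pos hT0, div_lt_iff₀ hT0]
      have h4 : |z i - T * p i| ≤ 1 := by
        rw [abs_le]
        have h5 := Int.floor_le (T * p i)
        have h6 := Int.lt_floor_add_one (T * p i)
        rcases hz1 i with h | h <;> rw [h] <;> constructor <;> linarith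
      linarith
    have h3 := Y.smul_cone s h2 hT0
    rw [smul_smul, mul_one_div_cancel hT0.ne', one_smul] at h3
    exact h3
  refine ⟨⟨subset_closure hzc, hzl⟩, ?_⟩
  rintro rfl
  have := hzc 0
  simp at this

/-- every ray of the open cone meets the sail -/
theorem exists_mem_sail (hN : ∀ z : Fin 3 → ℤ, z ≠ 0 → 1 ≤ |∏ i, Y.L i (ic z)|) (s : Fin 3 → ℤˣ)
    {p : V3} (hp : p ∈ cone Y.planes s) : ∃ t : ℝ, 0 < t ∧ t • p ∈ sail Y.planes s := by
  obtain ⟨T, hT0, hT⟩ := Y.exists_mem_hull s hp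
  set A : Set ℝ := {t | 0 ≤ t ∧ t • p ∈ closure (hull Y.planes s)} with hA
  have hne : A.Nonempty := ⟨T, hT0.le, subset_closure hT⟩
  have hbdd : BddBelow A := ⟨0, fun t ht => ht.1⟩
  have hcl : IsClosed A := by
    apply IsClosed.inter
    · exact isClosed_Ici
    · exact isClosed_closure.preimage (by fun_prop : Continuous fun t : ℝ => t • p)
  have hmem := hcl.csInf_mem hne hbdd
  set t0 := sInf A with ht0
  have ht0pos : 0 < t0 := by
    refine lt_of_le_of_ne hmem.1 fun h => ?_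
    have h1 := Y.one_le_ht hN s hmem.2
    rw [← h, zero_smul, map_zero] at h1
    linarith
  refine ⟨t0, ht0pos, ?_⟩
  refine ⟨hmem.2, fun hint => ?_⟩
  have hopen : IsOpen {t : ℝ | t • p ∈ interior (hull Y.planes s)} :=
    isOpen_interior.preimage (by fun_prop : Continuous fun t : ℝ => t • p)
  have h1 : {t : ℝ | t • p ∈ interior (hull Y.planes s)} ∈ 𝓝 t0 := hopen.mem_nhds hint
  obtain ⟨l, r, hr, hr2⟩ := (mem_nhds_iff_exists_Ioo_subset.mp h1)
  obtain ⟨t, ht1, ht2⟩ := exists_between (max_lt hr.1 ht0pos)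
  have h3 : t ∈ A := by
    refine ⟨(le_max_right _ _).trans ht1.le, ?_⟩
    apply subset_closure
    apply interior_subset
    exact hr2 ⟨lt_of_le_of_lt (le_max_left _ _) ht1, ht2.trans hr.2⟩
  exact absurd (csInf_le hbdd h3) (not_le.mpr ht2)

/-- the cone over the continued fraction is the complement of the three planes -/
theorem cover (hN : ∀ z : Fin 3 → ℤ, z ≠ 0 → 1 ≤ |∏ i, Y.L i (ic z)|) (x : V3) :
    (∃ t : ℝ, 0 < t ∧ t • x ∈ fraction Y.planes) ↔ ∀ i, Y.L i x ≠ 0 := by
  constructor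
  · rintro ⟨t, ht, hx⟩ i h0
    rw [fraction, mem_iUnion] at hx
    obtain ⟨s, hs⟩ := hx
    have h1 := Y.hull_sub_cone hN s hs.1 i
    have h2 : Y.planes.form i (t • x) = 0 := by
      rw [map_smul]
      have : Y.planes.form i x = 0 := h0
      rw [this, smul_zero]
    rw [h2, mul_zero] at h1
    exact lt_irrefl _ h1
  · intro h
    classical
    let s : Fin 3 → ℤˣ := fun i => if 0 < Y.L i x then 1 else -1
    have hs : x ∈ cone Y.planes s := by
      intro i
      show 0 < ((s i : ℤ) : ℝ) * Y.L i x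
      by_cases h1 : 0 < Y.L i x
      · simp [s, h1]
      · have h2 : Y.L i x < 0 := lt_of_le_of_ne (not_lt.mp h1) (h i)
        simp [s, h1]
        exact h2
    obtain ⟨t, ht, hmem⟩ := Y.exists_mem_sail hN s hs
    exact ⟨t, ht, mem_iUnion.mpr ⟨s, hmem⟩⟩

end Sys

/-- a linear form vanishing on the kernel of another is a multiple of it -/
theorem exists_smul_of_ker {L M : V3 →ₗ[ℝ] ℝ} (hL : L ≠ 0) (h : LinearMap.ker L ≤ LinearMap.ker M) :
    ∃ c : ℝ, M = c • L := by
  obtain ⟨v, hv⟩ := LinearMap.surjective hL 1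
  refine ⟨M v, LinearMap.ext fun x => ?_⟩
  have h1 : x - L x • v ∈ LinearMap.ker L := by
    rw [LinearMap.mem_ker, map_sub, map_smul, hv]
    simp
  have h2 := h h1
  rw [LinearMap.mem_ker, map_sub, map_smul, sub_eq_zero] at h2
  rw [h2, LinearMap.smul_apply, smul_eq_mul, smul_eq_mul, mul_comm]

theorem ker_le_of_union {L : V3 →ₗ[ℝ] ℝ} {M : Fin 3 → (V3 →ₗ[ℝ] ℝ)}
    (h : ∀ x, L x = 0 → ∃ j, M j x = 0) : ∃ j, LinearMap.ker L ≤ LinearMap.ker (M j) := by
  have h1 : ⋃ j, (((LinearMap.ker (M j)).comap (LinearMap.ker L).subtype :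
      Submodule ℝ (LinearMap.ker L)) : Set (LinearMap.ker L)) = Set.univ := by
    rw [eq_univ_iff_forall]
    rintro ⟨x, hx⟩
    obtain ⟨j, hj⟩ := h x hx
    exact mem_iUnion.mpr ⟨j, hj⟩
  obtain ⟨j, hj⟩ := Subspace.exists_eq_top_of_iUnion_eq_univ h1
  refine ⟨j, fun x hx => ?_⟩
  have h2 : (⟨x, hx⟩ : LinearMap.ker L) ∈ ((LinearMap.ker (M j)).comap
      (LinearMap.ker L).subtype : Submodule ℝ (LinearMap.ker L)) := by
    rw [hj]
    exact Submodule.mem_top
  exact h2

/-- equivalent systems have proportional norm forms -/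
theorem norm_of_equivalent (Y Y' : Sys)
    (hN : ∀ z : Fin 3 → ℤ, z ≠ 0 → 1 ≤ |∏ i, Y.L i (ic z)|)
    (hN' : ∀ z : Fin 3 → ℤ, z ≠ 0 → 1 ≤ |∏ i, Y'.L i (ic z)|) (g : GL (Fin 3) ℤ)
    (hg : act g '' fraction Y.planes = fraction Y'.planes) :
    ∃ c : ℝ, ∀ x, ∏ i, Y'.L i (actM g.1 x) = c * ∏ i, Y.L i x := by
  have hact : ∀ x, act g x = actM g.1 x := fun x => rfl
  have hinv : ∀ x, actM (g⁻¹).1 (actM g.1 x) = x := by
    intro x
    rw [← actM_mul]
    have : (g⁻¹).1 * g.1 = 1 := by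
      have := g.inv_mul
      exact this
    rw [this]
    simp [actM]
  have key : ∀ x, (∀ i, Y.L i x ≠ 0) ↔ ∀ i, Y'.L i (actM g.1 x) ≠ 0 := by
    intro x
    rw [← Y.cover hN, ← Y'.cover hN']
    constructor
    · rintro ⟨t, ht, hx⟩
      refine ⟨t, ht, ?_⟩
      rw [← map_smul, ← hact, ← hg]
      exact ⟨_, hx, rfl⟩
    · rintro ⟨t, ht, hx⟩
      refine ⟨t, ht, ?_⟩
      rw [← map_smul, ← hg] at hx
      obtain ⟨y, hy, hxy⟩ := hx
      have h1 : y = t • x := by
        rw [← hinv y, ← hinv (t • x), ← hact y, hxy]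
      rw [← h1]
      exact hy
  have hne : ∀ i, Y.L i ≠ 0 := fun i => Y.ind.ne_zero i
  have h1 : ∀ i, ∃ j, LinearMap.ker (Y.L i) ≤ LinearMap.ker ((Y'.L j).comp (actM g.1)) := by
    intro i
    apply ker_le_of_union
    intro x hx
    by_contra hcon
    push Not at hcon
    exact (key x).mpr hcon i hx
  choose π hπ using h1
  have h2 : ∀ i, ∃ c : ℝ, (Y'.L (π i)).comp (actM g.1) = c • Y.L i := fun i =>
    exists_smul_of_ker (hne i) (hπ i)
  choose c hc using h2
  have hπinj : Function.Injective π := by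
    intro i i' hii
    by_contra hne'
    have h3 : c i • Y.L i = c i' • Y.L i' := by rw [← hc, ← hc, hii]
    have hci : c i ≠ 0 := by
      intro h0
      have h4 := hc i
      rw [h0, zero_smul] at h4
      have h5 : Y'.L (π i) = 0 := by
        ext1 x
        apply LinearMap.ext
        intro r
        have hgi : ∀ x, actM g.1 (actM (g⁻¹).1 x) = x := by
          intro x
          rw [← actM_mul]
          have : g.1 * (g⁻¹).1 = 1 := g.mul_inv
          rw [this]
          simp [actM]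
        have h6 := LinearMap.congr_fun h4 (actM (g⁻¹).1 (Pi.single x r))
        rw [LinearMap.comp_apply, hgi] at h6
        simpa using h6
      exact Y'.ind.ne_zero _ h5
    have h4 := Y.ind
    rw [Fintype.linearIndependent_iff] at h4
    have h5 := h4 (fun k => if k = i then c i else if k = i' then - c i' else 0) (by
      rw [Finset.sum_eq_add i i' hne']
      · simp only [if_true, if_neg (Ne.symm hne')]
        rw [h3, neg_smul, add_neg_cancel]
      · rintro k _ ⟨hk1, hk2⟩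
        simp [hk1, hk2]
      · intro h; exact absurd (Finset.mem_univ _) h
      · intro h; exact absurd (Finset.mem_univ _) h) i
    simp at h5
    exact hci h5
  have hπbij : Function.Bijective π := Finite.injective_iff_bijective.mp hπinj
  refine ⟨∏ i, c i, fun x => ?_⟩
  rw [← Finset.prod_mul_distrib, ← Function.Bijective.prod_comp hπbij]
  refine Finset.prod_congr rfl fun i _ => ?_
  have := LinearMap.congr_fun (hc i) x
  simpa using this

end Pool.Agent.H476R2
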