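import Pool.Agent.H476R2.SailDefs

/-!
Abstract theory of a simplicial sail: a locally finite family of triangles cut out of the convex
hull of a set of lattice points of an open convex cone by supporting functionals.
-/

namespace Pool.Agent.H476R2

open Set

/-- abstract data describing a simplicial sail -/
structure SailData (I V : Type) where
  C : Set V3
  P : Set V3
  pos : V → V3
  vert : I → Fin 3 → V
  f : I → (V3 →ₗ[ℝ] ℝ)
  Copen : IsOpen C
  Cadd : ∀ x ∈ C, ∀ y ∈ C, x + y ∈ C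
  Csmul : ∀ x ∈ C, ∀ t : ℝ, 0 < t → t • x ∈ C
  PC : P ⊆ C
  Pnat : ∀ x ∈ P, ∀ n : ℕ, 0 < n → (n : ℝ) • x ∈ P
  posP : ∀ v, pos v ∈ P
  pos_inj : Function.Injective pos
  fpos : ∀ i, ∀ x ∈ C, 0 < f i x
  fvert : ∀ i j, f i (pos (vert i j)) = 1
  fP : ∀ i, ∀ x ∈ P, 1 ≤ f i x
  fP_eq : ∀ i, ∀ x ∈ P, f i x = 1 → ∃ j, x = pos (vert i j)
  basis : ∀ i, LinearIndependent ℝ (fun j => pos (vert i j))
  nbr : ∀ i j, ∃ i', (∀ k, k ≠ j → ∃ l, vert i k = vert i' l) ∧ (∀ l, vert i j ≠ vert i' l)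
  proper : ∀ p ∈ C, ∀ B : ℝ, {i | f i p ≤ B}.Finite
  bd : ∀ p ∈ closure C, p ∉ C → ∃ i, f i p < 1
  nonempty : Nonempty I

namespace SailData

variable {I V : Type} (D : SailData I V)

/-- the vertices of the triangles -/
def w (i : I) (j : Fin 3) : V3 := D.pos (D.vert i j)

noncomputable def bas (i : I) : Module.Basis (Fin 3) ℝ V3 :=
  basisOfLinearIndependentOfCardEqFinrank (D.basis i) (by simp)

theorem bas_apply (i : I) (j : Fin 3) : D.bas i j = D.w i j := by
  simp [bas, w]

theorem sum_repr (i : I) (p : V3) : p = ∑ j, (D.bas i).repr p j • D.w i j := by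
  conv_lhs => rw [← (D.bas i).sum_repr p]
  simp only [bas_apply]

theorem repr_w (i : I) (j k : Fin 3) : (D.bas i).repr (D.w i j) k = if j = k then 1 else 0 := by
  rw [← bas_apply, Module.Basis.repr_self, Finsupp.single_apply]

theorem f_eq (i i' : I) (p : V3) :
    D.f i' p = ∑ j, (D.bas i).repr p j * D.f i' (D.w i j) := by
  conv_lhs => rw [D.sum_repr i p]
  rw [map_sum]
  simp

theorem f_self (i : I) (p : V3) : D.f i p = ∑ j, (D.bas i).repr p j := by
  rw [D.f_eq i i p]
  refine Finset.sum_congr rfl fun j _ => ?_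
  rw [show D.f i (D.w i j) = 1 from D.fvert i j, mul_one]

theorem f_w_eq_one {i i' : I} {j : Fin 3} (h : D.f i' (D.w i j) = 1) :
    ∃ l, D.vert i j = D.vert i' l := by
  obtain ⟨l, hl⟩ := D.fP_eq i' _ (D.posP _) h
  exact ⟨l, D.pos_inj hl⟩

theorem exists_min {p : V3} (hp : p ∈ D.C) : ∃ i, ∀ i', D.f i p ≤ D.f i' p := by
  obtain ⟨i0⟩ := D.nonempty
  have hfin := D.proper p hp (D.f i0 p)
  obtain ⟨i, hi, hmin⟩ := Set.exists_min_image {i | D.f i p ≤ D.f i0 p} (fun i => D.f i p) hfin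
    ⟨i0, show D.f i0 p ≤ D.f i0 p from le_refl _⟩
  refine ⟨i, fun i' => ?_⟩
  by_cases h : D.f i' p ≤ D.f i0 p
  · exact hmin i' h
  · exact le_trans hi (le_of_lt (not_le.mp h))

theorem one_lt_of_nbr {i i' : I} {j : Fin 3} (h2 : ∀ l, D.vert i j ≠ D.vert i' l) :
    1 < D.f i' (D.w i j) := by
  refine lt_of_le_of_ne (D.fP i' _ (D.posP _)) fun h => ?_
  obtain ⟨l, hl⟩ := D.f_w_eq_one h.symm
  exact h2 l hl

theorem repr_nonneg_of_min {p : V3} {i : I} (hmin : ∀ i', D.f i p ≤ D.f i' p) (j : Fin 3) :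
    0 ≤ (D.bas i).repr p j := by
  by_contra hneg
  push Not at hneg
  obtain ⟨i', h1, h2⟩ := D.nbr i j
  have h4 : 1 < D.f i' (D.w i j) := D.one_lt_of_nbr h2
  have h3 : D.f i' p < D.f i p := by
    rw [D.f_self i p, D.f_eq i i' p]
    have hk : ∀ k, k ≠ j → D.f i' (D.w i k) = 1 := by
      intro k hk
      obtain ⟨l, hl⟩ := h1 k hk
      have : D.w i k = D.w i' l := by simp [w, hl]
      rw [this]
      exact D.fvert i' l
    apply Finset.sum_lt_sum
    · intro k _
      by_cases hkj : k = j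
      · subst hkj
        nlinarith
      · rw [hk k hkj, mul_one]
    · exact ⟨j, Finset.mem_univ _, by nlinarith⟩
  exact absurd (hmin i') (not_le.mpr h3)

/-- the triangles -/
def tri (i : I) : Set V3 := convexHull ℝ (Set.range (D.w i))

theorem w_mem_tri (i : I) (j : Fin 3) : D.w i j ∈ D.tri i :=
  subset_convexHull ℝ _ ⟨j, rfl⟩

theorem sum_mem_tri (i : I) (c : Fin 3 → ℝ) (hc : ∀ j, 0 ≤ c j) (h1 : ∑ j, c j = 1) :
    ∑ j, c j • D.w i j ∈ D.tri i := by
  apply (convex_convexHull ℝ _).sum_mem (fun j _ => hc j) h1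
  intro j _
  exact D.w_mem_tri i j

theorem mem_tri {i : I} {p : V3} :
    p ∈ D.tri i ↔ (∀ j, 0 ≤ (D.bas i).repr p j) ∧ D.f i p = 1 := by
  constructor
  · intro hp
    have hconv : Convex ℝ {p : V3 | (∀ j, 0 ≤ (D.bas i).repr p j) ∧ D.f i p = 1} := by
      intro x hx y hy a b ha hb hab
      refine ⟨fun j => ?_, ?_⟩
      · rw [map_add, map_smul, map_smul]
        simp only [Finsupp.coe_add, Finsupp.coe_smul, Pi.add_apply, Pi.smul_apply, smul_eq_mul]
        have h1 := hx.1 j
        have h2 := hy.1 j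
        positivity
      · rw [map_add, map_smul, map_smul, hx.2, hy.2]
        simpa using hab
    refine convexHull_min ?_ hconv hp
    rintro _ ⟨j, rfl⟩
    refine ⟨fun k => ?_, D.fvert i j⟩
    rw [repr_w]
    split_ifs <;> norm_num
  · rintro ⟨h1, h2⟩
    rw [D.sum_repr i p]
    exact D.sum_mem_tri i _ h1 (by rw [← D.f_self, h2])

/-- the convex hull, described by inequalities -/
def K : Set V3 := {p | p ∈ D.C ∧ ∀ i, 1 ≤ D.f i p}

theorem C_convex : Convex ℝ D.C := by
  intro x hx y hy a b ha hb hab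
  rcases eq_or_lt_of_le ha with h | h
  · have hb1 : b = 1 := by linarith
    rw [← h, hb1]
    simpa using hy
  · rcases eq_or_lt_of_le hb with h' | h'
    · have ha1 : a = 1 := by linarith
      rw [← h', ha1]
      simpa using hx
    · exact D.Cadd _ (D.Csmul _ hx _ h) _ (D.Csmul _ hy _ h')

theorem K_convex : Convex ℝ D.K := by
  intro x hx y hy a b ha hb hab
  refine ⟨D.C_convex hx.1 hy.1 ha hb hab, fun i => ?_⟩
  rw [map_add, map_smul, map_smul, smul_eq_mul, smul_eq_mul]
  have h1 := hx.2 i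
  have h2 := hy.2 i
  nlinarith

theorem P_sub_K : D.P ⊆ D.K := fun x hx => ⟨D.PC hx, fun i => D.fP i x hx⟩

theorem smul_P {x : V3} (hx : x ∈ D.P) {t : ℝ} (ht : 1 ≤ t) : t • x ∈ convexHull ℝ D.P := by
  obtain ⟨n, hn⟩ := exists_nat_ge t
  have hn1 : (1 : ℝ) ≤ n := le_trans ht hn
  have hn0 : 0 < n := by
    have : (0 : ℝ) < n := by linarith
    exact_mod_cast this
  have h1 : x ∈ convexHull ℝ D.P := subset_convexHull ℝ _ hx
  have h2 : (n : ℝ) • x ∈ convexHull ℝ D.P := subset_convexHull ℝ _ (D.Pnat x hx n hn0)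
  rcases eq_or_lt_of_le hn1 with h | h
  · have : t = 1 := by linarith
    rw [this, one_smul]
    exact h1
  · have hd : (0 : ℝ) < n - 1 := by linarith
    have key := (convex_convexHull ℝ D.P) h1 h2 (a := (n - t) / (n - 1)) (b := (t - 1) / (n - 1))
      (div_nonneg (by linarith) hd.le) (div_nonneg (by linarith) hd.le) (by
        field_simp
        ring)
    rw [smul_smul, ← add_smul] at key
    have e : (n - t) / (n - 1) + (t - 1) / (n - 1) * n = t := by
      field_simp
      ring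
    rw [e] at key
    exact key

theorem hull_eq : convexHull ℝ D.P = D.K := by
  apply Subset.antisymm
  · exact convexHull_min D.P_sub_K D.K_convex
  · intro p hp
    obtain ⟨i, hi⟩ := D.exists_min hp.1
    have hc := D.repr_nonneg_of_min hi
    have hm := hp.2 i
    have hm0 : 0 < D.f i p := by linarith
    have e : p = ∑ j, ((D.bas i).repr p j / D.f i p) • (D.f i p • D.w i j) := by
      conv_lhs => rw [D.sum_repr i p]
      refine Finset.sum_congr rfl fun j _ => ?_
      rw [smul_smul, div_mul_cancel₀ _ hm0.ne']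
    rw [e]
    apply (convex_convexHull ℝ D.P).sum_mem
    · intro j _
      exact div_nonneg (hc j) hm0.le
    · rw [← Finset.sum_div, ← D.f_self, div_self hm0.ne']
    · intro j _
      exact D.smul_P (D.posP _) hm

theorem K_closed : IsClosed D.K := by
  rw [← closure_subset_iff_isClosed]
  intro p hp
  have h1 : p ∈ closure D.C := closure_mono (fun x hx => hx.1) hp
  have h2 : ∀ i, 1 ≤ D.f i p := by
    intro i
    have hcl : IsClosed {x : V3 | 1 ≤ D.f i x} :=
      isClosed_le continuous_const (LinearMap.continuous_of_finiteDimensional _)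
    exact closure_minimal (fun x hx => hx.2 i) hcl hp
  refine ⟨?_, h2⟩
  by_contra hC
  obtain ⟨i, hi⟩ := D.bd p h1 hC
  exact absurd (h2 i) (not_le.mpr hi)

theorem f_ne_zero (i : I) : D.f i ≠ 0 := by
  intro h
  have := D.fvert i 0
  rw [h] at this
  simp at this

theorem not_mem_interior {f : V3 →ₗ[ℝ] ℝ} (hf : f ≠ 0) {c : ℝ} {K : Set V3}
    (hK : ∀ x ∈ K, c ≤ f x) {p : V3} (hp : f p = c) : p ∉ interior K := by
  intro hint
  have h1 : p ∈ interior {x | c ≤ f x} := interior_mono hK hint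
  have hsurj : Function.Surjective f := LinearMap.surjective hf
  have hopen : IsOpenMap f := LinearMap.isOpenMap_of_finiteDimensional f hsurj
  have hcont : Continuous f := LinearMap.continuous_of_finiteDimensional _
  have h2 : {x | c ≤ f x} = f ⁻¹' (Set.Ici c) := rfl
  rw [h2, ← hopen.preimage_interior_eq_interior_preimage hcont, interior_Ici, Set.mem_preimage,
    Set.mem_Ioi, hp] at h1
  exact lt_irrefl _ h1

theorem tri_sub_K (i : I) : D.tri i ⊆ D.K := by
  apply convexHull_min _ D.K_convex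
  rintro _ ⟨j, rfl⟩
  exact D.P_sub_K (D.posP _)

theorem mem_tri_of {p : V3} {i : I} (hp : p ∈ D.K) (h : D.f i p = 1) : p ∈ D.tri i := by
  rw [mem_tri]
  refine ⟨D.repr_nonneg_of_min (fun i' => ?_), h⟩
  rw [h]
  exact hp.2 i'

theorem mem_tri_iff {p : V3} {i : I} : p ∈ D.tri i ↔ p ∈ D.K ∧ D.f i p = 1 :=
  ⟨fun h => ⟨D.tri_sub_K i h, (D.mem_tri.mp h).2⟩, fun h => D.mem_tri_of h.1 h.2⟩

theorem frontier_eq : frontier D.K = ⋃ i, D.tri i := by
  rw [D.K_closed.frontier_eq]
  ext p
  simp only [mem_sdiff, mem_iUnion]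
  constructor
  · rintro ⟨hp, hint⟩
    obtain ⟨i, hi⟩ := D.exists_min hp.1
    refine ⟨i, ?_⟩
    by_contra hcon
    apply hint
    have hm : 1 < D.f i p := by
      refine lt_of_le_of_ne (hp.2 i) fun h => ?_
      exact hcon (D.mem_tri_of hp h.symm)
    have hm0 : 0 < D.f i p := by linarith
    rw [mem_interior]
    refine ⟨(fun x => x - (1 / D.f i p) • p) ⁻¹' D.C, ?_, ?_, ?_⟩
    · intro x hx
      have hx' : x - (1 / D.f i p) • p ∈ D.C := hx
      have hpC : (1 / D.f i p) • p ∈ D.C := D.Csmul _ hp.1 _ (by positivity)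
      have e : x = (1 / D.f i p) • p + (x - (1 / D.f i p) • p) := by abel
      refine ⟨by rw [e]; exact D.Cadd _ hpC _ hx', fun i' => ?_⟩
      rw [e, map_add, map_smul, smul_eq_mul]
      have h1 := D.fpos i' _ hx'
      have h2 := hi i'
      have h3 : 1 ≤ 1 / D.f i p * D.f i' p := by
        rw [one_div, ← div_eq_inv_mul, le_div_iff₀ hm0]
        linarith
      linarith
    · exact D.Copen.preimage (by fun_prop)
    · show p - (1 / D.f i p) • p ∈ D.C
      have e : p - (1 / D.f i p) • p = (1 - 1 / D.f i p) • p := by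
        rw [sub_smul, one_smul]
      rw [e]
      apply D.Csmul _ hp.1
      rw [sub_pos, div_lt_one hm0]
      exact hm
  · rintro ⟨i, hi⟩
    rw [mem_tri_iff] at hi
    exact ⟨hi.1, not_mem_interior (D.f_ne_zero i) (fun x hx => hx.2 i) hi.2⟩

end SailData

end Pool.Agent.H476R2
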