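import Mathlib

/-!
Definitions for two-dimensional Klein continued fractions: cones, sails, their cells and the
integer invariants of the cells.
-/

namespace Pool.Agent.H476R2

open Set

/-- three-dimensional space -/
abbrev V3 := Fin 3 → ℝ

/-- the lattice `ℤ³` inside `ℝ³` -/
def intLattice : AddSubgroup V3 where
  carrier := {x | ∃ z : Fin 3 → ℤ, ∀ i, x i = (z i : ℝ)}
  add_mem' := by
    rintro x y ⟨a, ha⟩ ⟨b, hb⟩
    exact ⟨fun i => a i + b i, fun i => by simp [ha i, hb i]⟩
  zero_mem' := ⟨0, fun i => by simp⟩
  neg_mem' := by
    rintro x ⟨a, ha⟩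
    exact ⟨fun i => - a i, fun i => by simp [ha i]⟩

/-- Three planes through the origin in general position, given as the kernels of three linearly
independent linear forms. -/
structure Planes where
  form : Fin 3 → (V3 →ₗ[ℝ] ℝ)
  indep : LinearIndependent ℝ form

/-- The eight open cones cut out by the three planes, one for each choice of signs. -/
def cone (F : Planes) (s : Fin 3 → ℤˣ) : Set V3 := {x | ∀ i, 0 < ((s i : ℤ) : ℝ) * F.form i x}

/-- the convex hull of the nonzero integer points of the closed cone -/
def hull (F : Planes) (s : Fin 3 → ℤˣ) : Set V3 :=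
  convexHull ℝ ((closure (cone F s) ∩ (intLattice : Set V3)) \ {0})

/-- the sail of a cone -/
def sail (F : Planes) (s : Fin 3 → ℤˣ) : Set V3 := frontier (hull F s)

/-- the two-dimensional continued fraction: the union of the eight sails -/
def fraction (F : Planes) : Set V3 := ⋃ s, sail F s

/-- the linear map of `ℝ³` given by an element of `GL(3, ℤ)` -/
def act (g : GL (Fin 3) ℤ) (x : V3) : V3 := ((g : Matrix (Fin 3) (Fin 3) ℤ).map (Int.cast : ℤ → ℝ)).mulVec x

/-- two continued fractions are equivalent if some element of `GL(3, ℤ)` maps the union of the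
sails of one onto the union of the sails of the other -/
def Equivalent (F F' : Planes) : Prop := ∃ g : GL (Fin 3) ℤ, act g '' fraction F = fraction F'

/-- `G` is a `k`-dimensional cell of the boundary of the convex set `K`: the nonempty intersection
of `K` with a supporting plane, of affine dimension `k`. For `k = 2, 1, 0` these are the faces,
edges and vertices (as one-point sets) of the sail. -/
def IsCell (K : Set V3) (k : ℕ) (G : Set V3) : Prop :=
  ∃ (f : V3 →ₗ[ℝ] ℝ) (c : ℝ), f ≠ 0 ∧ (∀ x ∈ K, c ≤ f x) ∧ G = {x | x ∈ K ∧ f x = c} ∧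
    G.Nonempty ∧ Module.finrank ℝ (vectorSpan ℝ G) = k

/-- the lattice of the plane (or line) of `G`: the integer vectors parallel to it -/
def cellLattice (G : Set V3) : AddSubgroup V3 :=
  intLattice ⊓ (vectorSpan ℝ G).toAddSubgroup

/-- the integer length of a segment: the number of lattice points on it, minus one -/
noncomputable def integerLength (E : Set V3) : ℕ∞ := (E ∩ (intLattice : Set V3)).encard - 1

/-- the integer area of the lattice triangle with vertices `t 0, t 1, t 2`, in the plane of `G`:
the index, in the lattice of the plane, of the subgroup generated by two edge vectors at a common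
vertex -/
noncomputable def triangleArea (G : Set V3) (t : Fin 3 → V3) : ℕ :=
  (AddSubgroup.closure {t 1 - t 0, t 2 - t 0}).relIndex (cellLattice G)

/-- a triangulation of `G` into finitely many lattice triangles with disjoint interiors -/
structure IsLatticeTriangulation (G : Set V3) (T : Finset (Fin 3 → V3)) : Prop where
  lattice : ∀ t ∈ T, ∀ i, t i ∈ intLattice
  nondegenerate : ∀ t ∈ T, AffineIndependent ℝ t
  cover : (⋃ t ∈ T, convexHull ℝ (Set.range t)) = G
  disjoint : ∀ s ∈ T, ∀ t ∈ T, s ≠ t →
    Disjoint (intrinsicInterior ℝ (convexHull ℝ (Set.range s)))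
      (intrinsicInterior ℝ (convexHull ℝ (Set.range t)))

/-- `n` is the integer area of the lattice polygon `G`: the sum of the integer areas of the
triangles of a lattice triangulation -/
def HasIntegerArea (G : Set V3) (n : ℕ) : Prop :=
  ∃ T : Finset (Fin 3 → V3), IsLatticeTriangulation G T ∧ n = ∑ t ∈ T, triangleArea G t

/-- `n` is the integer distance from (the plane of) `G` to the origin: the plane is
`{x | ℓ x = c}` with `ℓ` a primitive integer linear form and `|c| = n` -/
def HasIntegerDistance (G : Set V3) (n : ℕ) : Prop :=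
  ∃ (l : Fin 3 → ℤ) (c : ℤ), (∀ d : ℤ, (∀ i, d ∣ l i) → IsUnit d) ∧
    (∀ x ∈ G, ∑ i, (l i : ℝ) * x i = (c : ℝ)) ∧ n = c.natAbs

/-- the ray from `p` through the points of `E` -/
def ray (p : V3) (E : Set V3) : Set V3 := {y | ∃ x ∈ E, ∃ t : ℝ, 0 ≤ t ∧ y = p + t • (x - p)}

/-- the integer angle at `p` between the edges `E` and `E'` of the face `G`: the index, in the
lattice of the plane of `G`, of the subgroup generated by the lattice points on the two rays -/
noncomputable def integerAngle (G : Set V3) (p : V3) (E E' : Set V3) : ℕ :=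
  (AddSubgroup.closure {v : V3 | v ∈ intLattice ∧ (p + v ∈ ray p E ∨ p + v ∈ ray p E')}).relIndex
    (cellLattice G)

/-- the image in `S'` of a subset of `S` under a map between the sets `S` and `S'` -/
def img {S S' : Set V3} (φ : S → S') (G : Set V3) : Set V3 :=
  {y | ∃ x : S, (x : V3) ∈ G ∧ ((φ x : S') : V3) = y}

/-- A homeomorphism between two sails which carries faces to faces, edges to edges and vertices to
vertices and preserves the integer areas and distances of faces, the integer lengths of edges, and
the integer angles between adjacent edges of a face. -/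
structure InvariantPreserving (F : Planes) (s : Fin 3 → ℤˣ) (F' : Planes) (s' : Fin 3 → ℤˣ)
    (φ : sail F s ≃ₜ sail F' s') : Prop where
  cell : ∀ k : ℕ, ∀ G ⊆ sail F s, IsCell (hull F s) k G ↔ IsCell (hull F' s') k (img φ G)
  area : ∀ G, IsCell (hull F s) 2 G → ∀ n, HasIntegerArea G n ↔ HasIntegerArea (img φ G) n
  distance : ∀ G, IsCell (hull F s) 2 G →
    ∀ n, HasIntegerDistance G n ↔ HasIntegerDistance (img φ G) n
  length : ∀ E, IsCell (hull F s) 1 E → integerLength E = integerLength (img φ E)
  angle : ∀ G E E' : Set V3, ∀ p : sail F s, IsCell (hull F s) 2 G → IsCell (hull F s) 1 E →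
    IsCell (hull F s) 1 E' → IsCell (hull F s) 0 {(p : V3)} → E ⊆ G → E' ⊆ G → E ≠ E' →
    (p : V3) ∈ E → (p : V3) ∈ E' →
    integerAngle G p E E' = integerAngle (img φ G) (φ p) (img φ E) (img φ E')

/-- the three planes of `F` are invariant planes of a matrix in `SL(3, ℤ)` whose characteristic
polynomial is irreducible over `ℚ`: `F` is the (periodic) continued fraction of a cubic
irrationality -/
def IsCubic (F : Planes) : Prop :=
  ∃ A : Matrix (Fin 3) (Fin 3) ℤ, A.det = 1 ∧ Irreducible (A.charpoly.map (Int.castRingHom ℚ)) ∧
    ∀ i, ∃ μ : ℝ, ∀ x, F.form i ((A.map (Int.cast : ℤ → ℝ)).mulVec x) = μ * F.form i x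

end Pool.Agent.H476R2
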