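import Pool.Agent.H476R2.Invar

namespace Pool.Agent.H476R2

open Set Matrix

/-- the linear map given by an integer matrix -/
noncomputable def actM (M : Matrix (Fin 3) (Fin 3) ℤ) : V3 →ₗ[ℝ] V3 :=
  Matrix.mulVecLin (M.map (Int.castRingHom ℝ))

theorem actM_mul (M N : Matrix (Fin 3) (Fin 3) ℤ) (x : V3) :
    actM (M * N) x = actM M (actM N x) := by
  simp only [actM, Matrix.mulVecLin_apply, Matrix.mulVec_mulVec, Matrix.map_mul]

/-- the linear map given by an integer matrix of determinant one -/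
noncomputable def actL (g : SpecialLinearGroup (Fin 3) ℤ) : V3 →ₗ[ℝ] V3 := actM g.1

/-- integer vectors as points -/
def ic (z : Fin 3 → ℤ) : V3 := fun i => (z i : ℝ)

theorem ic_mem (z : Fin 3 → ℤ) : ic z ∈ intLattice := ⟨z, fun _ => rfl⟩

theorem exists_ic {x : V3} (hx : x ∈ intLattice) : ∃ z, x = ic z := by
  obtain ⟨z, hz⟩ := hx
  exact ⟨z, funext hz⟩

theorem ic_inj : Function.Injective ic := by
  intro a b h
  funext i
  have := congrFun h i
  simpa [ic] using this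

theorem actL_ic (g : SpecialLinearGroup (Fin 3) ℤ) (z : Fin 3 → ℤ) :
    actL g (ic z) = ic ((g : Matrix (Fin 3) (Fin 3) ℤ).mulVec z) := by
  funext i
  simp [actL, actM, ic, Matrix.mulVec, dotProduct]

theorem actL_lat (g : SpecialLinearGroup (Fin 3) ℤ) {x : V3} (hx : x ∈ intLattice) :
    actL g x ∈ intLattice := by
  obtain ⟨z, rfl⟩ := exists_ic hx
  rw [actL_ic]
  exact ic_mem _

theorem actL_mul (g h : SpecialLinearGroup (Fin 3) ℤ) (x : V3) :
    actL (g * h) x = actL g (actL h x) := by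
  have h1 : (g * h).1 = g.1 * h.1 := rfl
  rw [actL, actL, actL, h1, actM_mul]

theorem actL_one (x : V3) : actL 1 x = x := by
  have h1 : (1 : SpecialLinearGroup (Fin 3) ℤ).1 = 1 := rfl
  rw [actL, h1]
  simp [actM]

theorem actL_inv_self (g : SpecialLinearGroup (Fin 3) ℤ) (x : V3) :
    actL g⁻¹ (actL g x) = x := by
  rw [← actL_mul, inv_mul_cancel, actL_one]

theorem actL_self_inv (g : SpecialLinearGroup (Fin 3) ℤ) (x : V3) :
    actL g (actL g⁻¹ x) = x := by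
  rw [← actL_mul, mul_inv_cancel, actL_one]

/-- the functional given by a covector -/
noncomputable def cov (l : Fin 3 → ℝ) : V3 →ₗ[ℝ] ℝ := ∑ k, l k • LinearMap.proj k

theorem cov_apply (l : Fin 3 → ℝ) (x : V3) : cov l x = ∑ k, l k * x k := by
  simp [cov]

theorem cov_ic (l z : Fin 3 → ℤ) : cov (ic l) (ic z) = ((∑ k, l k * z k : ℤ) : ℝ) := by
  rw [cov_apply]
  simp [ic]

/-- data of a two-triangle system -/
structure Sys where
  A : SpecialLinearGroup (Fin 3) ℤ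
  B : SpecialLinearGroup (Fin 3) ℤ
  comm : A * B = B * A
  L : Fin 3 → (V3 →ₗ[ℝ] ℝ)
  ind : LinearIndependent ℝ L
  al : Fin 3 → ℝ
  be : Fin 3 → ℝ
  alpos : ∀ i, 0 < al i
  bepos : ∀ i, 0 < be i
  LA : ∀ i x, L i (actL A x) = al i * L i x
  LB : ∀ i x, L i (actL B x) = be i * L i x
  v : Fin 3 → ℤ
  Lv : ∀ i, L i (ic v) = 1
  irr : ∀ z : Fin 3 → ℤ, z ≠ 0 → ∀ i, L i (ic z) ≠ 0
  fU : Fin 3 → ℤ
  fD : Fin 3 → ℤ
  d : ℕ
  dpos : 0 < d
  cU : Fin 3 → ℝ
  cD : Fin 3 → ℝ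
  cUpos : ∀ i, 0 < cU i
  cDpos : ∀ i, 0 < cD i
  fUc : ∀ x, cov (ic fU) x = ∑ i, cU i * L i x
  fDc : ∀ x, cov (ic fD) x = ∑ i, cD i * L i x
  fU0 : ∑ k, fU k * v k = 1
  fU1 : ∑ k, fU k * (A.1.mulVec v) k = 1
  fU2 : ∑ k, fU k * (B.1.mulVec v) k = 1
  fD0 : ∑ k, fD k * (A.1.mulVec v) k = d
  fD1 : ∑ k, fD k * (B.1.mulVec v) k = d
  fD2 : ∑ k, fD k * ((A * B).1.mulVec v) k = d
  minU : ∀ z : Fin 3 → ℤ, (∀ i, 0 < L i (ic z)) → ∑ k, fU k * z k = 1 →
    z = v ∨ z = A.1.mulVec v ∨ z = B.1.mulVec v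
  minD : ∀ z : Fin 3 → ℤ, (∀ i, 0 < L i (ic z)) → (d : ℤ) ≤ ∑ k, fD k * z k ∧
    (∑ k, fD k * z k = d → z = A.1.mulVec v ∨ z = B.1.mulVec v ∨ z = (A * B).1.mulVec v)
  contr : ∀ i, ∃ a b : ℤ, ∀ j, j ≠ i → al j ^ a * be j ^ b < 1
  mind : ∀ a b : ℤ, (∀ i, al i ^ a * be i ^ b = 1) → a = 0 ∧ b = 0
  basU : LinearIndependent ℝ ![ic v, ic (A.1.mulVec v), ic (B.1.mulVec v)]
  basD : LinearIndependent ℝ ![ic (A.1.mulVec v), ic (B.1.mulVec v), ic ((A * B).1.mulVec v)]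
  uniU : ∀ z : Fin 3 → ℤ, ∑ k, fU k * z k = 0 →
    ∃ m n : ℤ, z = m • (A.1.mulVec v - v) + n • (B.1.mulVec v - v)
  uniD : ∀ z : Fin 3 → ℤ, ∑ k, fD k * z k = 0 →
    ∃ m n : ℤ, z = m • (B.1.mulVec v - A.1.mulVec v) + n • ((A * B).1.mulVec v - A.1.mulVec v)
  primU : Prim fU
  primD : Prim fD

namespace Sys

variable (Y : Sys)

/-- the group elements -/
noncomputable def rho (g : ℤ × ℤ) : SpecialLinearGroup (Fin 3) ℤ := Y.A ^ g.1 * Y.B ^ g.2

theorem rho_add (g h : ℤ × ℤ) : Y.rho (g + h) = Y.rho g * Y.rho h := by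
  have hc : Commute Y.A Y.B := Y.comm
  have h1 : Commute (Y.B ^ g.2) (Y.A ^ h.1) := (hc.symm.zpow_zpow _ _)
  simp only [rho, Prod.fst_add, Prod.snd_add, _root_.zpow_add]
  calc Y.A ^ g.1 * Y.A ^ h.1 * (Y.B ^ g.2 * Y.B ^ h.2)
      = Y.A ^ g.1 * (Y.A ^ h.1 * Y.B ^ g.2) * Y.B ^ h.2 := by group
    _ = Y.A ^ g.1 * (Y.B ^ g.2 * Y.A ^ h.1) * Y.B ^ h.2 := by rw [h1.eq]
    _ = _ := by group

theorem rho_zero : Y.rho 0 = 1 := by simp [rho]

theorem rho_neg (g : ℤ × ℤ) : Y.rho (-g) = (Y.rho g)⁻¹ := by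
  rw [eq_inv_iff_mul_eq_one, ← rho_add]
  simp [rho_zero]

/-- the characters -/
noncomputable def chi (i : Fin 3) (g : ℤ × ℤ) : ℝ := Y.al i ^ g.1 * Y.be i ^ g.2

theorem chi_pos (i : Fin 3) (g : ℤ × ℤ) : 0 < Y.chi i g :=
  mul_pos (zpow_pos (Y.alpos i) _) (zpow_pos (Y.bepos i) _)

theorem L_zpow {g : SpecialLinearGroup (Fin 3) ℤ} {i : Fin 3} {c : ℝ} (hc : 0 < c)
    (h : ∀ x, Y.L i (actL g x) = c * Y.L i x) (n : ℤ) (x : V3) :
    Y.L i (actL (g ^ n) x) = c ^ n * Y.L i x := by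
  have hinv : ∀ x, Y.L i (actL g⁻¹ x) = c⁻¹ * Y.L i x := by
    intro x
    have := h (actL g⁻¹ x)
    rw [actL_self_inv] at this
    rw [this, inv_mul_cancel_left₀ hc.ne']
  induction n using Int.induction_on generalizing x with
  | zero => simp [actL_one]
  | succ n ih =>
    rw [_root_.zpow_add_one, zpow_add_one₀ hc.ne', actL_mul, ih, h]
    ring
  | pred n ih =>
    rw [_root_.zpow_sub_one, zpow_sub_one₀ hc.ne', actL_mul, ih, hinv]
    ring

theorem L_rho (i : Fin 3) (g : ℤ × ℤ) (x : V3) :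
    Y.L i (actL (Y.rho g) x) = Y.chi i g * Y.L i x := by
  rw [rho, actL_mul, Y.L_zpow (Y.alpos i) (Y.LA i), Y.L_zpow (Y.bepos i) (Y.LB i), chi]
  ring

/-- the cone -/
def C : Set V3 := {x | ∀ i, 0 < Y.L i x}

theorem C_rho {x : V3} (hx : x ∈ Y.C) (g : ℤ × ℤ) : actL (Y.rho g) x ∈ Y.C := by
  intro i
  rw [L_rho]
  exact mul_pos (Y.chi_pos i g) (hx i)

/-- the vertices of the sail -/
noncomputable def pos (g : ℤ × ℤ) : V3 := actL (Y.rho g) (ic Y.v)

theorem pos_lat (g : ℤ × ℤ) : Y.pos g ∈ intLattice := actL_lat _ (ic_mem _)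

theorem L_pos (i : Fin 3) (g : ℤ × ℤ) : Y.L i (Y.pos g) = Y.chi i g := by
  rw [pos, L_rho, Y.Lv, mul_one]

theorem pos_C (g : ℤ × ℤ) : Y.pos g ∈ Y.C := by
  intro i
  rw [L_pos]
  exact Y.chi_pos i g

theorem rho_pos (g h : ℤ × ℤ) : actL (Y.rho g) (Y.pos h) = Y.pos (g + h) := by
  rw [pos, pos, ← actL_mul, ← rho_add]

theorem pos_inj : Function.Injective Y.pos := by
  intro g h hgh
  have h1 : ∀ i, Y.al i ^ (g.1 - h.1) * Y.be i ^ (g.2 - h.2) = 1 := by
    intro i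
    have h2 : Y.chi i g = Y.chi i h := by rw [← L_pos, ← L_pos, hgh]
    rw [zpow_sub₀ (Y.alpos i).ne', zpow_sub₀ (Y.bepos i).ne', div_mul_div_comm]
    rw [chi, chi] at h2
    rw [h2, div_self]
    exact (mul_pos (zpow_pos (Y.alpos i) _) (zpow_pos (Y.bepos i) _)).ne'
  obtain ⟨h2, h3⟩ := Y.mind _ _ h1
  ext
  · omega
  · omega

/-- the combinatorial structure: the triangular lattice -/
def vert (i : (ℤ × ℤ) × Bool) : Fin 3 → ℤ × ℤ :=
  match i.2 with
  | false => ![i.1, i.1 + (1, 0), i.1 + (0, 1)]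
  | true => ![i.1 + (1, 0), i.1 + (0, 1), i.1 + (1, 1)]

/-- the base functionals -/
noncomputable def fb (τ : Bool) : V3 →ₗ[ℝ] ℝ :=
  match τ with
  | false => cov (ic Y.fU)
  | true => (1 / (Y.d : ℝ)) • cov (ic Y.fD)

noncomputable def f (i : (ℤ × ℤ) × Bool) : V3 →ₗ[ℝ] ℝ := (Y.fb i.2).comp (actL (Y.rho (-i.1)))

/-- the coefficients of the base functionals -/
noncomputable def cc (τ : Bool) (i : Fin 3) : ℝ :=
  match τ with
  | false => Y.cU i
  | true => Y.cD i / Y.d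

theorem dpos' : (0 : ℝ) < Y.d := by exact_mod_cast Y.dpos

theorem cc_pos (τ : Bool) (i : Fin 3) : 0 < Y.cc τ i := by
  cases τ
  · exact Y.cUpos i
  · exact div_pos (Y.cDpos i) Y.dpos'

theorem fb_eq (τ : Bool) (x : V3) : Y.fb τ x = ∑ i, Y.cc τ i * Y.L i x := by
  cases τ
  · exact Y.fUc x
  · simp only [fb, cc, LinearMap.smul_apply, Y.fDc, smul_eq_mul, Finset.mul_sum]
    refine Finset.sum_congr rfl fun i _ => ?_
    ring

theorem f_eq (i : (ℤ × ℤ) × Bool) (x : V3) :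
    Y.f i x = ∑ j, Y.cc i.2 j * (Y.chi j (-i.1) * Y.L j x) := by
  rw [f, LinearMap.comp_apply, fb_eq]
  simp only [L_rho]

theorem f_pos (i : (ℤ × ℤ) × Bool) {x : V3} (hx : x ∈ Y.C) : 0 < Y.f i x := by
  rw [f_eq]
  apply Finset.sum_pos
  · intro j _
    exact mul_pos (Y.cc_pos _ _) (mul_pos (Y.chi_pos _ _) (hx j))
  · exact Finset.univ_nonempty

theorem pos_zero : Y.pos 0 = ic Y.v := by rw [pos, rho_zero, actL_one]

theorem pos_a : Y.pos (1, 0) = ic (Y.A.1.mulVec Y.v) := by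
  rw [pos, rho]
  simp only [zpow_one, zpow_zero, mul_one]
  rw [actL_ic]

theorem pos_b : Y.pos (0, 1) = ic (Y.B.1.mulVec Y.v) := by
  rw [pos, rho]
  simp only [zpow_one, zpow_zero, one_mul]
  rw [actL_ic]

theorem pos_ab : Y.pos (1, 1) = ic ((Y.A * Y.B).1.mulVec Y.v) := by
  rw [pos, rho]
  simp only [zpow_one]
  rw [actL_ic]

theorem vert_eq (i : (ℤ × ℤ) × Bool) (j : Fin 3) : vert i j = i.1 + vert (0, i.2) j := by
  obtain ⟨g, τ⟩ := i
  cases τ <;> fin_cases j <;> simp [vert]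

theorem pos_vert (i : (ℤ × ℤ) × Bool) (j : Fin 3) :
    Y.pos (vert i j) = actL (Y.rho i.1) (Y.pos (vert (0, i.2) j)) := by
  rw [vert_eq, rho_pos]

theorem fb_vert (τ : Bool) (j : Fin 3) : Y.fb τ (Y.pos (vert (0, τ) j)) = 1 := by
  have hd := Y.dpos'
  cases τ
  · fin_cases j
    · simp only [vert, fb]
      show cov (ic Y.fU) (Y.pos 0) = 1
      rw [pos_zero, cov_ic, Y.fU0]
      simp
    · simp only [vert, fb]
      show cov (ic Y.fU) (Y.pos (0 + (1, 0))) = 1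
      rw [zero_add, pos_a, cov_ic, Y.fU1]
      simp
    · simp only [vert, fb]
      show cov (ic Y.fU) (Y.pos (0 + (0, 1))) = 1
      rw [zero_add, pos_b, cov_ic, Y.fU2]
      simp
  · fin_cases j
    · simp only [vert, fb]
      show (1 / (Y.d : ℝ)) * cov (ic Y.fD) (Y.pos (0 + (1, 0))) = 1
      rw [zero_add, pos_a, cov_ic, Y.fD0]
      field_simp
      simp
    · simp only [vert, fb]
      show (1 / (Y.d : ℝ)) * cov (ic Y.fD) (Y.pos (0 + (0, 1))) = 1
      rw [zero_add, pos_b, cov_ic, Y.fD1]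
      field_simp
      simp
    · simp only [vert, fb]
      show (1 / (Y.d : ℝ)) * cov (ic Y.fD) (Y.pos (0 + (1, 1))) = 1
      rw [zero_add, pos_ab, cov_ic, Y.fD2]
      field_simp
      simp

theorem f_vert (i : (ℤ × ℤ) × Bool) (j : Fin 3) : Y.f i (Y.pos (vert i j)) = 1 := by
  rw [f, LinearMap.comp_apply, pos_vert, rho_neg, actL_inv_self, fb_vert]

theorem fb_P (τ : Bool) (z : Fin 3 → ℤ) (hz : ic z ∈ Y.C) :
    1 ≤ Y.fb τ (ic z) ∧ (Y.fb τ (ic z) = 1 → ∃ j, ic z = Y.pos (vert (0, τ) j)) := by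
  have hd := Y.dpos'
  have hp : 0 < Y.fb τ (ic z) := by
    rw [fb_eq]
    apply Finset.sum_pos
    · intro j _
      exact mul_pos (Y.cc_pos _ _) (hz j)
    · exact Finset.univ_nonempty
  cases τ
  · simp only [fb] at hp ⊢
    rw [cov_ic] at hp ⊢
    constructor
    · exact_mod_cast hp
    · intro h
      have h1 : ∑ k, Y.fU k * z k = 1 := by exact_mod_cast h
      rcases Y.minU z hz h1 with h2 | h2 | h2
      · refine ⟨0, ?_⟩
        show ic z = Y.pos 0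
        rw [pos_zero, h2]
      · refine ⟨1, ?_⟩
        show ic z = Y.pos (0 + (1, 0))
        rw [zero_add, pos_a, h2]
      · refine ⟨2, ?_⟩
        show ic z = Y.pos (0 + (0, 1))
        rw [zero_add, pos_b, h2]
  · obtain ⟨h1, h2⟩ := Y.minD z hz
    simp only [fb, LinearMap.smul_apply, smul_eq_mul]
    rw [cov_ic]
    constructor
    · rw [one_div, ← div_eq_inv_mul, le_div_iff₀ hd, one_mul]
      exact_mod_cast h1
    · intro h
      rw [one_div, ← div_eq_inv_mul, div_eq_iff hd.ne', one_mul] at h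
      have h3 : ∑ k, Y.fD k * z k = Y.d := by exact_mod_cast h
      rcases h2 h3 with h2 | h2 | h2
      · refine ⟨0, ?_⟩
        show ic z = Y.pos (0 + (1, 0))
        rw [zero_add, pos_a, h2]
      · refine ⟨1, ?_⟩
        show ic z = Y.pos (0 + (0, 1))
        rw [zero_add, pos_b, h2]
      · refine ⟨2, ?_⟩
        show ic z = Y.pos (0 + (1, 1))
        rw [zero_add, pos_ab, h2]

theorem finite_lat (M : ℝ) : {x : V3 | x ∈ intLattice ∧ ∀ i, 0 ≤ Y.L i x ∧ Y.L i x ≤ M}.Finite := by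
  have hinj : Function.Injective (LinearMap.pi Y.L) := by
    rw [← LinearMap.ker_eq_bot, LinearMap.ker_pi]
    have h1 : ⨅ i, LinearMap.ker (Y.L i) = (Submodule.span ℝ (Set.range Y.L)).dualCoannihilator := by
      ext x
      simp only [Submodule.mem_iInf, LinearMap.mem_ker, Submodule.mem_dualCoannihilator]
      constructor
      · intro h φ hφ
        induction hφ using Submodule.span_induction with
        | mem φ hφ => obtain ⟨i, rfl⟩ := hφ; exact h i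
        | zero => rfl
        | add a b _ _ ha hb => rw [LinearMap.add_apply, ha, hb, add_zero]
        | smul c a _ ha => rw [LinearMap.smul_apply, ha, smul_zero]
      · intro h i
        exact h _ (Submodule.subset_span ⟨i, rfl⟩)
    have h2 : Submodule.span ℝ (Set.range Y.L) = ⊤ := by
      apply Y.ind.span_eq_top_of_card_eq_finrank'
      simp [Subspace.dual_finrank_eq]
    rw [h1, h2]
    exact Submodule.dualCoannihilator_top
  let e : V3 ≃ₗ[ℝ] V3 := LinearEquiv.ofInjectiveEndo (LinearMap.pi Y.L) hinj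
  have hcomp : IsCompact (e.symm '' (Set.Icc (0 : V3) (fun _ => M))) := by
    apply isCompact_Icc.image
    exact LinearMap.continuous_of_finiteDimensional (e.symm : V3 →ₗ[ℝ] V3)
  obtain ⟨R, hR⟩ := hcomp.isBounded.subset_closedBall (0 : V3)
  obtain ⟨N, hN⟩ := exists_nat_ge R
  have hfin : (Set.Icc (fun _ => -(N : ℤ)) (fun _ => (N : ℤ)) : Set (Fin 3 → ℤ)).Finite :=
    Set.finite_Icc _ _
  apply (hfin.image ic).subset
  rintro x ⟨hx, hL⟩
  obtain ⟨z, rfl⟩ := exists_ic hx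
  refine ⟨z, ?_, rfl⟩
  have h1 : ic z ∈ e.symm '' (Set.Icc (0 : V3) (fun _ => M)) := by
    refine ⟨e (ic z), ⟨fun i => (hL i).1, fun i => (hL i).2⟩, ?_⟩
    simp
  have h2 := hR h1
  rw [Metric.mem_closedBall, dist_zero_right] at h2
  have h3 : ∀ i, |(z i : ℝ)| ≤ N := by
    intro i
    have h4 := norm_le_pi_norm (ic z) i
    rw [Real.norm_eq_abs] at h4
    exact h4.trans (h2.trans hN)
  constructor
  · intro i
    have := abs_le.mp (h3 i)
    have h5 : ((-(N : ℤ) : ℤ) : ℝ) ≤ (z i : ℝ) := by push_cast; linarith [this.1]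
    exact_mod_cast h5
  · intro i
    have := abs_le.mp (h3 i)
    have h5 : (z i : ℝ) ≤ ((N : ℤ) : ℝ) := by push_cast; linarith [this.2]
    exact_mod_cast h5

end Sys

end Pool.Agent.H476R2
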