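import Pool.Agent.H476R2.Sys

namespace Pool.Agent.H476R2

open Set Matrix Filter Topology

namespace Sys

variable (Y : Sys)

theorem C_open : IsOpen Y.C := by
  have h1 : Y.C = ⋂ i, {x | 0 < Y.L i x} := by
    ext x
    simp [C]
  rw [h1]
  apply isOpen_iInter_of_finite
  intro i
  exact isOpen_lt continuous_const (LinearMap.continuous_of_finiteDimensional _)

theorem closure_C {x : V3} (hx : x ∈ closure Y.C) (i : Fin 3) : 0 ≤ Y.L i x := by
  have hcl : IsClosed {x : V3 | 0 ≤ Y.L i x} :=
    isClosed_le continuous_const (LinearMap.continuous_of_finiteDimensional _)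
  exact closure_minimal (fun x hx => (hx i).le) hcl hx

theorem proper (p : V3) (hp : p ∈ Y.C) (B : ℝ) : {i | Y.f i p ≤ B}.Finite := by
  -- a common lower bound for the coefficients
  obtain ⟨δ, hδ, hδc⟩ : ∃ δ : ℝ, 0 < δ ∧ ∀ τ j, δ ≤ Y.cc τ j * Y.L j p := by
    have hfin : (Set.range fun q : Bool × Fin 3 => Y.cc q.1 q.2 * Y.L q.2 p).Finite :=
      Set.finite_range _
    obtain ⟨q, hq⟩ := Finite.exists_min (fun q : Bool × Fin 3 => Y.cc q.1 q.2 * Y.L q.2 p)
    exact ⟨_, mul_pos (Y.cc_pos q.1 q.2) (hp q.2), fun τ j => hq (τ, j)⟩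
  have hbound : ∀ i, Y.f i p ≤ B → ∀ j, Y.chi j (-i.1) ≤ B / δ := by
    intro i hi j
    rw [le_div_iff₀ hδ]
    refine le_trans ?_ hi
    rw [f_eq]
    have h1 : Y.cc i.2 j * (Y.chi j (-i.1) * Y.L j p) ≤
        ∑ j, Y.cc i.2 j * (Y.chi j (-i.1) * Y.L j p) := by
      apply Finset.single_le_sum (f := fun j => Y.cc i.2 j * (Y.chi j (-i.1) * Y.L j p)) _
        (Finset.mem_univ j)
      intro k _
      exact (mul_pos (Y.cc_pos _ _) (mul_pos (Y.chi_pos _ _) (hp k))).le
    refine le_trans ?_ h1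
    have h2 := hδc i.2 j
    have h3 := Y.chi_pos j (-i.1)
    nlinarith
  have hfin := Y.finite_lat (B / δ)
  have hfin2 : {g : ℤ × ℤ | ∀ j, Y.chi j (-g) ≤ B / δ}.Finite := by
    have hinj : Function.Injective fun g : ℤ × ℤ => Y.pos (-g) :=
      Y.pos_inj.comp neg_injective
    apply (hfin.preimage (f := fun g : ℤ × ℤ => Y.pos (-g)) hinj.injOn).subset
    intro g hg
    refine ⟨Y.pos_lat _, fun i => ?_⟩
    rw [L_pos]
    exact ⟨(Y.chi_pos _ _).le, hg i⟩
  apply (hfin2.prod (Set.finite_univ : (Set.univ : Set Bool).Finite)).subset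
  intro i hi
  exact ⟨hbound i hi, mem_univ _⟩

theorem bd (p : V3) (hp : p ∈ closure Y.C) (hpC : p ∉ Y.C) : ∃ i, Y.f i p < 1 := by
  have h0 := Y.closure_C hp
  obtain ⟨k, hk⟩ : ∃ k, Y.L k p = 0 := by
    by_contra hcon
    push Not at hcon
    exact hpC fun i => lt_of_le_of_ne (h0 i) (hcon i).symm
  obtain ⟨a, b, hab⟩ := Y.contr k
  have hchi : ∀ j (n : ℕ), Y.chi j (n * a, n * b) = (Y.al j ^ a * Y.be j ^ b) ^ n := by
    intro j n
    rw [chi, mul_pow, ← zpow_natCast, ← zpow_natCast, ← _root_.zpow_mul, ← _root_.zpow_mul]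
    simp only [mul_comm]
  have hlim : Tendsto (fun n : ℕ => ∑ j, Y.cc false j * (Y.chi j (n * a, n * b) * Y.L j p)) atTop
      (𝓝 (∑ j : Fin 3, (0 : ℝ))) := by
    apply tendsto_finsetSum
    intro j _
    by_cases hj : j = k
    · subst hj
      simp only [hk, mul_zero]
      exact tendsto_const_nhds
    · have h1 : Tendsto (fun n : ℕ => (Y.al j ^ a * Y.be j ^ b) ^ n) atTop (𝓝 0) :=
        tendsto_pow_atTop_nhds_zero_of_lt_one
          (mul_pos (zpow_pos (Y.alpos j) _) (zpow_pos (Y.bepos j) _)).le (hab j hj)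
      have h2 : Tendsto (fun n : ℕ => Y.cc false j * (Y.chi j (n * a, n * b) * Y.L j p)) atTop
          (𝓝 (Y.cc false j * (0 * Y.L j p))) := by
        simp only [hchi]
        exact (h1.mul_const _).const_mul _
      simpa using h2
  simp only [Finset.sum_const_zero] at hlim
  obtain ⟨n, hn⟩ := (hlim.eventually (gt_mem_nhds (zero_lt_one))).exists
  refine ⟨(-(n * a, n * b), false), ?_⟩
  rw [f_eq]
  simpa using hn

theorem nbr (i : (ℤ × ℤ) × Bool) (j : Fin 3) :
    ∃ i', (∀ k, k ≠ j → ∃ l, vert i k = vert i' l) ∧ (∀ l, vert i j ≠ vert i' l) := by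
  obtain ⟨⟨a, b⟩, τ⟩ := i
  cases τ
  · fin_cases j
    · refine ⟨((a, b), true), ?_, ?_⟩
      · intro k hk
        fin_cases k
        · exact absurd rfl hk
        · exact ⟨0, rfl⟩
        · exact ⟨1, rfl⟩
      · intro l
        fin_cases l <;> simp [vert]
    · refine ⟨((a - 1, b), true), ?_, ?_⟩
      · intro k hk
        fin_cases k
        · exact ⟨0, by simp [vert]⟩
        · exact absurd rfl hk
        · exact ⟨2, by simp [vert]⟩
      · intro l
        fin_cases l <;> simp [vert]
    · refine ⟨((a, b - 1), true), ?_, ?_⟩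
      · intro k hk
        fin_cases k
        · exact ⟨1, by simp [vert]⟩
        · exact ⟨2, by simp [vert]⟩
        · exact absurd rfl hk
      · intro l
        fin_cases l <;> simp [vert]
  · fin_cases j
    · refine ⟨((a, b + 1), false), ?_, ?_⟩
      · intro k hk
        fin_cases k
        · exact absurd rfl hk
        · exact ⟨0, by simp [vert]⟩
        · exact ⟨1, by simp [vert]⟩
      · intro l
        fin_cases l <;> simp [vert]
    · refine ⟨((a + 1, b), false), ?_, ?_⟩
      · intro k hk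
        fin_cases k
        · exact ⟨0, by simp [vert]⟩
        · exact absurd rfl hk
        · exact ⟨2, by simp [vert]⟩
      · intro l
        fin_cases l <;> simp [vert]
    · refine ⟨((a, b), false), ?_, ?_⟩
      · intro k hk
        fin_cases k
        · exact ⟨1, by simp [vert]⟩
        · exact ⟨2, by simp [vert]⟩
        · exact absurd rfl hk
      · intro l
        fin_cases l <;> simp [vert]

theorem basis (i : (ℤ × ℤ) × Bool) : LinearIndependent ℝ (fun j => Y.pos (vert i j)) := by
  have h1 : (fun j => Y.pos (vert i j)) =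
      actL (Y.rho i.1) ∘ (fun j => Y.pos (vert (0, i.2) j)) := by
    funext j
    exact Y.pos_vert i j
  rw [h1]
  apply LinearIndependent.map'
  · obtain ⟨g, τ⟩ := i
    cases τ
    · have h2 : (fun j => Y.pos (vert (0, false) j)) =
          ![ic Y.v, ic (Y.A.1.mulVec Y.v), ic (Y.B.1.mulVec Y.v)] := by
        funext j
        fin_cases j
        · exact Y.pos_zero
        · show Y.pos (0 + (1, 0)) = _
          rw [zero_add, pos_a]
          rfl
        · show Y.pos (0 + (0, 1)) = _
          rw [zero_add, pos_b]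
          rfl
      show LinearIndependent ℝ (fun j => Y.pos (vert (0, false) j))
      rw [h2]
      exact Y.basU
    · have h2 : (fun j => Y.pos (vert (0, true) j)) =
          ![ic (Y.A.1.mulVec Y.v), ic (Y.B.1.mulVec Y.v), ic ((Y.A * Y.B).1.mulVec Y.v)] := by
        funext j
        fin_cases j
        · show Y.pos (0 + (1, 0)) = _
          rw [zero_add, pos_a]
          rfl
        · show Y.pos (0 + (0, 1)) = _
          rw [zero_add, pos_b]
          rfl
        · show Y.pos (0 + (1, 1)) = _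
          rw [zero_add, pos_ab]
          rfl
      show LinearIndependent ℝ (fun j => Y.pos (vert (0, true) j))
      rw [h2]
      exact Y.basD
  · rw [LinearMap.ker_eq_bot]
    intro x y hxy
    rw [← actL_inv_self (Y.rho i.1) x, hxy, actL_inv_self]

/-- the simplicial sail of the system -/
noncomputable def data : SailData ((ℤ × ℤ) × Bool) (ℤ × ℤ) where
  C := Y.C
  P := Y.C ∩ (intLattice : Set V3)
  pos := Y.pos
  vert := vert
  f := Y.f
  Copen := Y.C_open
  Cadd x hx y hy i := by
    rw [map_add]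
    exact add_pos (hx i) (hy i)
  Csmul x hx t ht i := by
    rw [map_smul, smul_eq_mul]
    exact mul_pos ht (hx i)
  PC := Set.inter_subset_left
  Pnat x hx n hn := by
    refine ⟨fun i => ?_, ?_⟩
    · rw [map_smul, smul_eq_mul]
      exact mul_pos (by exact_mod_cast hn) (hx.1 i)
    · have h1 : (n : ℝ) • x = n • x := by rw [Nat.cast_smul_eq_nsmul]
      rw [h1]
      exact intLattice.nsmul_mem hx.2 n
  posP g := ⟨Y.pos_C g, Y.pos_lat g⟩
  pos_inj := Y.pos_inj
  fpos i x hx := Y.f_pos i hx
  fvert := Y.f_vert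
  fP i x hx := by
    have h1 := Y.C_rho hx.1 (-i.1)
    have h2 : actL (Y.rho (-i.1)) x ∈ intLattice := actL_lat _ hx.2
    obtain ⟨z, hz⟩ := exists_ic h2
    rw [hz] at h1
    rw [f, LinearMap.comp_apply, hz]
    exact (Y.fb_P i.2 z h1).1
  fP_eq i x hx hf := by
    have h1 := Y.C_rho hx.1 (-i.1)
    have h2 : actL (Y.rho (-i.1)) x ∈ intLattice := actL_lat _ hx.2
    obtain ⟨z, hz⟩ := exists_ic h2
    rw [hz] at h1
    rw [f, LinearMap.comp_apply, hz] at hf
    obtain ⟨j, hj⟩ := (Y.fb_P i.2 z h1).2 hf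
    refine ⟨j, ?_⟩
    rw [pos_vert, ← hj, ← hz, rho_neg, actL_self_inv]
  basis := Y.basis
  nbr := nbr
  proper := Y.proper
  bd := Y.bd
  nonempty := ⟨(0, false)⟩

/-- the integer distances -/
def dist (i : (ℤ × ℤ) × Bool) : ℕ :=
  match i.2 with
  | false => 1
  | true => Y.d

theorem data_w (i : (ℤ × ℤ) × Bool) (j : Fin 3) : Y.data.w i j = Y.pos (vert i j) := rfl

theorem sum_act (l : Fin 3 → ℤ) (g : SpecialLinearGroup (Fin 3) ℤ) (x : V3) :
    ∑ k, ((g.1.transpose.mulVec l) k : ℝ) * x k = cov (ic l) (actL g x) := by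
  rw [cov_apply]
  simp only [ic, actL, actM, Matrix.mulVecLin_apply, Matrix.mulVec, dotProduct, Fin.sum_univ_three,
    Matrix.transpose_apply, Matrix.map_apply, Int.coe_castRingHom]
  push_cast
  ring

theorem prim_act {l : Fin 3 → ℤ} (hl : Prim l) (g : SpecialLinearGroup (Fin 3) ℤ) :
    Prim (g.1.transpose.mulVec l) := by
  intro d hd
  apply hl
  have h1 : (g⁻¹).1.transpose.mulVec (g.1.transpose.mulVec l) = l := by
    rw [Matrix.mulVec_mulVec, ← Matrix.transpose_mul]
    have h2 : g.1 * (g⁻¹).1 = (g * g⁻¹).1 := rfl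
    rw [h2, mul_inv_cancel]
    have h3 : (1 : SpecialLinearGroup (Fin 3) ℤ).1 = 1 := rfl
    rw [h3, Matrix.transpose_one, Matrix.one_mulVec]
  intro i
  rw [← h1]
  simp only [Matrix.mulVec, dotProduct]
  apply Finset.dvd_sum
  intro j _
  exact Dvd.dvd.mul_left (hd j) _

theorem latData : LatData Y.data Y.dist where
  P_eq := rfl
  unimod i v hv hf := by
    have h2 : actL (Y.rho (-i.1)) v ∈ intLattice := actL_lat _ hv
    obtain ⟨z, hz⟩ := exists_ic h2
    have h3 : v = actL (Y.rho i.1) (ic z) := by rw [← hz, rho_neg, actL_self_inv]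
    have hf' : Y.fb i.2 (ic z) = 0 := by rw [← hz]; exact hf
    have e : ∀ j, Y.data.w i j = actL (Y.rho i.1) (Y.pos (vert (0, i.2) j)) := Y.pos_vert i
    rw [e, e, e, h3]
    obtain ⟨g, τ⟩ := i
    cases τ
    · have h4 : ∑ k, Y.fU k * z k = 0 := by
        have : cov (ic Y.fU) (ic z) = 0 := hf'
        rw [cov_ic] at this
        exact_mod_cast this
      obtain ⟨m, n, rfl⟩ := Y.uniU z h4
      refine ⟨m, n, ?_⟩
      have e0 : Y.pos (vert (0, false) 0) = ic Y.v := Y.pos_zero
      have e1 : Y.pos (vert (0, false) 1) = ic (Y.A.1.mulVec Y.v) := by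
        show Y.pos (0 + (1, 0)) = _
        rw [zero_add, pos_a]
      have e2 : Y.pos (vert (0, false) 2) = ic (Y.B.1.mulVec Y.v) := by
        show Y.pos (0 + (0, 1)) = _
        rw [zero_add, pos_b]
      simp only [e0, e1, e2]
      rw [← map_sub, ← map_sub, ← map_zsmul, ← map_zsmul, ← map_add]
      congr 1
      funext k
      simp [ic]
    · have hd := Y.dpos'
      have h4 : ∑ k, Y.fD k * z k = 0 := by
        have : (1 / (Y.d : ℝ)) * cov (ic Y.fD) (ic z) = 0 := hf'
        rw [cov_ic] at this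
        have h5 : ((∑ k, Y.fD k * z k : ℤ) : ℝ) = 0 := by
          rcases mul_eq_zero.mp this with h | h
          · exact absurd h (by positivity)
          · exact h
        exact_mod_cast h5
      obtain ⟨m, n, rfl⟩ := Y.uniD z h4
      refine ⟨m, n, ?_⟩
      have e0 : Y.pos (vert (0, true) 0) = ic (Y.A.1.mulVec Y.v) := by
        show Y.pos (0 + (1, 0)) = _
        rw [zero_add, pos_a]
      have e1 : Y.pos (vert (0, true) 1) = ic (Y.B.1.mulVec Y.v) := by
        show Y.pos (0 + (0, 1)) = _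
        rw [zero_add, pos_b]
      have e2 : Y.pos (vert (0, true) 2) = ic ((Y.A * Y.B).1.mulVec Y.v) := by
        show Y.pos (0 + (1, 1)) = _
        rw [zero_add, pos_ab]
      simp only [e0, e1, e2]
      rw [← map_sub, ← map_sub, ← map_zsmul, ← map_zsmul, ← map_add]
      congr 1
      funext k
      simp [ic]
  distance i := by
    obtain ⟨g, τ⟩ := i
    cases τ
    · refine ⟨Nat.one_pos, (Y.rho (-g)).1.transpose.mulVec Y.fU, prim_act Y.primU _, fun j => ?_⟩
      rw [sum_act]
      have := Y.f_vert (g, false) j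
      rw [f, LinearMap.comp_apply] at this
      show _ = ((1 : ℕ) : ℝ)
      rw [Nat.cast_one]
      exact this
    · refine ⟨Y.dpos, (Y.rho (-g)).1.transpose.mulVec Y.fD, prim_act Y.primD _, fun j => ?_⟩
      rw [sum_act]
      have := Y.f_vert (g, true) j
      rw [f, LinearMap.comp_apply] at this
      have h2 : (1 / (Y.d : ℝ)) * cov (ic Y.fD) (actL (Y.rho (-g)) (Y.pos (vert (g, true) j))) = 1 :=
        this
      have hd := Y.dpos'
      rw [one_div, ← div_eq_inv_mul, div_eq_iff hd.ne', one_mul] at h2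
      exact h2

/-- the three planes of the system -/
noncomputable def planes : Planes := ⟨Y.L, Y.ind⟩

theorem hull_eq : hull Y.planes 1 = Y.data.K := by
  rw [← SailData.hull_eq, hull]
  congr 1
  have hc : cone Y.planes 1 = Y.C := by
    ext x
    simp [cone, C, planes]
  rw [hc]
  ext x
  constructor
  · rintro ⟨⟨h1, h2⟩, h3⟩
    refine ⟨fun i => lt_of_le_of_ne (Y.closure_C h1 i) fun h => ?_, h2⟩
    obtain ⟨z, rfl⟩ := exists_ic h2
    apply Y.irr z _ i h.symm
    rintro rfl
    apply h3
    funext k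
    simp [ic]
  · rintro ⟨h1, h2⟩
    refine ⟨⟨subset_closure h1, h2⟩, ?_⟩
    rintro rfl
    have := h1 0
    simp at this

theorem sail_eq : sail Y.planes 1 = ⋃ i, Y.data.tri i := by
  rw [sail, hull_eq, SailData.frontier_eq]

end Sys

/-- two systems with the same distance give sails related by an invariant preserving
homeomorphism -/
theorem Sys.exists_homeo (Y Y' : Sys) (h : Y.d = Y'.d) :
    ∃ φ : sail Y.planes 1 ≃ₜ sail Y'.planes 1, InvariantPreserving Y.planes 1 Y'.planes 1 φ := by
  have hd : Y.dist = Y'.dist := by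
    funext i
    obtain ⟨g, τ⟩ := i
    cases τ
    · rfl
    · exact h
  exact ⟨_, invariantPreserving Y.data Y'.data Y.dist Y.latData (hd ▸ Y'.latData) rfl _ _ _ _
    Y.hull_eq Y'.hull_eq Y.sail_eq Y'.sail_eq⟩

end Pool.Agent.H476R2
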